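import Pool.Agent.P.MP_fb2f7f_lc.ZF.S2

/-! Certificates for strong filterbase infinity at the level of forced equality and membership. -/

set_option linter.unusedSectionVars false

namespace Pool.Agent.SymExt

open Pool.Agent.Lib.PosetForcing Pool.Agent.Lib.PermModel

variable {P Γ : Type} [Preorder P]

/-- Forced inequality. -/
def FNe (a b : Name P) (s : P) : Prop := ∀ t ≤ s, ¬ FEq a b t

/-- Forced non-membership. -/
def NMem (a b : Name P) (s : P) : Prop := ∀ t ≤ s, ¬ FMem a b t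

theorem FNe.mono {a b : Name P} {s t : P} (h : FNe a b s) (ht : t ≤ s) : FNe a b t :=
  fun r hr => h r (hr.trans ht)

theorem NMem.mono {a b : Name P} {s t : P} (h : NMem a b s) (ht : t ≤ s) : NMem a b t :=
  fun r hr => h r (hr.trans ht)

theorem FNe.symm {a b : Name P} {s : P} (h : FNe a b s) : FNe b a s := fun r hr e => h r hr e.symm

theorem exists_fNe {a b : Name P} {s : P} (h : ¬ FEq a b s) : ∃ t ≤ s, FNe a b t := by
  by_contra hn
  refine h (FEq.of_dn fun q hq => ?_)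
  by_contra h2
  exact hn ⟨q, hq, fun t ht e => h2 ⟨t, ht, e⟩⟩

theorem fMem_mono {a b : Name P} {s t : P} (h : FMem a b s) (ht : t ≤ s) : FMem a b t :=
  Dn.mono h ht

theorem fMem_of_dn {a b : Name P} {s : P} (h : Dn (FMem a b) s) : FMem a b s := Dn.dn h

theorem fMem_mk {ι : Type} {A : ι → Name P} {c : ι → P} {p : P} (i : ι) (h : p ≤ c i) :
    FMem (A i) (.mk ι A c) p := fun q hq => ⟨q, le_rfl, i, hq.trans h, FEq.refl _ _⟩

theorem of_fMem_mk {ι : Type} {A : ι → Name P} {c : ι → P} {p : P} {x : Name P}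
    (h : FMem x (.mk ι A c) p) : ∃ r ≤ p, ∃ i, r ≤ c i ∧ FEq x (A i) r := h p le_rfl

theorem fMem_sub {ι : Type} {A : ι → Name P} {c : ι → P} {q : P} {Z : Name P}
    (h : ∀ i, ∀ r ≤ q, r ≤ c i → FMem (A i) Z r) (x : Name P) (r : P) (hr : r ≤ q)
    (hx : FMem x (.mk ι A c) r) : FMem x Z r := by
  refine fMem_of_dn fun s hs => ?_
  obtain ⟨t, ht, i, h1, h2⟩ := of_fMem_mk (fMem_mono hx hs)
  exact ⟨t, ht, (h i t (ht.trans (hs.trans hr)) h1).congr_left h2.symm⟩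

theorem exists_le_fin {N : ℕ} (R : Fin N → P → Prop) (hR : ∀ a s t, t ≤ s → R a s → R a t) {s : P}
    (h : ∀ a, ∀ r ≤ s, ∃ t ≤ r, R a t) : ∃ t ≤ s, ∀ a, R a t := by
  have : ∀ A : Finset (Fin N), ∃ t ≤ s, ∀ a ∈ A, R a t := by
    intro A
    induction A using Finset.induction_on with
    | empty => exact ⟨s, le_rfl, by simp⟩
    | insert a A _ ih =>
      obtain ⟨t, ht, h1⟩ := ih
      obtain ⟨u, hu, h2⟩ := h a t ht
      refine ⟨u, hu.trans ht, fun b hb => ?_⟩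
      rcases Finset.mem_insert.1 hb with rfl | hb
      · exact h2
      · exact hR b t u hu (h1 b hb)
  obtain ⟨t, ht, h1⟩ := this Finset.univ
  exact ⟨t, ht, fun a => h1 a (Finset.mem_univ a)⟩

theorem pigeon {L : Set (Name P)} (hL : L.Finite) (f : Fin (L.ncard + 1) → Name P) {s : P}
    (h : ∀ a, ∀ r ≤ s, ∃ t ≤ r, ∃ c ∈ L, FEq (f a) c t) : ∃ a b, a ≠ b ∧ ¬ FNe (f a) (f b) s := by
  obtain ⟨t, ht, h1⟩ := exists_le_fin (fun a t => ∃ c ∈ L, FEq (f a) c t)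
    (fun a s t ht ⟨c, hc, e⟩ => ⟨c, hc, e.mono ht⟩) h
  choose c hc e using h1
  have : Fintype L := hL.fintype
  obtain ⟨a, b, hab, h2⟩ := Fintype.exists_ne_map_eq_of_card_lt (fun a => (⟨c a, hc a⟩ : L)) (by
    rw [Fintype.card_fin, ← Nat.card_eq_fintype_card, Nat.card_coe_set_eq]; omega)
  have h3 : c a = c b := congrArg Subtype.val h2
  exact ⟨a, b, hab, fun hn => hn t ht ((e a).trans (h3 ▸ (e b).symm))⟩

variable [Group Γ] [MulAction Γ P] [Mono Γ P] (F : NFil Γ)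

/-- Below `q` there are arbitrarily many different elements with `R`. -/
def Unb (q : P) (R : Name P → P → Prop) : Prop :=
  ∀ N : ℕ, ∀ r ≤ q, ∃ s ≤ r, ∃ f : Fin N → Name P, (∀ a, HS F (f a) ∧ R (f a) s) ∧
    ∀ a b, a ≠ b → FNe (f a) (f b) s

/-- Below `q` the number of elements with `R` is bounded. -/
def Bd (q : P) (R : Name P → P → Prop) : Prop :=
  ∃ N : ℕ, ∀ s ≤ q, ∀ f : Fin N → Name P, (∀ a, HS F (f a) ∧ R (f a) s) →
    ∃ a b, a ≠ b ∧ ¬ FNe (f a) (f b) s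

/-- A certificate below `q` for the name `Z`. -/
def Cert (q : P) (Z : Name P) : Prop :=
  ∃ H ∈ F.B, ∃ Y : ℕ → Name P, (∀ i, HS F (Y i)) ∧
    (∀ i x, ∀ r ≤ q, FMem x (Y i) r → FMem x Z r) ∧ (∀ i, Unb F q fun x => FMem x (Y i)) ∧
    (∀ i j, i ≠ j → Bd F q fun x s => FMem x (Y i) s ∧ FMem x (Y j) s) ∧
    ∀ i, ∀ g ∈ H, ∀ g' ∈ H, Bd F q fun x s => FMem x (g • Y i) s ∧ NMem x (g' • Y i) s

variable {F}

theorem unb_or_bd (p : P) (R : Name P → P → Prop) : Unb F p R ∨ ∃ q ≤ p, Bd F q R := by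
  by_cases h : Unb F p R
  · exact Or.inl h
  · right
    unfold Unb at h
    push Not at h
    obtain ⟨N, r, hr, h⟩ := h
    exact ⟨r, hr, N, fun s hs f hf => h s hs f hf⟩

theorem Unb.mono {p q : P} {R : Name P → P → Prop} (h : Unb F p R) (hq : q ≤ p) : Unb F q R :=
  fun N r hr => h N r (hr.trans hq)

theorem bd_of_empty {q : P} {R : Name P → P → Prop} (h : ∀ s ≤ q, ∀ x, ¬ R x s) : Bd F q R :=
  ⟨1, fun s hs _ hf => (h s hs _ (hf 0).2).elim⟩

theorem bd_of_finite {q : P} {R : Name P → P → Prop} {L : Set (Name P)} (hL : L.Finite)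
    (h : ∀ s ≤ q, ∀ x, R x s → ∀ r ≤ s, ∃ t ≤ r, ∃ c ∈ L, FEq x c t) : Bd F q R :=
  ⟨L.ncard + 1, fun s hs f hf => pigeon hL f fun a => h s hs _ (hf a).2⟩

theorem Unb.exists_ne {p q : P} {R : Name P → P → Prop} (h : Unb F p R) (hq : q ≤ p)
    (hR : ∀ x s t, t ≤ s → R x s → R x t) {L : Set (Name P)} (hL : L.Finite) :
    ∃ r ≤ q, ∃ z, HS F z ∧ R z r ∧ ∀ c ∈ L, FNe z c r := by
  obtain ⟨s, hs, f, h1, h2⟩ := h (L.ncard + 1) q hq
  by_contra hn
  push Not at hn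
  obtain ⟨a, b, hab, h3⟩ := pigeon hL f (s := s) fun a r hr => by
    obtain ⟨c, hc, h4⟩ := hn r (hr.trans hs) (f a) (h1 a).1 (hR _ _ _ hr (h1 a).2)
    unfold FNe at h4
    push Not at h4
    obtain ⟨t, ht, e⟩ := h4
    exact ⟨t, ht, c, hc, e⟩
  exact h3 (h2 a b hab)

theorem unb_of_step {q : P} {R : Name P → P → Prop} {ι : Type} (y : ι → Name P)
    (C : ι → P → Prop) (hC : ∀ i s t, t ≤ s → C i s → C i t)
    (hR : ∀ i, ∀ s ≤ q, C i s → HS F (y i) ∧ R (y i) s)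
    (hne : ∀ i j, i ≠ j → ∀ s ≤ q, C i s → C j s → ¬ FEq (y i) (y j) s)
    (hstep : ∀ r ≤ q, ∀ J : Set ι, J.Finite → ∃ i ∉ J, ∃ s ≤ r, C i s) : Unb F q R := by
  have key : ∀ N : ℕ, ∀ r ≤ q, ∃ s ≤ r, ∃ e : Fin N → ι, Function.Injective e ∧ ∀ a, C (e a) s := by
    intro N
    induction N with
    | zero => exact fun r _ => ⟨r, le_rfl, Fin.elim0, fun a => a.elim0, fun a => a.elim0⟩
    | succ N ih =>
      intro r hr
      obtain ⟨s, hs, e, he, h1⟩ := ih r hr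
      obtain ⟨i, hi, t, ht, h2⟩ := hstep s (hs.trans hr) (Set.range e) (Set.finite_range e)
      refine ⟨t, ht.trans hs, Fin.cons i e, Fin.cons_injective_iff.2 ⟨hi, he⟩, fun a => ?_⟩
      refine Fin.cases ?_ (fun a => ?_) a
      · exact h2
      · exact hC _ _ _ ht (h1 a)
  intro N r hr
  obtain ⟨s, hs, e, he, h1⟩ := key N r hr
  exact ⟨s, hs, fun a => y (e a), fun a => hR _ s (hs.trans hr) (h1 a), fun a b hab t ht =>
    hne _ _ (fun h => hab (he h)) t (ht.trans (hs.trans hr)) (hC _ _ _ ht (h1 a))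
      (hC _ _ _ ht (h1 b))⟩

theorem cert_of_fix {q : P} {Z : Name P} {H : Subgroup Γ} (hH : H ∈ F.B) (Y : ℕ → Name P)
    (hel : ∀ i j, HS F ((Y i).el j)) (hfix : ∀ i, ∀ g ∈ H, Fix g (Y i))
    (hsub : ∀ i x, ∀ r ≤ q, FMem x (Y i) r → FMem x Z r)
    (hunb : ∀ i, Unb F q fun x => FMem x (Y i))
    (hdisj : ∀ i j, i ≠ j → ∀ s ≤ q, ∀ x, FMem x (Y i) s → FMem x (Y j) s → False) :
    Cert F q Z :=
  ⟨H, hH, Y, fun i => (hs_iff _).2 ⟨⟨H, hH, hfix i⟩, hel i⟩, hsub, hunb,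
    fun i j hij => bd_of_empty fun s hs x h => hdisj i j hij s hs x h.1 h.2,
    fun i g hg g' hg' => bd_of_empty fun s _ _ h => h.2 s le_rfl
      ((h.1.congr_right (hfix i g hg s)).congr_right (hfix i g' hg' s).symm)⟩

theorem disj_mk {q : P} {ι κ : Type} {A : ι → Name P} {c : ι → P} {A' : κ → Name P} {c' : κ → P}
    (h : ∀ i j, ∀ t ≤ q, t ≤ c i → t ≤ c' j → ¬ FEq (A i) (A' j) t) (s : P) (hs : s ≤ q)
    (x : Name P) (h1 : FMem x (.mk ι A c) s) (h2 : FMem x (.mk κ A' c') s) : False := by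
  obtain ⟨r, hr, i, h3, h4⟩ := of_fMem_mk h1
  obtain ⟨t, ht, j, h5, h6⟩ := of_fMem_mk (fMem_mono h2 hr)
  exact h i j t (ht.trans (hr.trans hs)) (ht.trans h3) h5 ((h4.mono ht).symm.trans h6)

/-- Symmetrisation of a locally symmetric name. -/
theorem exists_symm {H : Subgroup Γ} (hH : H ∈ F.B) {z : Name P} (hz : HS F z) {s : P}
    (h : ∀ g ∈ H, ∀ r ≤ s, r ≤ g • s → FEq (g • z) z r) :
    ∃ z', HS F z' ∧ (∀ g ∈ H, Fix g z') ∧ FEq z z' s := by
  let ι : Type := {x : H × z.idx × P // x.2.2 ≤ x.1.1 • s ∧ x.2.2 ≤ x.1.1 • z.cond x.2.1}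
  let z' : Name P := .mk ι (fun x => x.1.1.1 • z.el x.1.2.1) fun x => x.1.2.2
  have hfix : ∀ g ∈ H, Fix g z' := fun g hg => by
    refine fix_mk (H := H) (fun g hg x => ?_) hg
    refine ⟨⟨(⟨g, hg⟩ * x.1.1, x.1.2.1, g • x.1.2.2), ?_, ?_⟩, le_rfl, ?_⟩
    · simpa [mul_smul] using smul_le g x.2.1
    · simpa [mul_smul] using smul_le g x.2.2
    · simp only [Subgroup.coe_mul, mul_smul]; exact FEq.refl _ _
  refine ⟨z', (hs_iff _).2 ⟨⟨H, hH, hfix⟩, fun x => (hz.el _).smul (F.le H hH x.1.1.2)⟩, hfix,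
    (fEq_iff _ _ _).2 ⟨fun i q hq hc => ?_, fun x q hq hc => ?_⟩⟩
  · refine ⟨q, le_rfl, ⟨(1, i, q), by simpa using hq, by simpa using hc⟩, le_rfl, ?_⟩
    change FEq _ ((1 : Γ) • z.el i) q
    rw [one_smul]; exact FEq.refl _ _
  · have h1 : FMem (x.1.1.1 • z.el x.1.2.1) (x.1.1.1 • z) q :=
      fMem_mono (fMem_smul _ (fun r hr => ⟨r, le_rfl, x.1.2.1, hr, FEq.refl _ _⟩))
        (le_trans hc x.2.2)
    obtain ⟨r, hr, i, h2, h3⟩ :=
      h1.congr_right (h _ x.1.1.2 q hq (le_trans hc x.2.1)) q le_rfl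
    exact ⟨r, hr, i, h2, h3.symm⟩

theorem fNe_smul (g : Γ) {a b : Name P} {p : P} (h : FNe a b p) : FNe (g • a) (g • b) (g • p) :=
  fun t ht e => h (g⁻¹ • t) ((le_smul_iff g).1 ht) (by simpa using fEq_smul g⁻¹ e)

theorem Fix.smul_eq {g l : Γ} {a : Name P} (h : Fix (l⁻¹ * g) a) (p : P) :
    FEq (g • a) (l • a) p := by
  have := fEq_smul_all l h p
  rwa [mul_smul, smul_inv_smul] at this

end Pool.Agent.SymExt
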