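import Pool.Agent.P.MP_fb2f7f_lc.ZF.S4
import Pool.Agent.P.MP_fb2f7f_lc.ZF.C1

/-! Symmetric extensions, part 5: certificates make sets strongly filterbase infinite. -/

set_option linter.unusedSectionVars false

namespace Pool.Agent.SymExt

open Pool.Agent.Lib.PosetForcing Pool.Agent.Lib.PermModel Pool.Agent.Lib.SymExt

variable {P Γ : Type} [Group Γ] [MulAction Γ P] [Preorder P] [Mono Γ P] {F : NFil Γ}

variable [OrderTop P]

theorem isUpN {a b : Name P} (ha : HS F a) (hb : HS F b) (U : Gen P) (u : NM F U) :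
    (str F U).IsSetOf u (fun z => z = ha.sn.v U ∨ z = hb.sn.v U) ↔
      u.1 = (upairName a b).val U := by
  have key : ∀ z : NM F U, (str F U).mem z ((hs_upair ha hb).sn.v U) ↔
      z = ha.sn.v U ∨ z = hb.sn.v U := fun z =>
    (mem_upairName a b U z.1).trans (or_congr (Subtype.ext_iff (a1 := z) (a2 := ha.sn.v U)).symm
      (Subtype.ext_iff (a1 := z) (a2 := hb.sn.v U)).symm)
  constructor
  · intro h
    exact congrArg Subtype.val (extN (y := (hs_upair ha hb).sn.v U) fun z =>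
      (h.2 z).trans (key z).symm)
  · intro h
    rw [show u = (hs_upair ha hb).sn.v U from Subtype.ext h]
    exact ⟨id, key⟩

theorem isPairN {a b : Name P} (ha : HS F a) (hb : HS F b) (U : Gen P) :
    (str F U).IsPair ((hs_pair ha hb).sn.v U) (ha.sn.v U) (hb.sn.v U) := by
  refine ⟨id, fun u => (mem_upairName _ _ U u.1).trans (or_congr ?_ (isUpN ha hb U u).symm)⟩
  rw [← isUpN ha ha U u]
  simp only [or_self]

namespace GM
variable {W : Set (Name P)} {G : Set P} (h : GM F W G)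

theorem isPair_val {a b : W} (hp : pairName a.1 b.1 ∈ W) :
    h.str.IsPair (h.val ⟨_, hp⟩) (h.val a) (h.val b) :=
  (h.truth_ud (fun _ S v => S.IsPair (v 0) (v 1) (v 2)) (cons ⟨_, hp⟩ (cons a fun _ => b))).2
    ⟨_, h.ne.some_mem, Forces.of_forall (isPairN (h.hs _ a.2) (h.hs _ b.2)) _⟩

theorem mem_of_el {a b : W} {p : P} (hp : p ∈ G) (j : b.1.idx) (h1 : p ≤ b.1.cond j)
    (h2 : FEq a.1 (b.1.el j) p) : h.str.mem (h.val a) (h.val b) :=
  h.mem_iff.2 ⟨p, hp, fun q hq => ⟨q, le_rfl, j, hq.trans h1, h2.mono hq⟩⟩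

include h in
theorem lower {ι : Type} [Finite ι] (Q : ι → P → Prop) (hm : ∀ i p q, q ≤ p → Q i p → Q i q)
    (hQ : ∀ i, ∃ p ∈ G, Q i p) : ∃ r ∈ G, ∀ i, Q i r := by
  have key : ∀ s : Finset ι, ∃ r ∈ G, ∀ i ∈ s, Q i r := by
    classical
    intro s
    induction s using Finset.induction_on with
    | empty => exact ⟨_, h.ne.some_mem, by simp⟩
    | insert a s _ ih =>
      obtain ⟨r, hr, h1⟩ := ih
      obtain ⟨p, hp, h2⟩ := hQ a
      obtain ⟨t, ht, k1, k2⟩ := h.dir r hr p hp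
      refine ⟨t, ht, fun i hi => ?_⟩
      rcases Finset.mem_insert.1 hi with rfl | hi
      exacts [hm _ _ _ k2 h2, hm _ _ _ k1 (h1 i hi)]
  have := Fintype.ofFinite ι
  obtain ⟨r, hr, h1⟩ := key Finset.univ
  exact ⟨r, hr, fun i => h1 i (Finset.mem_univ i)⟩

theorem finite_of_bd {q : P} (hq : q ∈ G) {R : Name P → P → Prop} (hb : Bd F q R) {T : Set h.M}
    (hT : ∀ a : W, h.val a ∈ T → ∃ p ∈ G, ∀ s ≤ p, R a.1 s) : T.Finite := by
  by_contra hinf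
  obtain ⟨N, hN⟩ := hb
  let e := Set.Infinite.natEmbedding T hinf
  choose n hn using fun k : Fin N => h.val_surj (e k).1
  obtain ⟨r, hr, h1⟩ := h.lower (fun (k : Fin N) p => ∀ s ≤ p, R (n k).1 s)
    (fun _ _ _ h h' s hs => h' s (hs.trans h)) fun k => hT _ (hn k ▸ (e k).2)
  obtain ⟨r', hr', h2⟩ := h.lower (fun (k : Fin N × Fin N) p => k.1 ≠ k.2 →
      FNe (n k.1).1 (n k.2).1 p)
    (fun _ _ _ h h' hk => (h' hk).mono h) fun k => by
      by_cases hk : k.1 = k.2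
      · exact ⟨q, hq, fun h => absurd hk h⟩
      · obtain ⟨p, hp, h3⟩ := h.of_ne (a := n k.1) (b := n k.2) (by
          rw [hn, hn]
          exact fun h => hk (Fin.ext (e.injective (Subtype.ext h))))
        exact ⟨p, hp, fun _ => h3⟩
  obtain ⟨s, hs, k1, k2⟩ := h.dir r hr r' hr'
  obtain ⟨t, -, k3, k4⟩ := h.dir s hs q hq
  obtain ⟨a, b, hab, h3⟩ := hN t k4 (fun k => (n k).1) fun k =>
    ⟨h.hs _ (n k).2, h1 k t (k3.trans k1)⟩
  exact h3 ((h2 (a, b) hab).mono (k3.trans k2))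

end GM

theorem infinite_of_unb [Countable P] {q : P} {R : Name P → P → Prop} (hu : Unb F q R) :
    ∃ S : Set (Name P), S.Countable ∧ (∀ a ∈ S, HS F a) ∧ ∃ D : ℕ → Set P,
      (∀ n p, ∃ r ≤ p, r ∈ D n) ∧ ∀ W G (h : GM F W G), S ⊆ W → q ∈ G →
        (∀ n, ∃ r ∈ G, r ∈ D n) → ∀ T : Set h.M,
          (∀ a : W, (∃ p ∈ G, R a.1 p) → h.val a ∈ T) → T.Infinite := by
  choose s hs f hf hf' using hu
  refine ⟨Set.range fun x : Σ N : ℕ, {r // r ≤ q} × Fin N => f x.1 x.2.1.1 x.2.1.2 x.2.2,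
    Set.countable_range _, by rintro _ ⟨x, rfl⟩; exact (hf _ _ _ _).1,
    fun N => {t | (∃ r hr, t = s N r hr) ∨ ∀ u ≤ t, ¬ u ≤ q}, fun N p => ?_,
    fun W G h hS hq hD T hT hfin => ?_⟩
  · by_cases hp : ∀ u ≤ p, ¬ u ≤ q
    · exact ⟨p, le_rfl, Or.inr hp⟩
    · push Not at hp
      obtain ⟨u, h1, h2⟩ := hp
      exact ⟨s N u h2, (hs N u h2).trans h1, Or.inl ⟨u, h2, rfl⟩⟩
  · have := hfin.fintype
    obtain ⟨t, ht, ⟨r, hr, rfl⟩ | h1⟩ := hD (Fintype.card T + 1)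
    · have hW : ∀ a, f (Fintype.card T + 1) r hr a ∈ W := fun a => hS ⟨⟨_, ⟨r, hr⟩, a⟩, rfl⟩
      have := Fintype.card_le_of_injective (fun a : Fin (Fintype.card T + 1) =>
        (⟨h.val ⟨_, hW a⟩, hT _ ⟨_, ht, (hf _ r hr a).2⟩⟩ : T)) fun a b hab => by
          by_contra hne
          obtain ⟨p, hp, e⟩ := h.val_eq_iff.1 (congrArg Subtype.val hab)
          obtain ⟨u, -, k1, k2⟩ := h.dir p hp _ ht
          exact hf' _ r hr a b hne u k2 (e.mono k1)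
      simp at this
    · obtain ⟨u, -, k1, k2⟩ := h.dir t ht q hq
      exact h1 u k1 k2

theorem sfi_of_cert [Countable P] {q : P} {Z : Name P} (hZ : HS F Z) (hc : Cert F q Z) :
    ∃ W G, ∃ h : GM F W G, ∃ hW : Z ∈ W, q ∈ G ∧ h.str.SFI (h.val ⟨Z, hW⟩) := by
  obtain ⟨H, hH, Y, hY, h1, h2, h3, h4⟩ := hc
  choose S hS hS' D hD hI using fun i => infinite_of_unb (h2 i)
  let A : ℕ → Name P := fun i => fam fun g : H => g.1 • Y i
  have hAf : ∀ g ∈ H, ∀ i, Fix g (A i) := fun g hg i => fix_fam (H := H)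
    (fun g hg g' => ⟨⟨g * g'.1, H.mul_mem hg g'.2⟩, fun p => by
      rw [mul_smul]; exact FEq.refl _ _⟩) hg
  have hA : ∀ i, HS F (A i) := fun i =>
    ⟨⟨H, hH, fun g hg => hAf g hg i⟩, fun g => (hY i).smul (F.le H hH g.2)⟩
  let O : Name P := fam fun i : ℕ => pairName (natName i) (A i)
  have hO : HS F O := hs_fam (fun i => hs_pair (hs_natName i) (hA i)) hH
    fun g hg i => ⟨i, fix_pair (fix_natName i g) (hAf g hg i)⟩
  obtain ⟨W, G, h, hq, hW, hG⟩ := exists_model (F := F) q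
    (S := {Z, O} ∪ ⋃ i, ({Y i, A i, pairName (natName i) (A i)} ∪ S i))
    ((Set.toFinite _).countable.union (Set.countable_iUnion fun i =>
      (Set.toFinite _).countable.union (hS i))) (by
      rintro a ((rfl | rfl) | ha)
      · exact hZ
      · exact hO
      · obtain ⟨i, (rfl | rfl | rfl) | hi⟩ := Set.mem_iUnion.1 ha
        exacts [hY i, hA i, hs_pair (hs_natName i) (hA i), hS' i a hi])
    (fun n => D n.unpair.1 n.unpair.2) fun n => hD _ _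
  have w1 : Z ∈ W := hW (Or.inl (Or.inl rfl))
  have w2 : O ∈ W := hW (Or.inl (Or.inr rfl))
  have w3 : ∀ i, Y i ∈ W := fun i => hW (Or.inr (Set.mem_iUnion.2 ⟨i, Or.inl (Or.inl rfl)⟩))
  have w4 : ∀ i, A i ∈ W := fun i =>
    hW (Or.inr (Set.mem_iUnion.2 ⟨i, Or.inl (Or.inr (Or.inl rfl))⟩))
  have w5 : ∀ i, pairName (natName i) (A i) ∈ W := fun i =>
    hW (Or.inr (Set.mem_iUnion.2 ⟨i, Or.inl (Or.inr (Or.inr rfl))⟩))
  have w6 : ∀ i, S i ⊆ W := fun i a ha => hW (Or.inr (Set.mem_iUnion.2 ⟨i, Or.inr ha⟩))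
  have hp : ∀ i, h.str.IsPair (h.val ⟨_, w5 i⟩) (h.num i) (h.val ⟨_, w4 i⟩) := fun i =>
    h.isPair_val (a := ⟨_, h.nat i⟩) (b := ⟨_, w4 i⟩) (w5 i)
  refine ⟨W, G, h, w1, hq, h.std.sfi_of_family _ (h.val ⟨O, w2⟩) (fun i => h.val ⟨A i, w4 i⟩)
    (fun i => h.val ⟨Y i, w3 i⟩) (fun x => ⟨fun hx => ?_, ?_⟩) (fun i => ?_) (fun i x hx => ?_)
    (fun i => ?_) (fun i j hij => ?_) fun i U U' hU hU' => ?_⟩
  · obtain ⟨a, rfl⟩ := h.val_surj x
    obtain ⟨p, hp', i, -, e⟩ := h.mem_el hx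
    refine ⟨i, ?_⟩
    rw [show h.val a = h.val ⟨_, w5 i⟩ from h.val_eq_iff.2 ⟨p, hp', e⟩]
    exact hp i
  · rintro ⟨i, hi⟩
    rw [h.std.uniq hi (hp i)]
    exact h.mem_of_el (b := ⟨O, w2⟩) hq i le_top (FEq.refl _ _)
  · refine h.mem_of_el (b := ⟨A i, w4 i⟩) hq (⟨1, H.one_mem⟩ : H) le_top ?_
    exact (fix_one (Γ := Γ) (Y i) q).symm
  · obtain ⟨a, rfl⟩ := h.val_surj x
    obtain ⟨p, hp', e⟩ := h.mem_iff.1 hx
    obtain ⟨r, hr, k1, k2⟩ := h.dir p hp' q hq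
    exact h.mem_iff.2 ⟨r, hr, h1 i _ r k2 (Dn.mono e k1)⟩
  · refine hI i W G h (w6 i) hq (fun n => ?_) _ fun a ha => h.mem_iff.2 ha
    simpa using hG (Nat.pair i n)
  · refine h.finite_of_bd hq (h3 i j hij) fun a ha => ?_
    obtain ⟨p, hp', e⟩ := h.mem_iff.1 ha.1
    obtain ⟨p', hp'', e'⟩ := h.mem_iff.1 ha.2
    obtain ⟨r, hr, k1, k2⟩ := h.dir p hp' p' hp''
    exact ⟨r, hr, fun s hs => ⟨Dn.mono e (hs.trans k1), Dn.mono e' (hs.trans k2)⟩⟩
  · obtain ⟨u, rfl⟩ := h.val_surj U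
    obtain ⟨u', rfl⟩ := h.val_surj U'
    obtain ⟨p, hp1, g, -, e⟩ := h.mem_el hU
    obtain ⟨p', hp2, g', -, e'⟩ := h.mem_el hU'
    refine h.finite_of_bd hq (h4 i g.1 g.2 g'.1 g'.2) fun a ha => ?_
    obtain ⟨s, hs, f⟩ := h.mem_iff.1 ha.1
    obtain ⟨s', hs', f'⟩ := h.of_not_mem ha.2
    obtain ⟨r, hr, k1, k2⟩ := h.dir p hp1 p' hp2
    obtain ⟨r', hr', k3, k4⟩ := h.dir s hs s' hs'
    obtain ⟨t, ht, k5, k6⟩ := h.dir r hr r' hr'
    refine ⟨t, ht, fun x hx => ⟨FMem.congr_right (Dn.mono f (hx.trans (k6.trans k3)))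
      (e.mono (hx.trans (k5.trans k1))), fun y hy hm => f' y (hy.trans (hx.trans (k6.trans k4)))
      (FMem.congr_right hm (e'.mono (hy.trans (hx.trans (k5.trans k2)))).symm)⟩⟩

/-- If unbounded names have certificates densely, every infinite set of a generic model is
strongly filterbase infinite. -/
theorem isfbi_of_core [Countable P]
    (core : ∀ Z : Name P, HS F Z → ∀ p, (Unb F p fun x => FMem x Z) → ∃ q ≤ p, Cert F q Z)
    {W : Set (Name P)} {G : Set P} (h : GM F W G) (X : h.M) (hX : ¬ h.str.IsFin X) :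
    h.str.SFI X := by
  obtain ⟨a, rfl⟩ := h.val_surj X
  by_contra hn
  obtain ⟨p, -, hp⟩ := (h.truth_ud (fun _ S v => ¬ S.IsFin (v 0) ∧ ¬ S.SFI (v 0)) fun _ => a).1
    ⟨hX, hn⟩
  have ha := h.hs _ a.2
  rcases unb_or_bd (F := F) p fun x => FMem x a.1 with hu | ⟨q, hq, hb⟩
  · obtain ⟨q, hq, hc⟩ := core _ ha p hu
    obtain ⟨W', G', h', hW, hG, hs⟩ := sfi_of_cert ha hc
    exact ((h'.truth_ud (fun _ S v => ¬ S.IsFin (v 0) ∧ ¬ S.SFI (v 0)) fun _ => ⟨_, hW⟩).2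
      ⟨q, hG, hp.mono hq⟩).2 hs
  · obtain ⟨W', G', h', hG, hW, -⟩ := exists_model (F := F) q (S := {a.1})
      (Set.countable_singleton _) (by rintro _ rfl; exact ha) (fun _ => Set.univ)
      fun _ p => ⟨p, le_rfl, trivial⟩
    refine ((h'.truth_ud (fun _ S v => ¬ S.IsFin (v 0) ∧ ¬ S.SFI (v 0))
      fun _ => ⟨_, hW rfl⟩).2 ⟨q, hG, hp.mono hq⟩).1 ((h'.std.isFin_iff _).2 ?_)
    refine h'.finite_of_bd hG hb fun b hb => ?_
    obtain ⟨r, hr, e⟩ := h'.mem_iff.1 hb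
    exact ⟨r, hr, fun s hs => Dn.mono e hs⟩

end Pool.Agent.SymExt
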