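import Pool.Agent.Lib.PermModel.Model
import Pool.Agent.Lib.SymExt.UD

/-! Transfer of the axioms along elementary maps. -/

set_option synthInstance.maxSize 4000

namespace Pool.Agent.SymExt

open Pool.Agent.Lib.PermModel Pool.Agent.Lib.SymExt

deriving instance Countable for Fm

/-- The axioms pass to a structure with an elementary map into a model. -/
theorem isZFA_of_elem {M N : Type 1} {S : Str M} {T : Str N} (f : M → N) (k : M)
    (hf : ∀ (φ : Fm) (v : ℕ → M), S.Sat φ v ↔ T.Sat φ fun i => f (v i)) (h : T.IsZFA) :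
    S.IsZFA := by
  have tr : ∀ (P : ∀ M : Type 1, Str M → (ℕ → M) → Prop) [UD P] (v : ℕ → M),
      P N T (fun i => f (v i)) → P M S v := fun P _ v hP => by
    obtain ⟨φ, hφ⟩ := UD.fm P
    exact (hφ _ _ _).1 ((hf φ v).2 ((hφ _ _ _).2 hP))
  let v0 : ℕ → M := fun _ => k
  refine ⟨?_, ?_, ?_, ?_, ?_, ?_, ?_, ?_, fun φ v a => ?_, fun φ v a => ?_⟩
  · exact tr (fun _ S _ => ∀ a z, S.atm a → ¬ S.mem z a) v0 h.atom_empty
  · exact tr (fun _ S _ => ∀ x y, ¬ S.atm x → ¬ S.atm y → (∀ z, S.mem z x ↔ S.mem z y) → x = y)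
      v0 h.ext
  · exact tr (fun _ S _ => ∃ d, S.IsSetOf d fun z => S.atm z) v0 h.atoms
  · exact tr (fun _ S _ => ∀ x y, ∃ d, S.IsSetOf d (fun z => z = x ∨ z = y)) v0 h.pairing
  · exact tr (fun _ S _ => ∀ x, ∃ d, S.IsSetOf d (fun z => ∃ y, S.mem y x ∧ S.mem z y)) v0 h.union
  · exact tr (fun _ S _ => ∀ x, ∃ d, S.IsSetOf d
      (fun z => ¬ S.atm z ∧ ∀ w, S.mem w z → S.mem w x)) v0 h.power
  · exact tr (fun _ S _ => ∃ I, S.Ind I) v0 h.infinity
  · exact tr (fun _ S _ => ∀ x y, S.mem y x → ∃ y, S.mem y x ∧ ∀ z, S.mem z y → ¬ S.mem z x) v0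
      h.foundation
  · have u : UD fun M S w =>
        S.Sat φ (Function.update (fun n => w (n + 1 + 1 + 1)) 0 (w 0)) :=
      ((ud_sat φ).ren fun n => if n = 0 then 0 else n + 3).congr fun M S v => by
        apply Iff.of_eq
        congr 1
        funext n
        by_cases e : n = 0 <;> simp [e]
    exact tr (fun _ S w => ∃ d, ¬ S.atm d ∧ ∀ z, S.mem z d ↔ S.mem z (w 0) ∧
      S.Sat φ (Function.update (fun n => w (n + 1)) 0 z)) (cons a v) (h.separation φ _ _)
  · have u : ∀ i j k : ℕ, UD fun M S w => S.Sat φ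
        (Function.update (Function.update (fun n => w (n + k)) 0 (w i)) 1 (w j)) := fun i j k =>
      ((ud_sat φ).ren fun n => if n = 1 then j else if n = 0 then i else n + k).congr
        fun M S v => by
          apply Iff.of_eq
          congr 1
          funext n
          by_cases e : n = 1
          · simp [e]
          · by_cases e' : n = 0 <;> simp [e, e']
    have u1 : UD fun M S w => S.Sat φ (Function.update (Function.update
      (fun n => w (n + 1 + 1 + 1)) 0 (w (0 + 1))) 1 (w 0)) := u 1 0 3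
    have u2 : UD fun M S w => S.Sat φ (Function.update (Function.update
      (fun n => w (n + 1 + 1 + 1 + 1)) 0 (w 0)) 1 (w (0 + 1))) := u 0 1 4
    exact tr (fun _ S w => (∀ x, S.mem x (w 0) → ∃! y, S.Sat φ
        (Function.update (Function.update (fun n => w (n + 1)) 0 x) 1 y)) →
      ∃ d, ¬ S.atm d ∧ ∀ y, S.mem y d ↔ ∃ x, S.mem x (w 0) ∧ S.Sat φ
        (Function.update (Function.update (fun n => w (n + 1)) 0 x) 1 y)) (cons a v)
      (h.replacement φ _ _)

end Pool.Agent.SymExt
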