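import Pool.Agent.P.MP_fb2f7f_lc.ZF.S2
import Pool.Agent.P.MP_fb2f7f_lc.ZF.S3
import Pool.Agent.Lib.SymExt.Std

/-! Symmetric extensions, part 4: the forcing relation for formulas and generic models. -/

set_option linter.unusedSectionVars false

namespace Pool.Agent.SymExt

open Pool.Agent.Lib.PosetForcing Pool.Agent.Lib.PermModel Pool.Agent.Lib.SymExt

variable {P Γ : Type} [Group Γ] [MulAction Γ P] [Preorder P] [Mono Γ P] {F : NFil Γ}

variable (F) in
/-- The forcing relation of the symmetric extension. -/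
def Frc (p : P) (φ : Fm) (v : ℕ → Name P) : Prop :=
  ∀ hv : ∀ n, HS F (v n), Forces p fun U => (str F U).Sat φ fun n => (hv n).sn.v U

namespace Frc
variable {p q : P} {φ ψ : Fm} {v w : ℕ → Name P}

theorem mono (h : Frc F p φ v) (hq : q ≤ p) : Frc F q φ v := fun hv => (h hv).mono hq

theorem of_dn (h : ∀ q ≤ p, ∃ r ≤ q, Frc F r φ v) : Frc F p φ v := fun hv =>
  @Forces.of_dn _ _ _ (clopen_satN φ fun n => (hv n).sn) _ fun q hq =>
    (h q hq).imp fun _ h => ⟨h.1, h.2 hv⟩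

theorem smul {g : Γ} (hg : g ∈ F.G) (h : Frc F p φ v) : Frc F (g • p) φ fun n => g • v n := by
  intro hv'
  have hv : ∀ n, HS F (v n) := fun n => by simpa using (hv' n).smul (F.G.inv_mem hg)
  refine forces_smul g (h hv) fun U hU => ?_
  obtain ⟨e, he⟩ := exists_isoN hg U
  rw [← iso_sat e he.mem he.atm] at hU
  convert hU using 2 with n
  exact Subtype.ext (he.val (hv n).sn).symm

theorem congr_vars (hv : ∀ n, HS F (v n)) (e : ∀ n ∈ φ.vars, FEq (v n) (w n) p)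
    (h : Frc F p φ v) : Frc F p φ w := by
  intro hw U hU
  exact (NF.sat_congr _ φ fun n hn => v_eq_iff.2 (forces_eq_iff.2 (e n hn) U hU)).1 (h hv U hU)

theorem congr (hv : ∀ n, HS F (v n)) (e : ∀ n, FEq (v n) (w n) p) (h : Frc F p φ v) :
    Frc F p φ w := h.congr_vars hv fun n _ => e n

theorem not_neg (hv : ∀ n, HS F (v n)) (h : Frc F p φ v) (h' : Frc F p (.neg φ) v) : False :=
  Forces.not_false (((h hv).and (h' hv)).imp fun _ h => h.2 h.1)

theorem dec (φ : Fm) (v : ℕ → Name P) (p : P) : ∃ q ≤ p, Frc F q φ v ∨ Frc F q (.neg φ) v := by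
  by_cases h : Frc F p φ v
  · exact ⟨p, le_rfl, Or.inl h⟩
  · simp only [Frc, not_forall] at h
    obtain ⟨hv, h⟩ := h
    obtain ⟨q, hq, h⟩ := @exists_forces_not _ _ _ (clopen_satN φ fun n => (hv n).sn) _ h
    exact ⟨q, hq, Or.inr fun _ => h⟩

theorem neg_iff (hv : ∀ n, HS F (v n)) : Frc F p (.neg φ) v ↔ ∀ q ≤ p, ¬ Frc F q φ v := by
  refine ⟨fun h q hq h' => h'.not_neg hv (h.mono hq), fun h => of_dn fun q hq => ?_⟩
  obtain ⟨r, hr, h1 | h1⟩ := dec (F := F) φ v q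
  · exact absurd h1 (h r (hr.trans hq))
  · exact ⟨r, hr, h1⟩

theorem mem_iff (hv : ∀ n, HS F (v n)) (i j : ℕ) : Frc F p (.mem i j) v ↔ FMem (v i) (v j) p :=
  ⟨fun h => forces_mem_iff'.1 (h hv), fun h _ => forces_mem_iff'.2 h⟩

theorem eq_iff (hv : ∀ n, HS F (v n)) (i j : ℕ) : Frc F p (.eq i j) v ↔ FEq (v i) (v j) p :=
  ⟨fun h => forces_eq_iff.1 ((h hv).imp fun _ => v_eq_iff.1),
    fun h hv => (forces_eq_iff.2 h).imp fun _ e => (v_eq_iff (a := (hv i).sn) (b := (hv j).sn)).2 e⟩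

theorem hs_update (hv : ∀ n, HS F (v n)) (i : ℕ) {t : Name P} (ht : HS F t) (n : ℕ) :
    HS F (Function.update v i t n) := by
  by_cases h : n = i
  · subst h; rwa [Function.update_self]
  · rw [Function.update_of_ne h]; exact hv n

theorem sn_update (hv : ∀ n, HS F (v n)) (i : ℕ) {t : Name P} (ht : HS F t) (U : Gen P) :
    (fun n => (hs_update hv i ht n).sn.v U) =
      Function.update (fun n => (hv n).sn.v U) i (ht.sn.v U) := by
  funext n
  by_cases h : n = i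
  · subst h
    rw [Function.update_self (f := fun n => (hv n).sn.v U)]
    exact v_eq_iff.2 (congrArg (fun a : Name P => a.val U) (Function.update_self ..))
  · rw [Function.update_of_ne h _ (fun n => (hv n).sn.v U)]
    exact v_eq_iff.2 (congrArg (fun a : Name P => a.val U) (Function.update_of_ne h ..))

theorem inst {i : ℕ} (hv : ∀ n, HS F (v n)) (h : Frc F p (.all i φ) v) {t : Name P}
    (ht : HS F t) : Frc F p φ (Function.update v i t) := by
  intro _ U hU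
  rw [sn_update hv i ht]
  exact h hv U hU _

theorem wit (φ : Fm) (i : ℕ) (hv : ∀ n, HS F (v n)) (p : P) : ∃ q ≤ p, Frc F q (.all i φ) v ∨
    ∃ t, HS F t ∧ Frc F q (.neg φ) (Function.update v i t) := by
  obtain ⟨q, hq, h | h⟩ := dec (F := F) (.all i φ) v p
  · exact ⟨q, hq, Or.inl h⟩
  · have hc : ∀ c : SN F P, Clopen fun U =>
        (str F U).Sat φ (Function.update (fun n => (hv n).sn.v U) i (c.v U)) := fun c => by
      simpa only [v_update] using clopen_satN _ _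
    obtain ⟨r, hr, t, ht, h1⟩ := exists_hs (Φ := fun U x =>
      ¬ (str F U).Sat φ (Function.update (fun n => (hv n).sn.v U) i x))
      ((h hv).imp fun U h => not_forall.1 h)
    refine ⟨r, hr.trans hq, Or.inr ⟨t, ht, fun _ U hU => ?_⟩⟩
    beta_reduce
    rw [sn_update hv i ht]
    exact h1 U hU

end Frc

theorem exists_gen_dir {G : Set P} (hne : G.Nonempty)
    (hd : ∀ p ∈ G, ∀ q ∈ G, ∃ r ∈ G, r ≤ p ∧ r ≤ q) : ∃ U : Gen P, ∀ p ∈ G, Set.Iic p ∈ U.1 := by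
  let L : Filter P :=
    { sets := {S | ∃ p ∈ G, ∃ D : Set P, IsLowerSet D ∧ (∀ q, ∃ r ≤ q, r ∈ D) ∧ D ∩ Set.Iic p ⊆ S}
      univ_sets := ⟨_, hne.some_mem, Set.univ, isLowerSet_univ, fun q => ⟨q, le_rfl, trivial⟩,
        Set.subset_univ _⟩
      sets_of_superset := fun ⟨p, hp, D, h1, h2, h3⟩ h => ⟨p, hp, D, h1, h2, h3.trans h⟩
      inter_sets := by
        rintro x y ⟨p, hp, D, h1, h2, h3⟩ ⟨p', hp', E, g1, g2, g3⟩
        obtain ⟨r, hr, k1, k2⟩ := hd p hp p' hp'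
        refine ⟨r, hr, D ∩ E, h1.inter g1, fun q => ?_,
          fun z hz => ⟨h3 ⟨hz.1.1, le_trans hz.2 k1⟩, g3 ⟨hz.1.2, le_trans hz.2 k2⟩⟩⟩
        obtain ⟨r, hr, hrD⟩ := h2 q
        obtain ⟨s, hs, hsE⟩ := g2 r
        exact ⟨s, hs.trans hr, h1 hs hrD, hsE⟩ }
  have : L.NeBot := by
    refine Filter.forall_mem_nonempty_iff_neBot.1 ?_
    rintro S ⟨p, -, D, -, h2, h3⟩
    obtain ⟨r, hr, hrD⟩ := h2 p
    exact ⟨r, h3 ⟨hrD, hr⟩⟩
  exact ⟨⟨Ultrafilter.of L, fun D h1 h2 => Ultrafilter.of_le L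
    ⟨_, hne.some_mem, D, h1, h2, Set.inter_subset_left⟩⟩, fun p hp => Ultrafilter.of_le L
    ⟨p, hp, Set.univ, isLowerSet_univ, fun q => ⟨q, le_rfl, trivial⟩, Set.inter_subset_right⟩⟩

variable [OrderTop P]

variable (F) in
/-- A set of symmetric names with a filter that is generic for it. -/
structure GM (W : Set (Name P)) (G : Set P) : Prop where
  hs : ∀ a ∈ W, HS F a
  ne : G.Nonempty
  up : ∀ p ∈ G, ∀ q, p ≤ q → q ∈ G
  dir : ∀ p ∈ G, ∀ q ∈ G, ∃ r ∈ G, r ≤ p ∧ r ≤ q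
  nat : ∀ n, natName n ∈ W
  om : omegaName ∈ W
  dec : ∀ φ v, (∀ n, v n ∈ W) → ∃ p ∈ G, Frc F p φ v ∨ Frc F p (.neg φ) v
  wit : ∀ φ i v, (∀ n, v n ∈ W) → ∃ p ∈ G, Frc F p (.all i φ) v ∨
    ∃ t ∈ W, Frc F p (.neg φ) (Function.update v i t)
  el : ∀ a ∈ W, ∀ b ∈ W, ∃ p ∈ G,
    (∃ j, p ≤ b.cond j ∧ FEq a (b.el j) p) ∨ ∀ q ≤ p, ¬ FMem a b q

namespace GM
variable {W : Set (Name P)} {G : Set P} (h : GM F W G)

/-- Names identified by the filter. -/
def setoid : Setoid W where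
  r a b := ∃ p ∈ G, FEq a.1 b.1 p
  iseqv :=
    { refl := fun _ => ⟨_, h.ne.some_mem, FEq.refl _ _⟩
      symm := fun ⟨p, hp, e⟩ => ⟨p, hp, e.symm⟩
      trans := fun ⟨p, hp, e⟩ ⟨q, hq, e'⟩ => by
        obtain ⟨r, hr, h1, h2⟩ := h.dir p hp q hq
        exact ⟨r, hr, (e.mono h1).trans (e'.mono h2)⟩ }

/-- The generic model. -/
def M : Type 1 := Quotient h.setoid

/-- The value of a name. -/
def val (a : W) : h.M := Quotient.mk h.setoid a

theorem val_surj : Function.Surjective h.val := Quotient.mk_surjective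

theorem val_eq_iff {a b : W} : h.val a = h.val b ↔ ∃ p ∈ G, FEq a.1 b.1 p :=
  Quotient.eq (r := h.setoid)

/-- The generic model as a structure without atoms. -/
def str : Str h.M :=
  ⟨fun x y => ∃ a b : W, h.val a = x ∧ h.val b = y ∧ ∃ p ∈ G, FMem a.1 b.1 p, fun _ => False⟩

theorem not_atm (x : h.M) : ¬ h.str.atm x := id

theorem mem_iff {a b : W} : h.str.mem (h.val a) (h.val b) ↔ ∃ p ∈ G, FMem a.1 b.1 p := by
  refine ⟨?_, fun e => ⟨a, b, rfl, rfl, e⟩⟩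
  rintro ⟨a', b', h1, h2, p, hp, e⟩
  obtain ⟨q, hq, e1⟩ := h.val_eq_iff.1 h1
  obtain ⟨r, hr, e2⟩ := h.val_eq_iff.1 h2
  obtain ⟨s, hs, k1, k2⟩ := h.dir p hp q hq
  obtain ⟨t, ht, k3, k4⟩ := h.dir s hs r hr
  exact ⟨t, ht, (FMem.congr_left (Dn.mono e (k3.trans k1)) (e1.mono (k3.trans k2))).congr_right
    (e2.mono k4)⟩

theorem mem_el {a b : W} (e : h.str.mem (h.val a) (h.val b)) :
    ∃ p ∈ G, ∃ j, p ≤ b.1.cond j ∧ FEq a.1 (b.1.el j) p := by
  obtain ⟨q, hq, e⟩ := h.mem_iff.1 e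
  obtain ⟨p, hp, h1 | h1⟩ := h.el a a.2 b b.2
  · exact ⟨p, hp, h1⟩
  · obtain ⟨r, -, k1, k2⟩ := h.dir p hp q hq
    exact absurd (Dn.mono e k2) (h1 r k1)

theorem of_not_mem {a b : W} (e : ¬ h.str.mem (h.val a) (h.val b)) :
    ∃ p ∈ G, ∀ q ≤ p, ¬ FMem a.1 b.1 q := by
  obtain ⟨p, hp, ⟨j, h1, h2⟩ | h1⟩ := h.el a a.2 b b.2
  · exact absurd (h.mem_iff.2 ⟨p, hp, fun q hq => ⟨q, le_rfl, j, hq.trans h1, h2.mono hq⟩⟩) e
  · exact ⟨p, hp, h1⟩

theorem of_ne {a b : W} (e : h.val a ≠ h.val b) : ∃ p ∈ G, ∀ q ≤ p, ¬ FEq a.1 b.1 q := by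
  let v : ℕ → Name P := fun n => if n = 0 then a.1 else b.1
  have hv : ∀ n, v n ∈ W := fun n => by
    by_cases h0 : n = 0 <;> simp [v, h0]
  have hs := fun n => h.hs _ (hv n)
  obtain ⟨p, hp, h1 | h1⟩ := h.dec (.eq 0 1) v hv
  · exact absurd (h.val_eq_iff.2 ⟨p, hp, (Frc.eq_iff hs 0 1).1 h1⟩) e
  · exact ⟨p, hp, fun q hq h2 => (Frc.neg_iff hs).1 h1 q hq ((Frc.eq_iff hs 0 1).2 h2)⟩

/-- The truth lemma. -/
theorem truth (φ : Fm) (v : ℕ → W) :
    h.str.Sat φ (fun n => h.val (v n)) ↔ ∃ p ∈ G, Frc F p φ fun n => (v n).1 := by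
  induction φ generalizing v with
  | mem i j =>
    simp only [Frc.mem_iff fun n => h.hs _ (v n).2]
    exact h.mem_iff
  | eq i j =>
    simp only [Frc.eq_iff fun n => h.hs _ (v n).2]
    exact h.val_eq_iff
  | atm i =>
    exact ⟨False.elim, fun ⟨p, _, e⟩ => Forces.not_false (e fun n => h.hs _ (v n).2)⟩
  | neg φ ih =>
    refine (not_congr (ih v)).trans ⟨fun e => ?_, ?_⟩
    · obtain ⟨p, hp, h1 | h1⟩ := h.dec φ _ fun n => (v n).2
      · exact absurd ⟨p, hp, h1⟩ e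
      · exact ⟨p, hp, h1⟩
    · rintro ⟨p, hp, h1⟩ ⟨q, hq, h2⟩
      obtain ⟨r, -, k1, k2⟩ := h.dir p hp q hq
      exact (h2.mono k2).not_neg (fun n => h.hs _ (v n).2) (h1.mono k1)
  | conj φ ψ ih ih' =>
    refine (and_congr (ih v) (ih' v)).trans ⟨?_, fun ⟨p, hp, e⟩ =>
      ⟨⟨p, hp, fun hv => (e hv).imp fun _ h => h.1⟩, p, hp, fun hv => (e hv).imp fun _ h => h.2⟩⟩
    rintro ⟨⟨p, hp, h1⟩, q, hq, h2⟩
    obtain ⟨r, hr, k1, k2⟩ := h.dir p hp q hq
    exact ⟨r, hr, fun hv => ((h1 hv).mono k1).and ((h2 hv).mono k2)⟩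
  | all i φ ih =>
    have hs := fun n => h.hs _ (v n).2
    have e1 : ∀ t : W, Function.update (fun n => h.val (v n)) i (h.val t) =
        fun n => h.val (Function.update v i t n) := fun t => by
      funext n
      by_cases e : n = i <;> simp [e]
    have e2 : ∀ t : W, (fun n => (Function.update v i t n).1) =
        Function.update (fun n => (v n).1) i t.1 := fun t => by
      funext n
      by_cases e : n = i <;> simp [e]
    simp only [Str.Sat]
    rw [h.val_surj.forall]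
    simp only [e1, ih, e2]
    refine ⟨fun e => ?_, fun ⟨p, hp, e⟩ t => ⟨p, hp, e.inst hs (h.hs _ t.2)⟩⟩
    obtain ⟨p, hp, h1 | ⟨t, ht, h1⟩⟩ := h.wit φ i _ fun n => (v n).2
    · exact ⟨p, hp, h1⟩
    · obtain ⟨q, hq, h2⟩ := e ⟨t, ht⟩
      obtain ⟨r, -, k1, k2⟩ := h.dir p hp q hq
      exact ((h2.mono k2).not_neg (Frc.hs_update hs i (h.hs _ ht)) (h1.mono k1)).elim

/-- The truth lemma for definable predicates. -/
theorem truth_ud (Q : ∀ M : Type 1, Str M → (ℕ → M) → Prop) [UD Q] (v : ℕ → W) :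
    Q _ h.str (fun n => h.val (v n)) ↔ ∃ p ∈ G, Forces p fun U =>
      Q _ (SymExt.str F U) fun n => (h.hs _ (v n).2).sn.v U := by
  obtain ⟨φ, hφ⟩ := UD.fm Q
  simp only [← hφ, h.truth]
  exact exists_congr fun p => and_congr_right fun _ => ⟨fun e => e _, fun e _ => e⟩

theorem isZFA : h.str.IsZFA := by
  obtain ⟨U, hU⟩ := exists_gen_dir h.ne h.dir
  choose n hn using h.val_surj
  refine isZFA_of_elem (T := SymExt.str F U) (fun x => (h.hs _ (n x).2).sn.v U)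
    (h.val ⟨_, h.om⟩) (fun φ v => ?_) (SymExt.isZFA U)
  have e : v = fun i => h.val (n (v i)) := funext fun i => (hn _).symm
  constructor
  · intro h1
    rw [e, h.truth] at h1
    obtain ⟨p, hp, h1⟩ := h1
    exact h1 _ U (hU p hp)
  · intro h1
    by_contra h2
    have h3 : h.str.Sat (.neg φ) v := h2
    rw [e, h.truth] at h3
    obtain ⟨p, hp, h3⟩ := h3
    exact h3 _ U (hU p hp) h1

/-- The numerals of the generic model. -/
def num (n : ℕ) : h.M := h.val ⟨natName n, h.nat n⟩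

theorem mem_num (n : ℕ) (z : h.M) : h.str.mem z (h.num n) ↔ ∃ m < n, z = h.num m := by
  obtain ⟨a, rfl⟩ := h.val_surj z
  constructor
  · intro e
    obtain ⟨p, hp, j, -, e⟩ := h.mem_el e
    have : ∀ j : (natName n : Name P).idx, ∃ m < n, (natName n : Name P).el j = natName m := by
      rw [natName.eq_1]
      exact fun j => ⟨j.down, j.down.2, rfl⟩
    obtain ⟨m, hm, e'⟩ := this j
    refine ⟨m, hm, h.val_eq_iff.2 ⟨p, hp, ?_⟩⟩
    change FEq a.1 (natName m) p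
    rw [← e']
    exact e
  · rintro ⟨m, hm, e⟩
    rw [e]
    exact h.mem_iff.2 ⟨_, h.ne.some_mem,
      forces_mem_iff'.1 (Forces.of_forall (natName_mem hm) _)⟩

theorem isNat_iff (x : h.M) : h.str.IsNat x ↔ ∃ n, x = h.num n := by
  obtain ⟨a, rfl⟩ := h.val_surj x
  have e := h.truth_ud (fun _ S v => S.IsNat (v 0)) fun _ => a
  simp only [SymExt.isNat_iff] at e
  refine e.trans ⟨?_, ?_⟩
  · rintro ⟨p, hp, e⟩
    obtain ⟨q, hq, j, -, e⟩ := h.mem_el (b := ⟨_, h.om⟩)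
      (h.mem_iff.2 ⟨p, hp, forces_mem_iff'.1 e⟩)
    exact ⟨j.down, h.val_eq_iff.2 ⟨q, hq, e⟩⟩
  · rintro ⟨n, e⟩
    obtain ⟨p, hp, e⟩ := h.val_eq_iff.1 e
    refine ⟨p, hp, (forces_eq_iff.2 e).imp fun U e => ?_⟩
    change Mod.mem (a.1.val U) _
    rw [e]
    exact natName_mem_omega n U

theorem std : Std h.str h.num := ⟨h.isZFA, h.not_atm, h.mem_num, h.isNat_iff⟩

end GM

theorem countable_lists {X : Type 1} {S : Set X} (h : S.Countable) :
    {l : List X | ∀ x ∈ l, x ∈ S}.Countable := by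
  have := h.to_subtype
  refine (Set.countable_range (List.map (Subtype.val : S → X))).mono fun l hl => ?_
  exact ⟨l.attachWith _ hl, by simp⟩

theorem exists_generic {J : Type 1} [Countable J] [Nonempty J] (p : P) (D : J → Set P)
    (hD : ∀ j q, ∃ r ≤ q, r ∈ D j) : ∃ G : Set P, p ∈ G ∧ (∀ p ∈ G, ∀ q, p ≤ q → q ∈ G) ∧
      (∀ p ∈ G, ∀ q ∈ G, ∃ r ∈ G, r ≤ p ∧ r ≤ q) ∧ ∀ j, ∃ r ∈ G, r ∈ D j := by
  obtain ⟨f, hf⟩ := exists_surjective_nat J
  choose g hg hg' using hD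
  let x : ℕ → P := fun n => Nat.rec p (fun n q => g (f n) q) n
  have hx : Antitone x := antitone_nat_of_succ_le fun n => hg _ _
  refine ⟨{q | ∃ n, x n ≤ q}, ⟨0, le_rfl⟩, fun p ⟨n, hn⟩ q hq => ⟨n, hn.trans hq⟩, ?_, fun j => ?_⟩
  · rintro p ⟨n, hn⟩ q ⟨m, hm⟩
    exact ⟨x (max n m), ⟨max n m, le_rfl⟩, (hx (le_max_left _ _)).trans hn,
      (hx (le_max_right _ _)).trans hm⟩
  · obtain ⟨n, rfl⟩ := hf j
    exact ⟨x (n + 1), ⟨n + 1, le_rfl⟩, hg' _ _⟩

/-- Existence of generic models over a countable poset. -/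
theorem exists_model [Countable P] (p : P) {S : Set (Name P)} (hS : S.Countable)
    (hS' : ∀ a ∈ S, HS F a) (D : ℕ → Set P) (hD : ∀ n q, ∃ r ≤ q, r ∈ D n) :
    ∃ W G, GM F W G ∧ p ∈ G ∧ S ⊆ W ∧ ∀ n, ∃ r ∈ G, r ∈ D n := by
  classical
  let asg : List (Name P) → ℕ → Name P := fun l n => l.getD n emp
  have hw : ∀ a : Fm × ℕ × P × List (Name P), ∃ t, HS F t ∧
      ((∃ t, HS F t ∧ Frc F a.2.2.1 (.neg a.1) (Function.update (asg a.2.2.2) a.2.1 t)) →
        Frc F a.2.2.1 (.neg a.1) (Function.update (asg a.2.2.2) a.2.1 t)) := by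
    intro a
    by_cases h : ∃ t, HS F t ∧ Frc F a.2.2.1 (.neg a.1) (Function.update (asg a.2.2.2) a.2.1 t)
    · obtain ⟨t, h1, h2⟩ := h
      exact ⟨t, h1, fun _ => h2⟩
    · exact ⟨emp, hs_emp, fun h' => absurd h' h⟩
  choose wit hwit hwit' using hw
  let T : ℕ → Set (Name P) := fun n =>
    Nat.rec (insert omegaName (Set.range natName ∪ S))
      (fun _ S => S ∪ wit '' {a | ∀ x ∈ a.2.2.2, x ∈ S}) n
  have hT : ∀ n, (T n).Countable := fun n => by
    induction n with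
    | zero => exact ((Set.countable_range _).union hS).insert _
    | succ n ih =>
      refine ih.union (Set.Countable.image ?_ _)
      exact (Set.countable_univ.prod (Set.countable_univ.prod (Set.countable_univ.prod
        (countable_lists ih)))).mono fun a ha => Set.mem_prod.2 ⟨Set.mem_univ _, Set.mem_prod.2
          ⟨Set.mem_univ _, Set.mem_prod.2 ⟨Set.mem_univ _, ha⟩⟩⟩
  have hTs : ∀ n, ∀ a ∈ T n, HS F a := fun n => by
    induction n with
    | zero =>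
      rintro a (rfl | ⟨n, rfl⟩ | ha)
      exacts [hs_omega, hs_natName n, hS' a ha]
    | succ n ih =>
      rintro a (ha | ⟨b, -, rfl⟩)
      exacts [ih a ha, hwit b]
  have hm : Monotone T := monotone_nat_of_le_succ fun n => Set.subset_union_left
  let W : Set (Name P) := ⋃ n, T n
  have hW : ∀ a ∈ W, HS F a := fun a ha => by
    obtain ⟨n, hn⟩ := Set.mem_iUnion.1 ha
    exact hTs n a hn
  have hWc : W.Countable := Set.countable_iUnion hT
  have := hWc.to_subtype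
  have := (countable_lists hWc).to_subtype
  have hasg : ∀ l : List (Name P), (∀ x ∈ l, x ∈ W) → ∀ n, HS F (asg l n) := by
    intro l hl n
    by_cases h : n < l.length
    · exact hW _ (hl _ (by simp [asg, h]))
    · simpa [asg, not_lt.1 h] using hs_emp
  let L := {l : List (Name P) | ∀ x ∈ l, x ∈ W}
  let D' : (Fm × L) ⊕ (Fm × ℕ × L) ⊕ (W × W) ⊕ ℕ → Set P
    | .inl a => {p | Frc F p a.1 (asg a.2) ∨ Frc F p (.neg a.1) (asg a.2)}
    | .inr (.inl a) => {p | Frc F p (.all a.2.1 a.1) (asg a.2.2) ∨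
        ∃ t, HS F t ∧ Frc F p (.neg a.1) (Function.update (asg a.2.2) a.2.1 t)}
    | .inr (.inr (.inl a)) => {p | (∃ j, p ≤ a.2.1.cond j ∧ FEq a.1.1 (a.2.1.el j) p) ∨
        ∀ q ≤ p, ¬ FMem a.1.1 a.2.1 q}
    | .inr (.inr (.inr n)) => D n
  obtain ⟨G, h1, h2, h3, h4⟩ := exists_generic p D' (by
    rintro (a | a | a | n) q
    · exact Frc.dec _ _ q
    · exact Frc.wit _ _ (hasg _ a.2.2.2) q
    · by_cases h : ∀ r ≤ q, ¬ FMem a.1.1 a.2.1 r
      · exact ⟨q, le_rfl, Or.inr h⟩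
      · push Not at h
        obtain ⟨r, hr, h⟩ := h
        obtain ⟨s, hs, h⟩ := h r le_rfl
        exact ⟨s, hs.trans hr, Or.inl h⟩
    · exact hD n q)
  have key : ∀ (φ : Fm) (v : ℕ → Name P), (∀ n, v n ∈ W) → ∃ l : List (Name P), ∃ N,
      (∀ x ∈ l, x ∈ T N) ∧ ∀ n ∈ φ.vars, asg l n = v n := by
    intro φ v hv
    choose g hg using fun j => Set.mem_iUnion.1 (hv j)
    let n := φ.vars.sup id + 1
    refine ⟨(List.range n).map v, (Finset.range n).sup g, fun x hx => ?_, fun j hj => ?_⟩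
    · obtain ⟨j, hj, rfl⟩ := List.mem_map.1 hx
      exact hm (Finset.le_sup (f := g) (Finset.mem_range.2 (List.mem_range.1 hj))) (hg j)
    · have : j < n := Nat.lt_succ_of_le (Finset.le_sup (f := id) hj)
      simp [asg, this]
  have hsub : ∀ n, T n ⊆ W := Set.subset_iUnion T
  refine ⟨W, G, ⟨hW, ⟨p, h1⟩, h2, h3, fun n => hsub 0 (Or.inr (Or.inl ⟨n, rfl⟩)),
    hsub 0 (Or.inl rfl), fun φ v hv => ?_, fun φ i v hv => ?_,
    fun a ha b hb => h4 (.inr (.inr (.inl (⟨a, ha⟩, ⟨b, hb⟩))))⟩, h1,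
    fun a ha => hsub 0 (Or.inr (Or.inr ha)), fun n => h4 (.inr (.inr (.inr n)))⟩
  · obtain ⟨l, N, k1, k2⟩ := key φ v hv
    have hl : l ∈ L := fun x hx => hsub N (k1 x hx)
    obtain ⟨r, hr, h⟩ := h4 (.inl (φ, ⟨l, hl⟩))
    exact ⟨r, hr, h.imp
      (Frc.congr_vars (hasg l hl) fun n hn => by rw [k2 n hn]; exact FEq.refl _ _)
      (Frc.congr_vars (hasg l hl) fun n hn => by rw [k2 n hn]; exact FEq.refl _ _)⟩
  · obtain ⟨l, N, k1, k2⟩ := key φ v hv
    have hl : l ∈ L := fun x hx => hsub N (k1 x hx)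
    obtain ⟨r, hr, h | h⟩ := h4 (.inr (.inl (φ, i, ⟨l, hl⟩)))
    · exact ⟨r, hr, Or.inl (Frc.congr_vars (hasg l hl)
        (fun n hn => by rw [k2 n hn]; exact FEq.refl _ _) h)⟩
    · refine ⟨r, hr, Or.inr ⟨wit (φ, i, r, l), hsub (N + 1) (Or.inr ⟨(φ, i, r, l), k1, rfl⟩),
        Frc.congr_vars (Frc.hs_update (hasg l hl) i (hwit _)) (fun n hn => ?_)
          (hwit' (φ, i, r, l) h)⟩⟩
      by_cases e : n = i
      · subst e
        simp only [Function.update_self]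
        exact FEq.refl _ _
      · simp only [Function.update_of_ne e, k2 n hn]
        exact FEq.refl _ _

end Pool.Agent.SymExt
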