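import Pool.Agent.P.MP_fb2f7f_lc.ZF.C2
import Pool.Agent.P.MP_fb2f7f_lc.ZF.S4
import Pool.Agent.P.MP_fb2f7f_lc.NotDFI

/-! The set of fibres of generic reals carries no definable binary tree of subsets. -/

namespace Pool.Agent.P.MP_fb2f7f_lc.ZF

open Pool.Agent.Lib.PosetForcing Pool.Agent.SymExt Pool.Agent.Lib.PermModel Pool.Agent.Lib.SymExt
open Filter

/-- The ends that eventually lie in `A`. -/
def Ev (A : Set Nd) : Set K := {k | ∀ᶠ m in atTop, tr k m ∈ A}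

theorem mem_Ev_iff {A : Set Nd} {d : ℕ} (h : ∀ a b, cls d a = cls d b → a ∈ A → b ∈ A) (k : K) :
    k ∈ Ev A ↔ tr k d ∈ A := by
  constructor
  · intro hk
    obtain ⟨m, h1, h2⟩ := (Eventually.and hk (eventually_ge_atTop d)).exists
    exact h _ _ (by rw [cls_tr, cls_tr, min_eq_left h2, min_self]) h1
  · intro hk
    filter_upwards [eventually_ge_atTop d] with m h2
    exact h _ _ (by rw [cls_tr, cls_tr, min_eq_left h2, min_self]) hk

theorem Ev_nonempty {A : Set Nd} {d : ℕ} (hd : ∀ a b, cls d a = cls d b → a ∈ A → b ∈ A)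
    (h2 : A.Infinite) : (Ev A).Nonempty := by
  obtain ⟨s, hs, hl⟩ := (h2.sdiff (finite_len_lt d)).nonempty
  refine ⟨s.seq, (mem_Ev_iff hd _).mpr (hd s _ ?_ hs)⟩
  rw [cls_tr, min_self, cls, min_eq_left (not_lt.1 hl)]

theorem Ev_mono {A A' : Set Nd} (h : (A \ A').Finite) : Ev A ⊆ Ev A' := by
  intro k hk
  filter_upwards [hk, eventually_tr_notMem k h] with m h1 h2
  by_contra h3
  exact h2 ⟨h1, h3⟩

theorem Ev_disj {A A' : Set Nd} (h : (A ∩ A').Finite) {k : K} (hk : k ∈ Ev A) (hk' : k ∈ Ev A') :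
    False := by
  obtain ⟨m, h1, h2, h3⟩ :=
    (Eventually.and hk (Eventually.and hk' (eventually_tr_notMem k h))).exists
  exact h3 ⟨h1, h2⟩

theorem no_family (A : ℕ → K → Set Nd) {n₀ : ℕ} {T : Set K} (hT : T.Finite)
    (w0 : ∀ n k, ∃ d, ∀ a b, cls d a = cls d b → a ∈ A n k → b ∈ A n k)
    (w1 : ∀ n k, (A n k).Infinite)
    (w2 : ∀ n k (β : Iso), hat β ∈ Hn n₀ T → ∀ q ∈ Ev (A n k), β.1 q ∈ Ev (A n k))
    (w3 : ∀ n k k', (∀ i ≤ n, k i = k' i) → (A n k \ A n k').Finite)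
    (w4 : ∀ n k, (A (n + 1) k \ A n k).Finite)
    (w5 : ∀ n k k', (∃ i ≤ n, k i ≠ k' i) → (A (n + 1) k ∩ A n k').Finite) : False := by
  have fam := exists_family (fun n k => Ev (A n k)) (fun n k k' h => Ev_mono (w3 n k k' h))
    (fun n k => Ev_mono (w4 n k)) (fun n k k' h p => Ev_disj (w5 n k k' h))
  have hne : ∀ n k, (Ev (A n k)).Nonempty := fun n k =>
    Ev_nonempty (w0 n k).choose_spec (w1 n k)
  obtain ⟨n, k, hnk⟩ : ∃ n k, ∀ p ∈ T, p ∉ Ev (A n k) := by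
    by_contra hn
    push Not at hn
    obtain ⟨a, b, -, hd⟩ := fam 0 fun _ => false
    choose p hp1 hp2 using fun j => hn (a j) (b j)
    obtain ⟨j, -, j', -, hlt, e⟩ := Set.infinite_univ.exists_lt_map_eq_of_mapsTo
      (fun j _ => hp1 j) hT
    exact hd j j' hlt (p j) (hp2 j) (e ▸ hp2 j')
  obtain ⟨a, b, hsub, hd⟩ := fam n k
  obtain ⟨d₀, hd₀⟩ := w0 n k
  choose p hp using fun j => hne (a j) (b j)
  set d := max d₀ n₀ with hdd
  obtain ⟨j, -, j', -, hlt, e⟩ := Set.infinite_univ.exists_lt_map_eq_of_mapsTo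
    (f := fun j => tr (p j) d) (fun j _ => show tr (p j) d ∈ {s : Nd | s.len < d + 1} by simp)
    (finite_len_lt (d + 1))
  have hag : Ag d (p j) (p j') := (tr_eq_tr.mp e).2
  obtain ⟨γ, g1, g2⟩ := exists_restr (m := d) (xorI fun i => xor (p j i) (p j' i))
    (fun q i hi => by rw [xorI_apply, hag i hi]; simp) (p j)
  have hγ : hat γ ∈ Hn n₀ T := by
    refine hat_mem_Hn (fun q => (ag_of_supp g2 q).mono (le_max_right _ _)) fun q hq => g2 q ?_
    intro hq'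
    apply hnk q hq
    have := (mem_Ev_iff hd₀ _).mp (hsub j (hp j))
    rw [mem_Ev_iff hd₀, tr_eq_tr.mpr ⟨rfl, hq'.mono (le_max_left _ _)⟩]
    exact this
  have e2 : γ.1 (p j) = p j' := by
    rw [g1 _ (Ag.refl _ _)]
    funext i
    rw [xorI_apply]; simp
  have h5 := w2 (a j) (b j) γ hγ _ (hp j)
  rw [e2] at h5
  exact hd j j' hlt _ h5 (hp j')

/-- The generic real with index `b`. -/
def xb (b : B) : Name Cd := .mk {x : Cd × ℕ × ℕ // (b, x.2) ∈ x.1.s}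
  (fun x => natName (Nat.pair x.1.2.1 x.1.2.2)) fun x => x.1.1

/-- The fibre over a node. -/
def atn (a : Nd) : Name Cd := fam fun i : ℕ => xb (a, i)

/-- The set of the fibres over the nodes with a given truncation. -/
def cone (d : ℕ) (c : Nd) : Name Cd := fam fun a : {a : Nd // cls d a = c} => atn a.1

/-- The set of all fibres. -/
def XN : Name Cd := fam atn

theorem smul_xb (g : Equiv.Perm B) (b : B) (p : Cd) : FEq (g • xb b) (xb (g b)) p :=
  ⟨fun x q _ hc => ⟨q, le_rfl, ⟨(g • x.1.1, x.1.2), smul_mem.2 x.2⟩, hc, fix_natName _ g q⟩,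
    fun x q _ hc => ⟨q, le_rfl, ⟨(g⁻¹ • x.1.1, x.1.2), x.2⟩, by simpa using hc,
      fix_natName _ g q⟩⟩

theorem smul_fam_eq {ι κ : Type} {A : ι → Name Cd} {A' : κ → Name Cd} {g : Equiv.Perm B}
    (h1 : ∀ i, ∃ j, ∀ p, FEq (g • A i) (A' j) p) (h2 : ∀ j, ∃ i, ∀ p, FEq (g • A i) (A' j) p)
    (p : Cd) : FEq (g • fam A) (fam A') p :=
  ⟨fun i q _ _ => ⟨q, le_rfl, (h1 i).choose, le_top, (h1 i).choose_spec q⟩,
    fun j q _ _ => ⟨q, le_rfl, (h2 j).choose, fun _ h => h.elim, (h2 j).choose_spec q⟩⟩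

theorem smul_atn {g : Equiv.Perm B} {π : Equiv.Perm Nd} (h : Ind g π) (a : Nd) (p : Cd) :
    FEq (g • atn a) (atn (π a)) p := by
  refine smul_fam_eq (fun i => ⟨(g (a, i)).2, fun p => ?_⟩)
    (fun j => ⟨(g⁻¹ (π a, j)).2, fun p => ?_⟩) p
  · have : ((π a, (g (a, i)).2) : B) = g (a, i) := Prod.ext (h (a, i)).symm rfl
    rw [this]; exact smul_xb g _ p
  · have : ((a, (g⁻¹ (π a, j)).2) : B) = g⁻¹ (π a, j) :=
      Prod.ext (by rw [h.inv (π a, j)]; simp) rfl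
    rw [this]
    simpa using smul_xb g (g⁻¹ (π a, j)) p

theorem hs_xb (b : B) : HS FZ (xb b) :=
  ⟨⟨_, HH_mem 0 Set.finite_empty (Set.finite_singleton b), fun g hg p => by
    have := smul_xb g b p
    rwa [hg.2 b rfl] at this⟩, fun _ => hs_natName _⟩

theorem hs_atn (a : Nd) : HS FZ (atn a) :=
  ⟨⟨_, HH_mem (a.len + 1) Set.finite_empty Set.finite_empty, fun g ⟨⟨π, h1, h2⟩, _⟩ p => by
    have := smul_atn h2 a p
    rwa [Hn_fix h1 (Nat.lt_succ_self _)] at this⟩, fun _ => hs_xb _⟩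

theorem hs_cone (d : ℕ) (c : Nd) : HS FZ (cone d c) :=
  hs_fam (fun _ => hs_atn _) (HH_mem d Set.finite_empty Set.finite_empty)
    fun _ ⟨⟨π, h1, h2⟩, _⟩ a => ⟨⟨π a.1, (h1.2.1 _).trans a.2⟩, smul_atn h2 _⟩

theorem hs_XN : HS FZ XN :=
  hs_fam hs_atn (HH_mem 0 Set.finite_empty Set.finite_empty)
    fun _ ⟨⟨π, _, h2⟩, _⟩ a => ⟨π a, smul_atn h2 _⟩

theorem based_atn (E : Set B) (a : Nd) : Based E (atn a) := fun _ hg => smul_atn hg.1 a

theorem based_cone (E : Set B) (d : ℕ) (c : Nd) : Based E (cone d c) := fun _ hg =>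
  smul_fam_eq (fun a => ⟨a, smul_atn hg.1 _⟩) fun a => ⟨a, smul_atn hg.1 _⟩

theorem cls_hat (β : Iso) {d : ℕ} {a : Nd} {k : K} (h : cls d a = tr k d) :
    cls d (hat β a) = tr (β.1 k) d := by
  rw [cls_eq_tr] at h ⊢
  rw [hat_apply]
  exact ⟨h.1, ((ag_seq_tr _ _).mono h.1).trans ((β.2 _ _ _).mpr h.2)⟩

theorem smul_cone (β : Iso) (d : ℕ) (k : K) (p : Cd) :
    FEq (lift (hat β) • cone d (tr k d)) (cone d (tr (β.1 k) d)) p := by
  refine smul_fam_eq (fun a => ⟨⟨hat β a.1, cls_hat β a.2⟩, smul_atn (ind_lift _) _⟩)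
    (fun a => ⟨⟨hat β⁻¹ a.1, by simpa using cls_hat β⁻¹ a.2⟩, fun p => ?_⟩) p
  simpa [hat_inv] using smul_atn (ind_lift (hat β)) (hat β⁻¹ a.1) p

theorem xb_ne {b b' : B} (h : b ≠ b') (r : Cd) : ¬ FEq (xb b) (xb b') r := by
  intro e
  obtain ⟨i, hi⟩ := (r.fin.image fun x => x.2.1).exists_notMem
  obtain ⟨t, t1, t2, -⟩ := exists_le_two (p := r) (q := ⟨{(b, i, 0), (b', i, 1)}, Set.toFinite _, by
    rintro x j v v' (h1 | h1) (h2 | h2) <;> cases h1 <;> cases h2 <;> first | rfl | exact (h rfl).elim⟩)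
    fun x j v v' h1 h2 => by
      rcases h2 with h2 | h2 <;> cases h2 <;> exact (hi ⟨_, h1, rfl⟩).elim
  obtain ⟨u, hu, ⟨⟨r', i', v'⟩, hx⟩, h1, h2⟩ :=
    e.1 ⟨(t, i, 0), t2 (Or.inl rfl)⟩ t t1 le_rfl
  have h3 := Nat.pair_eq_pair.1 (Forces.natName_inj (forces_eq_iff.2 h2))
  obtain ⟨rfl, rfl⟩ : i = i' ∧ 0 = v' := h3
  exact absurd (u.fn b' i 0 1 (h1 hx) (hu (t2 (Or.inr rfl)))) (by simp)

theorem atn_ne {a a' : Nd} (h : a ≠ a') (p : Cd) : ¬ FEq (atn a) (atn a') p := by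
  intro e
  obtain ⟨r, -, j, -, h1⟩ := e.1 0 p le_rfl le_top
  exact xb_ne (fun e => h (congrArg Prod.fst e)) r h1

theorem frc_move {E : Set B} (hE : E.Finite) {v w : ℕ → Name Cd} (hv : ∀ n, HS FZ (v n))
    (hb : ∀ n, Based E (v n)) {g : Equiv.Perm B} (hg : g ∈ FZ.G) (hg' : ∀ b ∈ E, g b = b)
    (e : ∀ n p, FEq (g • v n) (w n) p) {p : Cd} {φ : Fm} (h : Frc FZ p φ v) :
    Frc FZ (res p E) φ w := by
  have h1 : Frc FZ (res p E) φ v := Frc.of_dn (dn_res hE (fun _ _ ht h => Frc.mono h ht)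
    fun l hl => (h.smul (HH_le_G (hl.mem 0 ∅))).congr
      (fun n => (hv n).smul (HH_le_G (hl.mem 0 ∅))) fun n => hb n l hl _)
  have h2 := h1.smul hg
  rw [(on_res p E).smul hg'] at h2
  exact h2.congr (fun n => (hv n).smul hg) fun n => e n _

theorem exists_sp_fin {S : Set (Name Cd)} (hS : S.Finite) (h : ∀ a ∈ S, HS FZ a) :
    ∃ n T E, T.Finite ∧ E.Finite ∧ Cov n E ∧ ∀ a ∈ S, Sp n T E a := by
  induction S, hS using Set.Finite.induction_on with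
  | empty => exact ⟨0, ∅, ∅, Set.finite_empty, Set.finite_empty, fun _ h => h.elim, by simp⟩
  | @insert a S _ _ ih =>
    obtain ⟨n, T, E, h1, h2, -, h4⟩ := ih fun b hb => h b (Set.mem_insert_of_mem _ hb)
    obtain ⟨n', T', E', g1, g2, g3, g4, g5, g6, g7⟩ := exists_sp (h a (Set.mem_insert _ _)) n h1 h2
    refine ⟨n', T', E', g4, g5, g6, ?_⟩
    rintro b (rfl | hb)
    exacts [g7, (h4 b hb).mono g1 g2 g3]

section model
variable {W : Set (Name Cd)} {G : Set Cd} (h : GM FZ W G) (ha : ∀ a, atn a ∈ W)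

/-- The fibres in the generic model. -/
def atM (a : Nd) : h.M := h.val ⟨atn a, ha a⟩

theorem atM_injective : Function.Injective (atM h ha) := fun a a' e => by
  by_contra hn
  obtain ⟨p, -, e⟩ := h.val_eq_iff.1 e
  exact atn_ne hn p e

theorem mem_fam_iff {ι : Type} (f : ι → Nd) (hf : (fam fun i => atn (f i)) ∈ W) (z : h.M) :
    h.str.mem z (h.val ⟨_, hf⟩) ↔ ∃ i, z = atM h ha (f i) := by
  obtain ⟨a, rfl⟩ := h.val_surj z
  constructor
  · intro e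
    obtain ⟨p, hp, j, -, e⟩ := h.mem_el e
    exact ⟨j, h.val_eq_iff.2 ⟨p, hp, e⟩⟩
  · rintro ⟨i, e⟩
    rw [e]
    exact h.mem_iff.2 ⟨_, h.ne.some_mem, fMem_mk (c := fun _ => ⊤) i le_top⟩

theorem depth (U : h.M) : ∃ d, ∀ a b, cls d a = cls d b →
    a ∈ atM h ha ⁻¹' ex h.str U → b ∈ atM h ha ⁻¹' ex h.str U := by
  obtain ⟨u, rfl⟩ := h.val_surj U
  obtain ⟨n, T, E, -, -, -, -, hE, hc, hs⟩ :=
    exists_sp (h.hs _ u.2) 0 Set.finite_empty Set.finite_empty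
  refine ⟨n, fun a b hab hm => ?_⟩
  obtain ⟨p, hp, e⟩ := h.mem_iff.1 hm
  have hl := lift_mem hc (swap_mem_Hn T hab)
  have h1 := fMem_smul (lift (Equiv.swap a b)) (fMem_res hE (based_atn E a) hs.based e)
  rw [(on_res p E).smul hl.2] at h1
  have h2 := smul_atn (ind_lift (Equiv.swap a b)) a (res p E)
  rw [Equiv.swap_apply_left] at h2
  exact h.mem_iff.2 ⟨_, h.up p hp _ (le_res p E), (h1.congr_left h2).congr_right (hs _ hl _)⟩

theorem inv_cone (hc : ∀ d c, cone d c ∈ W) (φ : Fm) (w : ℕ → W) {n : ℕ} {T : Set K} {E : Set B}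
    (hE : E.Finite) (hcov : Cov n E) (hs : ∀ i, Sp n T E (w i).1) (β : Iso) (hβ : hat β ∈ Hn n T)
    (d : ℕ) (k : K) (e : ∃ U, h.str.Sat φ (cons U fun i => h.val (w i)) ∧
      ∀ z, h.str.mem z (h.val ⟨_, hc d (tr k d)⟩) → h.str.mem z U) :
    ∃ U, h.str.Sat φ (cons U fun i => h.val (w i)) ∧
      ∀ z, h.str.mem z (h.val ⟨_, hc d (tr (β.1 k) d)⟩) → h.str.mem z U := by
  have u : UD fun _ S v => S.Sat φ (cons (v 0) fun i => v (i + 1 + 1)) :=
    ((ud_sat φ).ren fun n => Nat.casesOn n 0 fun j => j + 2).congr fun M S v => by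
      apply Iff.of_eq
      congr 1
      funext n
      cases n <;> rfl
  obtain ⟨ψ, hψ⟩ := UD.fm fun _ S v => ∃ U, S.Sat φ (cons U fun i => v (i + 1)) ∧
    ∀ z, S.mem z (v 0) → S.mem z U
  have hl := lift_mem hcov hβ
  obtain ⟨p, hp, e1⟩ := (h.truth ψ (cons ⟨_, hc d (tr k d)⟩ w)).1 ((hψ _ _ _).2 e)
  refine (hψ _ _ _).1 ((h.truth ψ (cons ⟨_, hc d (tr (β.1 k) d)⟩ w)).2
    ⟨_, h.up p hp _ (le_res p E), frc_move hE (fun i => h.hs _ (Subtype.prop _)) (fun i => ?_)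
      (HH_le_G hl) hl.2 (fun i q => ?_) e1⟩)
  · cases i with
    | zero => exact based_cone E _ _
    | succ i => exact (hs i).based
  · cases i with
    | zero => exact smul_cone β d k q
    | succ i => exact hs i _ hl q

include ha in
theorem no_tree (hc : ∀ d c, cone d c ∈ W) (hX : XN ∈ W) : ¬ Tree h.str (h.val ⟨_, hX⟩) := by
  rintro ⟨v, φ, V, hv, w1, w2, w2', w3, w4, w5⟩
  choose nm hnm using h.val_surj
  obtain ⟨n₀, T, E, hT, hE, hcov, hs⟩ := exists_sp_fin (hv.image fun x => (nm x).1) (by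
    rintro _ ⟨x, -, rfl⟩; exact h.hs _ (nm x).2)
  have hinj := atM_injective h ha
  have ev : (fun i => h.val (nm (v i))) = v := funext fun i => hnm _
  have pre : ∀ {s : Set h.M}, s.Finite → (atM h ha ⁻¹' s).Finite := fun hs =>
    hs.preimage hinj.injOn
  refine no_family (fun n k => atM h ha ⁻¹' ex h.str (V n k)) (n₀ := n₀) hT
    (fun n k => depth h ha _) (fun n k => (w1 n k).2.preimage fun z hz => ?_)
    (fun n k β hβ q hq => ?_) (fun n k k' e => pre (w3 n k k' e))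
    (fun n k => pre (w4 n k)) fun n k k' e => pre (w5 n k k' e)
  · obtain ⟨a, e⟩ := (mem_fam_iff h ha id hX z).1 ((w1 n k).1 hz)
    exact ⟨a, e.symm⟩
  · obtain ⟨d, hd⟩ := depth h ha (V n k)
    obtain ⟨U, h1, h2⟩ := inv_cone h hc (φ n k) (fun i => nm (v i)) hE hcov
      (fun i => hs _ ⟨_, ⟨i, rfl⟩, rfl⟩) β hβ d q ⟨V n k, by rw [ev]; exact w2 n k, fun z hz => by
        obtain ⟨a, rfl⟩ := (mem_fam_iff h ha Subtype.val (hc _ _) z).1 hz
        exact hd _ _ (by rw [a.2, cls_tr, min_self]) ((mem_Ev_iff hd q).1 hq)⟩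
    rw [ev] at h1
    refine Ev_mono (A := atM h ha ⁻¹' ex h.str U) (pre (w2' n k U h1)) ?_
    filter_upwards [eventually_ge_atTop d] with m hm
    exact h2 _ ((mem_fam_iff h ha Subtype.val (hc _ _) _).2
      ⟨⟨tr (β.1 q) m, by rw [cls_tr, min_eq_left hm]⟩, rfl⟩)

end model

theorem exists_X : ∃ (W : Set (Name Cd)) (G : Set Cd) (h : GM FZ W G) (X : h.M),
    (ex h.str X).Infinite ∧ ¬ Tree h.str X := by
  obtain ⟨W, G, h, -, hS, -⟩ := exists_model (F := FZ) (⊤ : Cd)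
    (S := insert XN (Set.range atn ∪ Set.range fun x : ℕ × Nd => cone x.1 x.2))
    (((Set.countable_range _).union (Set.countable_range _)).insert _) (by
      rintro _ (rfl | ⟨a, rfl⟩ | ⟨x, rfl⟩)
      exacts [hs_XN, hs_atn a, hs_cone _ _]) (fun _ => Set.univ) fun _ q => ⟨q, le_rfl, trivial⟩
  have ha : ∀ a, atn a ∈ W := fun a => hS (Or.inr (Or.inl ⟨a, rfl⟩))
  have hX : XN ∈ W := hS (Or.inl rfl)
  refine ⟨W, G, h, _, ?_, no_tree h ha (fun d c => hS (Or.inr (Or.inr ⟨(d, c), rfl⟩))) hX⟩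
  exact Set.infinite_of_injective_forall_mem (f := fun n => atM h ha (tr (fun _ => false) n))
    (fun _ _ e => tr_injective _ (atM_injective h ha e)) fun n =>
      (mem_fam_iff h ha id hX _).2 ⟨_, rfl⟩

end Pool.Agent.P.MP_fb2f7f_lc.ZF
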