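import Pool.Agent.P.MP_fb2f7f_lc.ZF.Core
import Pool.Agent.P.MP_fb2f7f_lc.ZF.S5
import Pool.Agent.P.MP_fb2f7f_lc.ZF.X

/-! A model of ZF in which every infinite set is strongly filterbase infinite, with an infinite
set that is not dyadically filterbase infinite. -/

namespace Pool.Agent.P.MP_fb2f7f_lc.ZF

open Pool.Agent.SymExt Pool.Agent.Lib.PermModel Pool.Agent.Lib.SymExt

theorem exists_std : ∃ (M : Type 1) (S : Str M) (num : ℕ → M), Std S num ∧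
    (∀ X, ¬ S.IsFin X → S.SFI X) ∧ ∃ X, ¬ S.IsFin X ∧ ¬ Tree S X := by
  obtain ⟨W, G, h, X, h1, h2⟩ := exists_X
  exact ⟨h.M, h.str, h.num, h.std, isfbi_of_core (fun _ hZ => core hZ) h, X,
    fun e => h1 ((h.std.isFin_iff X).1 e), h2⟩

theorem main : ∃ (M : Type 1) (S : Str M), S.IsZFA ∧ (∀ x, ¬ S.atm x) ∧
    (∀ X, ¬ S.IsFin X → S.SFI X) ∧ ¬ ∀ X, ¬ S.IsFin X → S.DFI X := by
  obtain ⟨M, S, num, h, h1, X, h2, h3⟩ := exists_std
  exact ⟨M, S, h.zf, h.set, h1, fun e => h3 (h.tree_of_dfi (e X h2))⟩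

end Pool.Agent.P.MP_fb2f7f_lc.ZF
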