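import Pool.Agent.P.MP_fb2f7f_lc.ZF.C1
import Pool.Agent.P.MP_fb2f7f_lc.Tree

/-! The forcing, the group and the normal filter of the symmetric model. -/

namespace Pool.Agent.P.MP_fb2f7f_lc.ZF

open Pool.Agent.Lib.PosetForcing Pool.Agent.SymExt Filter

/-- Indices of the generic reals: countably many over each node. -/
abbrev B : Type := Nd × ℕ

noncomputable instance : DecidableEq B := Classical.decEq B

instance : Countable Nd := by
  rw [← Set.countable_univ_iff]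
  refine (Set.countable_iUnion fun d => (finite_len_lt d).countable).mono fun s _ => ?_
  exact Set.mem_iUnion.2 ⟨s.len + 1, Nat.lt_succ_self _⟩

/-- Conditions: finite partial functions. -/
@[ext] structure Cd : Type where
  s : Set (B × ℕ × ℕ)
  fin : s.Finite
  fn : ∀ b i v v', (b, i, v) ∈ s → (b, i, v') ∈ s → v = v'

instance : Preorder Cd where
  le p q := q.s ⊆ p.s
  le_refl _ := subset_rfl
  le_trans _ _ _ h h' := h'.trans h

instance : OrderTop Cd where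
  top := ⟨∅, Set.finite_empty, fun _ _ _ _ h => h.elim⟩
  le_top _ := Set.empty_subset _

theorem le_def {p q : Cd} : p ≤ q ↔ q.s ⊆ p.s := Iff.rfl

instance : Countable Cd := by
  have : Countable {s : Set (B × ℕ × ℕ) | s.Finite} := Set.Countable.ofPred_finite.to_subtype
  exact Function.Injective.countable (f := fun p : Cd => (⟨p.s, p.fin⟩ :
    {s : Set (B × ℕ × ℕ) | s.Finite}))
    fun p q h => Cd.ext (congrArg Subtype.val h)

instance : MulAction (Equiv.Perm B) Cd where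
  smul g p := ⟨{x | (g⁻¹ x.1, x.2) ∈ p.s}, by
    refine (p.fin.image fun x => (g x.1, x.2)).subset fun x hx => ⟨_, hx, by simp⟩,
    fun b i v v' h h' => p.fn _ i v v' h h'⟩
  one_smul p := Cd.ext (Set.ext fun x => Iff.rfl)
  mul_smul g h p := Cd.ext (Set.ext fun x => Iff.rfl)

theorem mem_smul {g : Equiv.Perm B} {p : Cd} {b : B} {y : ℕ × ℕ} :
    (b, y) ∈ (g • p).s ↔ (g⁻¹ b, y) ∈ p.s := Iff.rfl

theorem smul_mem {g : Equiv.Perm B} {p : Cd} {b : B} {y : ℕ × ℕ} :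
    (g b, y) ∈ (g • p).s ↔ (b, y) ∈ p.s := by rw [mem_smul]; simp

instance : Mono (Equiv.Perm B) Cd := ⟨fun _ _ _ h _ hx => h hx⟩

/-- Restriction of a condition. -/
def res (p : Cd) (E : Set B) : Cd :=
  ⟨{x | x ∈ p.s ∧ x.1 ∈ E}, p.fin.subset fun _ h => h.1, fun b i v v' h h' => p.fn b i v v' h.1 h'.1⟩

/-- The condition lives over `E`. -/
def On (E : Set B) (p : Cd) : Prop := ∀ x ∈ p.s, x.1 ∈ E

theorem le_res (p : Cd) (E : Set B) : p ≤ res p E := fun _ h => h.1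

theorem on_res (p : Cd) (E : Set B) : On E (res p E) := fun _ h => h.2

theorem On.mono {E E' : Set B} {p : Cd} (h : On E p) (hE : E ⊆ E') : On E' p :=
  fun x hx => hE (h x hx)

theorem On.res_le {E : Set B} {p q : Cd} (h : On E p) (hq : q ≤ p) : res q E ≤ p :=
  fun x hx => ⟨hq hx, h x hx⟩

theorem On.smul {E : Set B} {p : Cd} (h : On E p) {g : Equiv.Perm B} (hg : ∀ b ∈ E, g b = b) :
    g • p = p := by
  refine Cd.ext (Set.ext fun ⟨b, y⟩ => ?_)
  rw [mem_smul]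
  constructor
  · intro h1
    have := hg _ (h _ h1)
    simp only [Equiv.Perm.coe_inv, Equiv.apply_symm_apply] at this
    rw [this]; exact h1
  · intro h1
    have := hg _ (h _ h1)
    rw [show g⁻¹ b = b from Equiv.Perm.inv_eq_iff_eq.2 this.symm]; exact h1

theorem exists_le_two {p q : Cd} (h : ∀ b i v v', (b, i, v) ∈ p.s → (b, i, v') ∈ q.s → v = v') :
    ∃ r ≤ p, r ≤ q ∧ r.s = p.s ∪ q.s := by
  refine ⟨⟨p.s ∪ q.s, p.fin.union q.fin, ?_⟩, Set.subset_union_left, Set.subset_union_right, rfl⟩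
  rintro b i v v' (h1 | h1) (h2 | h2)
  · exact p.fn b i v v' h1 h2
  · exact h b i v v' h1 h2
  · exact (h b i v' v h2 h1).symm
  · exact q.fn b i v v' h1 h2

theorem On.exists_le {E : Set B} {s q : Cd} (h : On E s) (hs : s ≤ res q E) :
    ∃ r ≤ q, r ≤ s := by
  obtain ⟨r, h1, h2, -⟩ := exists_le_two (p := q) (q := s) fun b i v v' h1 h2 =>
    s.fn b i v v' (hs ⟨h1, h (b, i, v') h2⟩) h2
  exact ⟨r, h1, h2⟩

theorem exists_fresh (a : Nd) {D : Set B} (hD : D.Finite) : ∃ c : B, c.1 = a ∧ c ∉ D := by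
  obtain ⟨i, hi⟩ := (hD.image Prod.snd).exists_notMem
  exact ⟨(a, i), rfl, fun h => hi ⟨_, h, rfl⟩⟩

/-- The support of a condition. -/
def supp (p : Cd) : Set B := Prod.fst '' p.s

theorem finite_supp (p : Cd) : (supp p).Finite := p.fin.image _

theorem on_supp (p : Cd) : On (supp p) p := fun x hx => ⟨x, hx, rfl⟩

/-- `g` induces `π` on the nodes. -/
def Ind (g : Equiv.Perm B) (π : Equiv.Perm Nd) : Prop := ∀ b, (g b).1 = π b.1

theorem Ind.mul {g l : Equiv.Perm B} {π ρ : Equiv.Perm Nd} (h : Ind g π) (h' : Ind l ρ) :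
    Ind (g * l) (π * ρ) := fun b => by rw [Equiv.Perm.mul_apply, h, h']; rfl

theorem Ind.inv {g : Equiv.Perm B} {π : Equiv.Perm Nd} (h : Ind g π) : Ind g⁻¹ π⁻¹ := fun b => by
  rw [Equiv.Perm.eq_inv_iff_eq, ← h]; simp

/-- The basic subgroups. -/
def HH (n : ℕ) (T : Set K) (E : Set B) : Subgroup (Equiv.Perm B) where
  carrier := {g | (∃ π ∈ Hn n T, Ind g π) ∧ ∀ b ∈ E, g b = b}
  mul_mem' := by
    rintro a b ⟨⟨π, h1, h2⟩, h3⟩ ⟨⟨ρ, h4, h5⟩, h6⟩
    exact ⟨⟨π * ρ, mul_mem h1 h4, h2.mul h5⟩, fun c hc => by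
      rw [Equiv.Perm.mul_apply, h6 c hc, h3 c hc]⟩
  one_mem' := ⟨⟨1, one_mem _, fun _ => rfl⟩, fun _ _ => rfl⟩
  inv_mem' := by
    rintro a ⟨⟨π, h1, h2⟩, h3⟩
    exact ⟨⟨π⁻¹, inv_mem h1, h2.inv⟩, fun c hc => Equiv.Perm.inv_eq_iff_eq.2 (h3 c hc).symm⟩

theorem HH_mono {n m : ℕ} {T T' : Set K} {E E' : Set B} (h : n ≤ m) (hT : T ⊆ T') (hE : E ⊆ E') :
    HH m T' E' ≤ HH n T E := fun _ ⟨⟨π, h1, h2⟩, h3⟩ =>
  ⟨⟨π, Hn_mono h hT h1, h2⟩, fun b hb => h3 b (hE hb)⟩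

theorem mem_Hn_zero {π : Equiv.Perm Nd} (h : π ∈ GG) : π ∈ Hn 0 ∅ :=
  ⟨h, fun _ => tr_eq_tr.mpr ⟨by simp, by simp [Ag]⟩, fun _ h => h.elim⟩

/-- The normal filter. -/
def FZ : NFil (Equiv.Perm B) where
  G := HH 0 ∅ ∅
  B := {H | ∃ n T E, T.Finite ∧ E.Finite ∧ H = HH n T E}
  le := by
    rintro _ ⟨n, T, E, -, -, rfl⟩
    exact HH_mono (Nat.zero_le _) (Set.empty_subset _) (Set.empty_subset _)
  ne := ⟨_, 0, ∅, ∅, Set.finite_empty, Set.finite_empty, rfl⟩
  inter := by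
    rintro _ ⟨n, T, E, hT, hE, rfl⟩ _ ⟨m, T', E', hT', hE', rfl⟩
    exact ⟨_, ⟨max n m, T ∪ T', E ∪ E', hT.union hT', hE.union hE', rfl⟩,
      HH_mono (le_max_left _ _) Set.subset_union_left Set.subset_union_left,
      HH_mono (le_max_right _ _) Set.subset_union_right Set.subset_union_right⟩
  conj := by
    rintro g ⟨⟨π, hπ, hg⟩, -⟩ _ ⟨n, T, E, hT, hE, rfl⟩
    obtain ⟨_, ⟨m, T', hT', rfl⟩, h⟩ := FF.conj π hπ.1 _ (Hn_mem n hT)
    refine ⟨_, ⟨m, T', g '' E, hT', hE.image _, rfl⟩, ?_⟩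
    rintro l ⟨⟨ρ, hρ, hl⟩, h2⟩
    refine ⟨⟨_, h ρ hρ, (hg.inv.mul hl).mul hg⟩, fun b hb => ?_⟩
    simp only [Equiv.Perm.mul_apply]
    rw [h2 _ ⟨b, hb, rfl⟩]; simp

theorem HH_mem (n : ℕ) {T : Set K} {E : Set B} (hT : T.Finite) (hE : E.Finite) :
    HH n T E ∈ FZ.B := ⟨n, T, E, hT, hE, rfl⟩

theorem HH_le_G {n : ℕ} {T : Set K} {E : Set B} {g : Equiv.Perm B} (h : g ∈ HH n T E) :
    g ∈ FZ.G := HH_mono (Nat.zero_le _) (Set.empty_subset _) (Set.empty_subset _) h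

/-- Permutations of the fibres that fix `E`. -/
def KK (E : Set B) (g : Equiv.Perm B) : Prop := Ind g 1 ∧ ∀ b ∈ E, g b = b

theorem KK.mem {E : Set B} {g : Equiv.Perm B} (h : KK E g) (n : ℕ) (T : Set K) : g ∈ HH n T E :=
  ⟨⟨1, one_mem _, h.1⟩, h.2⟩

theorem ind_swap {b c : B} (h : b.1 = c.1) : Ind (Equiv.swap b c) 1 := by
  intro x
  rw [Equiv.swap_apply_def]
  split_ifs with h1 h2
  · rw [h1]; exact h.symm
  · rw [h2]; exact h
  · rfl

theorem kk_swap {E : Set B} {b c : B} (h : b.1 = c.1) (hb : b ∉ E) (hc : c ∉ E) :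
    KK E (Equiv.swap b c) :=
  ⟨ind_swap h, fun x hx => Equiv.swap_apply_of_ne_of_ne (by rintro rfl; exact hb hx)
    (by rintro rfl; exact hc hx)⟩

/-- The canonical lift of a permutation of the nodes. -/
def lift : Equiv.Perm Nd →* Equiv.Perm B where
  toFun π := Equiv.prodCongr π (Equiv.refl ℕ)
  map_one' := rfl
  map_mul' _ _ := rfl

theorem ind_lift (π : Equiv.Perm Nd) : Ind (lift π) π := fun _ => rfl

/-- The level `n` is above all nodes under `E`. -/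
def Cov (n : ℕ) (E : Set B) : Prop := ∀ b ∈ E, b.1.len < n

theorem Cov.mono {n m : ℕ} {E E' : Set B} (h : Cov n E) (hm : n ≤ m) (hE : E' ⊆ E) : Cov m E' :=
  fun b hb => (h b (hE hb)).trans_le hm

theorem exists_cov {E : Set B} (hE : E.Finite) (n : ℕ) : ∃ m, n ≤ m ∧ Cov m E := by
  obtain ⟨m, hm⟩ := (hE.image fun b => b.1.len).bddAbove
  exact ⟨max n (m + 1), le_max_left _ _, fun b hb =>
    lt_of_lt_of_le (Nat.lt_succ_of_le (hm ⟨b, hb, rfl⟩)) (le_max_right _ _)⟩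

theorem lift_mem {n : ℕ} {T : Set K} {E : Set B} (h : Cov n E) {π : Equiv.Perm Nd}
    (hπ : π ∈ Hn n T) : lift π ∈ HH n T E :=
  ⟨⟨π, hπ, ind_lift π⟩, fun b hb => Prod.ext (Hn_fix hπ (h b hb)) rfl⟩

theorem exists_move {E : Set B} (hE : E.Finite) (s : Cd) {r : Cd} (hr : r ≤ res s E) :
    ∃ g, KK E g ∧ ∃ t ≤ r, t ≤ g • s := by
  classical
  obtain ⟨N, hN⟩ : ∃ N, ∀ b ∈ E ∪ supp s ∪ supp r, b.2 < N := by
    obtain ⟨m, hm⟩ := (((hE.union (finite_supp s)).union (finite_supp r)).image Prod.snd).bddAbove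
    exact ⟨m + 1, fun b hb => Nat.lt_succ_of_le (hm ⟨b, hb, rfl⟩)⟩
  let f : B → B := fun b => if b.2 < N then (if b ∈ E then b else (b.1, b.2 + N)) else
    if b.2 < 2 * N ∧ (b.1, b.2 - N) ∉ E then (b.1, b.2 - N) else b
  have hf : Function.Involutive f := by
    rintro ⟨a, i⟩
    by_cases h1 : i < N
    · by_cases h2 : (a, i) ∈ E
      · simp [f, h1, h2]
      · have h3 : i + N < 2 * N := by omega
        simp [f, h1, h2, h3]
    · by_cases h2 : i < 2 * N ∧ (a, i - N) ∉ E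
      · have h3 : i - N < N := by omega
        have h4 : i - N + N = i := by omega
        simp [f, h1, h2, h3, h4]
      · simp only [f, h1, h2, if_false]
  have hE' : ∀ b ∈ E, f b = b := fun b hb => by simp [f, hb, hN b (Or.inl (Or.inl hb))]
  refine ⟨hf.toPerm f, ⟨fun b => ?_, hE'⟩, ?_⟩
  · change (f b).1 = b.1
    simp only [f]
    split_ifs <;> rfl
  · obtain ⟨t, h1, h2, -⟩ := exists_le_two (p := r) (q := hf.toPerm f • s) fun b i v v' h1 h2 => by
      have h3 : (f b, i, v') ∈ s.s := h2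
      have h4 := hN b (Or.inr ⟨_, h1, rfl⟩)
      have h5 := hN (f b) (Or.inl (Or.inr ⟨_, h3, rfl⟩))
      by_cases h6 : b ∈ E
      · rw [hE' b h6] at h3
        exact r.fn b i v v' h1 (hr ⟨h3, h6⟩)
      · simp [f, h4, h6] at h5
    exact ⟨t, h1, h2⟩

theorem dn_res {E : Set B} (hE : E.Finite) {R : Cd → Prop} (hm : ∀ s t, t ≤ s → R s → R t)
    {s : Cd} (h : ∀ g, KK E g → R (g • s)) : Dn R (res s E) := by
  intro r hr
  obtain ⟨g, hg, t, h1, h2⟩ := exists_move hE s hr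
  exact ⟨t, h1, hm _ _ h2 (h g hg)⟩

/-- Names that only depend on the reals over `E`. -/
def Based (E : Set B) (a : Name Cd) : Prop := ∀ g, KK E g → Fix g a

/-- Names with the support `(n, T, E)`. -/
def Sp (n : ℕ) (T : Set K) (E : Set B) (a : Name Cd) : Prop := ∀ g ∈ HH n T E, Fix g a

theorem Sp.based {n : ℕ} {T : Set K} {E : Set B} {a : Name Cd} (h : Sp n T E a) : Based E a :=
  fun g hg => h g (hg.mem n T)

theorem Sp.mono {n m : ℕ} {T T' : Set K} {E E' : Set B} {a : Name Cd} (h : Sp n T E a)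
    (hn : n ≤ m) (hT : T ⊆ T') (hE : E ⊆ E') : Sp m T' E' a :=
  fun g hg => h g (HH_mono hn hT hE hg)

theorem Based.mono {E E' : Set B} {a : Name Cd} (h : Based E a) (hE : E ⊆ E') : Based E' a :=
  fun g hg => h g ⟨hg.1, fun b hb => hg.2 b (hE hb)⟩

theorem Based.smul {E E' : Set B} {a : Name Cd} (h : Based E a) {g : Equiv.Perm B}
    {π : Equiv.Perm Nd} (hg : Ind g π) (hE : ∀ b ∈ E, g b ∈ E') : Based E' (g • a) := by
  intro l hl
  refine (h _ ⟨by simpa using (hg.inv.mul hl.1).mul hg, fun b hb => ?_⟩).conj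
  simp only [Equiv.Perm.mul_apply]
  rw [hl.2 _ (hE b hb)]; simp

theorem Based.smul_HH {n : ℕ} {T : Set K} {E : Set B} {a : Name Cd} (h : Based E a)
    {g : Equiv.Perm B} (hg : g ∈ HH n T E) : Based E (g • a) := by
  obtain ⟨⟨π, -, h1⟩, h2⟩ := hg
  exact h.smul h1 fun b hb => by rw [h2 b hb]; exact hb

theorem fEq_res {E : Set B} (hE : E.Finite) {a b : Name Cd} (ha : Based E a) (hb : Based E b)
    {s : Cd} (h : FEq a b s) : FEq a b (res s E) :=
  FEq.of_dn (dn_res hE (fun _ _ ht h => h.mono ht) fun g hg =>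
    ((ha g hg _).symm.trans (fEq_smul g h)).trans (hb g hg _))

theorem fMem_res {E : Set B} (hE : E.Finite) {a b : Name Cd} (ha : Based E a) (hb : Based E b)
    {s : Cd} (h : FMem a b s) : FMem a b (res s E) :=
  fMem_of_dn (dn_res hE (fun _ _ ht h => fMem_mono h ht) fun g hg =>
    ((fMem_smul g h).congr_left (ha g hg _)).congr_right (hb g hg _))

theorem fNe_res {E : Set B} (hE : E.Finite) {a b : Name Cd} (ha : Based E a) (hb : Based E b)
    {s : Cd} (h : FNe a b s) : FNe a b (res s E) := by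
  intro t ht e
  obtain ⟨g, hg, u, h1, h2⟩ := exists_move hE s ht
  exact fNe_smul g h u h2 (((ha g hg _).trans (e.mono h1)).trans (hb g hg _).symm)

theorem On.fEq_smul {E : Set B} {t : Cd} (ht : On E t) {g : Equiv.Perm B} (hg : ∀ b ∈ E, g b = b)
    {a b : Name Cd} (h : FEq a b t) : FEq (g • a) (g • b) t := by
  have := SymExt.fEq_smul g h
  rwa [ht.smul hg] at this

/-- An element of a basic subgroup acts on a based name like the lift of its trace. -/
theorem Based.eq_lift {n : ℕ} {T : Set K} {E : Set B} {a : Name Cd} (h : Based E a) (hc : Cov n E)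
    {g : Equiv.Perm B} {π : Equiv.Perm Nd} (hπ : π ∈ Hn n T) (h1 : Ind g π)
    (h2 : ∀ b ∈ E, g b = b) (p : Cd) : FEq (g • a) (lift π • a) p := by
  refine (h _ ⟨by simpa using (ind_lift π).inv.mul h1, fun b hb => ?_⟩).smul_eq p
  rw [Equiv.Perm.mul_apply, h2 b hb]
  exact (inv_mem (lift_mem hc hπ)).2 b hb

theorem exists_sp {a : Name Cd} (h : HS FZ a) (n : ℕ) {T : Set K} {E : Set B} (hT : T.Finite)
    (hE : E.Finite) : ∃ n' T' E', n ≤ n' ∧ T ⊆ T' ∧ E ⊆ E' ∧ T'.Finite ∧ E'.Finite ∧ Cov n' E' ∧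
      Sp n' T' E' a := by
  obtain ⟨_, ⟨m, T', E', hT', hE', rfl⟩, h1⟩ := h.sym
  obtain ⟨k, h2, h3⟩ := exists_cov (hE.union hE') (max n m)
  exact ⟨k, T ∪ T', E ∪ E', (le_max_left _ _).trans h2, Set.subset_union_left,
    Set.subset_union_left, hT.union hT', hE.union hE', h3,
    Sp.mono h1 ((le_max_right _ _).trans h2) Set.subset_union_right Set.subset_union_right⟩

/-- The standing assumptions: `Z` has the support `(n₀, T₀, E₀)` and no certificate below `p`. -/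
structure Ctx (Z : Name Cd) (p : Cd) (n₀ : ℕ) (T₀ : Set K) (E₀ : Set B) : Prop where
  finT : T₀.Finite
  finE : E₀.Finite
  cov : Cov n₀ E₀
  sp : Sp n₀ T₀ E₀ Z
  on : On E₀ p
  nc : ∀ q ≤ p, ¬ Cert FZ q Z

end Pool.Agent.P.MP_fb2f7f_lc.ZF
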