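import Pool.Agent.P.MP_fb2f7f_lc.ZF.C2

/-! Swaps fix the elements, and orbits are finite. -/

namespace Pool.Agent.P.MP_fb2f7f_lc.ZF

open Pool.Agent.Lib.PosetForcing Pool.Agent.SymExt Filter

variable {Z : Name Cd} {p : Cd} {n₀ : ℕ} {T₀ : Set K} {E₀ : Set B}

/-- The permutations of the nodes that are forced by `t` to fix `z`. -/
def St (hc : Cov n₀ E₀) (z : Name Cd) {t : Cd} (ht : On E₀ t) : Subgroup (Equiv.Perm Nd) where
  carrier := {σ | σ ∈ Hn n₀ ∅ ∧ FEq (lift σ • z) z t}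
  mul_mem' := by
    rintro a b ⟨h1, h2⟩ ⟨h3, h4⟩
    refine ⟨mul_mem h1 h3, ?_⟩
    rw [map_mul, mul_smul]
    exact (ht.fEq_smul (lift_mem hc h1).2 h4).trans h2
  one_mem' := ⟨one_mem _, by rw [map_one, one_smul]; exact FEq.refl _ _⟩
  inv_mem' := by
    rintro a ⟨h1, h2⟩
    refine ⟨inv_mem h1, ?_⟩
    have := ht.fEq_smul (lift_mem hc (inv_mem h1)).2 h2
    rw [← mul_smul, ← map_mul, inv_mul_cancel, map_one, one_smul] at this
    exact this.symm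

theorem mem_St {hc : Cov n₀ E₀} {z : Name Cd} {t : Cd} {ht : On E₀ t} {π ρ : Equiv.Perm Nd}
    (hπ : π ∈ Hn n₀ ∅) (hρ : ρ ∈ Hn n₀ ∅) :
    ρ⁻¹ * π ∈ St hc z ht ↔ FEq (lift π • z) (lift ρ • z) t := by
  constructor
  · intro h
    have := ht.fEq_smul (lift_mem hc hρ).2 h.2
    rwa [← mul_smul, ← map_mul, mul_inv_cancel_left] at this
  · intro h
    refine ⟨mul_mem (inv_mem hρ) hπ, ?_⟩
    have := ht.fEq_smul (lift_mem hc (inv_mem hρ)).2 h
    rwa [← mul_smul, ← mul_smul, ← map_mul, ← map_mul, inv_mul_cancel, map_one, one_smul] at this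

theorem Sp.mem_St {hc : Cov n₀ E₀} {z : Name Cd} {t : Cd} {ht : On E₀ t} {n : ℕ} (hn : n₀ ≤ n)
    (hs : Sp n T₀ E₀ z) {π : Equiv.Perm Nd} (hπ : π ∈ Hn n T₀) : π ∈ St hc z ht :=
  ⟨Hn_mono hn (Set.empty_subset _) hπ, hs _ (lift_mem (hc.mono hn subset_rfl) hπ) t⟩

theorem mem_of_swaps {n : ℕ} {S : Subgroup (Equiv.Perm Nd)}
    (h : ∀ a b, cls n a = cls n b → Equiv.swap a b ∈ S) (π : Equiv.Perm Nd)
    (hfin : {s | π s ≠ s}.Finite) (hc : ∀ s, cls n (π s) = cls n s) : π ∈ S := by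
  generalize hN : {s | π s ≠ s}.ncard = N
  induction N using Nat.strong_induction_on generalizing π with
  | _ N ih =>
  by_cases h1 : ∀ s, π s = s
  · have : π = 1 := Equiv.ext h1
    rw [this]; exact one_mem _
  · push Not at h1
    obtain ⟨a, ha⟩ := h1
    have hss : {s | (Equiv.swap a (π a) * π) s ≠ s} ⊂ {s | π s ≠ s} := by
      refine ⟨fun s hs e => hs ?_, fun hsub => hsub ha (by simp)⟩
      rw [Equiv.Perm.mul_apply, e]
      refine Equiv.swap_apply_of_ne_of_ne ?_ ?_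
      · rintro rfl; exact ha e
      · intro e'
        rw [e'] at e
        exact ha (π.injective e)
    have h2 := ih _ (hN ▸ Set.ncard_lt_ncard hss hfin) (Equiv.swap a (π a) * π)
      (hfin.subset hss.1) (fun s => by
        rw [Equiv.Perm.mul_apply, (swap_mem_Hn ∅ (hc a).symm).2.1, hc]) rfl
    exact (S.mul_mem_cancel_left (h a (π a) (hc a).symm)).1 h2

/-- The cone that leaves the end `k` at height `j`. -/
def Cn (k : K) (j : ℕ) : Set Nd := {c | j + 1 ≤ c.len ∧ Ag j c.seq k ∧ ¬ Ag (j + 1) c.seq k}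

theorem Cn_cls {k : K} {j : ℕ} {c c' : Nd} (h : c ∈ Cn k j) (e : cls (j + 1) c' = cls (j + 1) c) :
    c' ∈ Cn k j := by
  have h1 : cls (j + 1) c = tr c.seq (j + 1) := cls_eq_tr.2 ⟨h.1, Ag.refl _ _⟩
  obtain ⟨h2, h3⟩ := cls_eq_tr.1 (e.trans h1)
  exact ⟨h2, (h3.mono (Nat.le_succ _)).trans h.2.1, fun h4 => h.2.2 (h3.symm.trans h4)⟩

theorem Cn_cone {k : K} {m j : ℕ} (hm : m ≤ j) {c : Nd} (h : c ∈ Cn k j) : cls m c = tr k m :=
  cls_eq_tr.2 ⟨by have := h.1; omega, h.2.1.mono hm⟩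

theorem Cn_disj {k : K} {i j : ℕ} {c : Nd} (h : c ∈ Cn k i) (h' : c ∈ Cn k j) : i = j := by
  by_contra hij
  rcases lt_or_gt_of_ne hij with h1 | h1
  · exact h.2.2 (h'.2.1.mono h1)
  · exact h'.2.2 (h.2.1.mono h1)

theorem Cn_infinite (k : K) (j : ℕ) : (Cn k j).Infinite := by
  refine Set.infinite_of_injective_forall_mem
    (f := fun t => tr (Function.update k j (!k j)) (j + 1 + t))
    (fun t t' h => by have := tr_injective _ h; omega) fun t => ?_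
  have h1 := ag_seq_tr (Function.update k j (!k j)) (j + 1 + t)
  refine ⟨by simp, fun i hi => ?_, fun h => ?_⟩
  · rw [h1 i (by omega)]; exact Function.update_of_ne hi.ne _ _
  · have h2 := h j (Nat.lt_succ_self _)
    rw [h1 j (by omega)] at h2
    simp at h2

theorem Cn_finite {k : K} {j m : ℕ} {T : Set K} (hk : k ∈ T) {π : Equiv.Perm Nd}
    (hπ : π ∈ Hn m T) : {c | c ∈ Cn k j ∧ π c ∉ Cn k j}.Finite := by
  obtain ⟨β, hβ⟩ := hπ.1
  refine hβ.subset fun c ⟨hc, h⟩ e => h ?_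
  have hk' : β.1 k = k := hβ.fix hπ hk
  rw [e, hat_apply]
  have h1 := ag_seq_tr (β.1 c.seq) c.len
  refine ⟨hc.1, (h1.mono ((Nat.le_succ _).trans hc.1)).trans ?_, fun h2 => hc.2.2 ?_⟩
  · rw [← hk']; exact (β.2 _ _ _).mpr hc.2.1
  · refine (β.2 _ _ _).mp ?_
    rw [hk']; exact (h1.mono hc.1).symm.trans h2

theorem stepB (h : Ctx Z p n₀ T₀ E₀) {q : Cd} (hq : q ≤ p) {z : Name Cd} (hz : HS FZ z)
    (hm : FMem z Z q) {n : ℕ} (hn : n₀ ≤ n) (hs : Sp n T₀ E₀ z) {a b : Nd}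
    (hab : cls n₀ a = cls n₀ b) : FEq (lift (Equiv.swap a b) • z) z (res q E₀) := by
  by_contra hmove
  have hq1 : res q E₀ ≤ p := h.on.res_le hq
  have hm1 : FMem z Z (res q E₀) := fMem_res h.finE hs.based h.sp.based hm
  have hne : a ≠ b := by
    rintro rfl
    apply hmove
    rw [Equiv.swap_self]
    exact (one_mem (St h.cov z (on_res q E₀))).2
  have hla : n₀ ≤ a.len := by
    by_contra h1
    exact hne (eq_of_cls_eq hab.symm (not_le.mp h1)).symm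
  obtain ⟨k, hk⟩ : ∃ k, k = a.seq := ⟨_, rfl⟩
  have hca : cls n₀ a = tr k n₀ := cls_eq_tr.mpr ⟨hla, hk ▸ Ag.refl _ _⟩
  obtain ⟨m, hm1', hma, hmb⟩ : ∃ m, n ≤ m ∧ a.len < m ∧ b.len < m :=
    ⟨n + a.len + b.len + 1, by omega, by omega, by omega⟩
  have hm0 : n₀ ≤ m := hn.trans hm1'
  have hc0 : cls m (tr k m) = tr k m := by rw [cls_tr, min_self]
  have hc00 : ∀ c, cls m c = tr k m → cls n₀ c = tr k n₀ := fun c hc => by
    rw [cls_congr hm0 (hc.trans hc0.symm), cls_tr, min_eq_left hm0]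
  have hcone : ∀ {t} (ht : On E₀ t) c c', cls m c = tr k m → cls m c' = tr k m →
      Equiv.swap c c' ∈ St h.cov z ht := fun ht c c' h1 h2 =>
    hs.mem_St hn (swap_mem_Hn _ (cls_congr hm1' (h1.trans h2.symm)))
  obtain ⟨u, hu1, hu2, hu3⟩ : ∃ u : Nd, u.len < m ∧ cls n₀ u = tr k n₀ ∧
      Equiv.swap u (tr k m) ∉ St h.cov z (on_res q E₀) := by
    by_contra hn'
    push Not at hn'
    apply hmove
    have h1 : b ≠ tr k m := by rintro rfl; simp at hmb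
    refine And.right (?_ : Equiv.swap a b ∈ St h.cov z (on_res q E₀))
    rw [← Equiv.swap_mul_swap_mul_swap h1 hne.symm, Equiv.swap_comm (tr k m)]
    exact mul_mem (mul_mem (hn' a hma hca) (hn' b hmb (hab ▸ hca))) (hn' a hma hca)
  have hune : ∀ c, cls m c = tr k m → u ≠ c := by
    rintro c hc rfl
    have := (cls_eq_tr.mp hc).1
    omega
  have hsw : ∀ (T : Set K) c, cls m c = tr k m → Equiv.swap u c ∈ Hn n₀ T := fun T c hc =>
    swap_mem_Hn _ (hu2.trans (hc00 c hc).symm)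
  let y : Nd → Name Cd := fun c => lift (Equiv.swap u c) • z
  have hyb : ∀ c, cls m c = tr k m → Based E₀ (y c) := fun c hc =>
    hs.based.smul_HH (lift_mem h.cov (hsw T₀ c hc))
  have hyh : ∀ c, cls m c = tr k m → HS FZ (y c) := fun c hc =>
    hz.smul (HH_le_G (lift_mem h.cov (hsw T₀ c hc)))
  obtain ⟨s₀, hs₀, hne₀⟩ := exists_fNe (a := y (tr k m)) (b := z) (s := res q E₀)
    fun e => hu3 ⟨hsw _ _ hc0, e⟩
  have hne₁ := fNe_res h.finE (hyb _ hc0) hs.based hne₀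
  have hs₁ : res s₀ E₀ ≤ res q E₀ := (on_res q E₀).res_le hs₀
  obtain ⟨s, hs'⟩ : ∃ s, s = res s₀ E₀ := ⟨_, rfl⟩
  rw [← hs'] at hne₁ hs₁
  have hson : On E₀ s := hs' ▸ on_res _ _
  have hyinj : ∀ c c', cls m c = tr k m → cls m c' = tr k m → c ≠ c' → ∀ t ≤ s,
      ¬ FEq (y c) (y c') t := by
    intro c c' hc hc' hcc t ht e
    have e1 := fEq_res h.finE (hyb c hc) (hyb c' hc') e
    have h1 := (mem_St (hc := h.cov) (ht := on_res t E₀) (hsw ∅ c hc) (hsw ∅ c' hc')).2 e1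
    have h2 := Equiv.mul_swap_eq_swap_mul (Equiv.swap u c) c c'
    rw [Equiv.swap_apply_right, Equiv.swap_apply_of_ne_of_ne (hune c' hc').symm (Ne.symm hcc)] at h2
    rw [Equiv.swap_inv, ← h2] at h1
    have h3 := (Subgroup.mul_mem_cancel_right _ (hcone _ c c' hc hc')).1 h1
    have h4 : Equiv.swap u (tr k m) ∈ St h.cov z (on_res t E₀) := by
      rw [Equiv.swap_comm, ← Equiv.swap_mul_swap_mul_swap (hune c hc) (hune _ hc0)]
      exact mul_mem (mul_mem (hcone _ _ _ hc hc0) h3) (hcone _ _ _ hc hc0)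
    exact hne₁ _ (hson.res_le ht) h4.2
  have hT : (insert k T₀).Finite := h.finT.insert k
  have hy : ∀ {j}, m ≤ j → ∀ g π, π ∈ Hn j (insert k T₀) → Ind g π → (∀ b ∈ E₀, g b = b) →
      ∀ c, cls m c = tr k m → ∀ t, FEq (g • y c) (y (π c)) t := by
    intro j hj g π hπ h1 h2 c hc t
    refine ((hyb c hc).eq_lift (h.cov.mono (hm0.trans hj) subset_rfl) hπ h1 h2 t).trans ?_
    change FEq (lift π • lift (Equiv.swap u c) • z) (lift (Equiv.swap u (π c)) • z) t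
    rw [← mul_smul, ← map_mul, Equiv.mul_swap_eq_swap_mul, map_mul, mul_smul,
      Hn_fix hπ (lt_of_lt_of_le hu1 hj)]
    exact fEq_smul_all _ (hs _ (lift_mem (h.cov.mono hn subset_rfl)
      (Hn_mono (hm1'.trans hj) (Set.subset_insert _ _) hπ))) t
  have hCm : ∀ i c, c ∈ Cn k (m + i) → cls m c = tr k m := fun i c hc =>
    Cn_cone (Nat.le_add_right _ _) hc
  refine h.nc s (hs₁.trans hq1) ⟨_, HH_mem m hT h.finE,
    fun i => fam fun c : Cn k (m + i) => y c.1, fun i => ?_, fun i => ?_, fun i => ?_,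
    fun i j hij => ?_, ?_⟩
  · refine hs_fam (fun c => hyh _ (hCm i _ c.2)) (HH_mem (m + i + 1) hT h.finE) ?_
    rintro g ⟨⟨π, hπ, h1⟩, h2⟩ c
    exact ⟨⟨π c.1, Cn_cls c.2 (hπ.2.1 _)⟩, hy (by omega) g π hπ h1 h2 _ (hCm i _ c.2)⟩
  · refine fMem_sub fun c r hr _ => fMem_mono ?_ (hr.trans hs₁)
    have h1 := lift_mem h.cov (hsw T₀ _ (hCm i _ c.2))
    have h2 := fMem_smul (lift (Equiv.swap u c.1)) hm1
    rw [(on_res q E₀).smul h1.2] at h2
    exact h2.congr_right (h.sp _ h1 _)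
  · refine unb_of_step (fun c : Cn k (m + i) => y c.1) (fun _ _ => True) (fun _ _ _ _ _ => trivial)
      (fun c r _ _ => ⟨hyh _ (hCm i _ c.2), fMem_mk c le_top⟩)
      (fun c c' hcc r hr _ _ => hyinj _ _ (hCm i _ c.2) (hCm i _ c'.2)
        (fun e => hcc (Subtype.ext e)) r hr) fun r _ J hJ => ?_
    have := (Cn_infinite k (m + i)).to_subtype
    obtain ⟨c, hc⟩ := hJ.exists_notMem
    exact ⟨c, hc, r, le_rfl, trivial⟩
  · refine bd_of_empty fun r hr x hx => disj_mk (q := s) (fun c c' t ht _ _ => ?_) r hr x hx.1 hx.2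
    refine hyinj _ _ (hCm i _ c.2) (hCm j _ c'.2) (fun e => hij ?_) t ht
    have := Cn_disj c.2 (e ▸ c'.2)
    omega
  · rintro i g ⟨⟨π, hπ, h1⟩, h2⟩ g' ⟨⟨π', hπ', h3⟩, h4⟩
    refine bd_of_finite ((Cn_finite (j := m + i) (Set.mem_insert k T₀)
      (mul_mem (inv_mem hπ') hπ)).image fun c => y (π c)) fun r _ x hx r' hr' => ?_
    obtain ⟨t, ht, c, -, e⟩ := of_fMem_mk (fMem_mono hx.1 hr')
    have e1 := e.trans (hy le_rfl g π hπ h1 h2 _ (hCm i _ c.2) t)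
    refine ⟨t, ht, _, ⟨c.1, ⟨c.2, fun hc => hx.2 t (ht.trans hr') ?_⟩, rfl⟩, e1⟩
    have e2 := hy le_rfl g' π' hπ' h3 h4 _ (hCm i _ hc) t
    rw [show π' ((π'⁻¹ * π) c.1) = π c.1 by simp] at e2
    refine FMem.congr_left ?_ (e2.trans e1.symm)
    have h5 : FMem (y ((π'⁻¹ * π) c.1)) (fam fun c : Cn k (m + i) => y c.1) (g'⁻¹ • t) :=
      fMem_mk (A := fun c : Cn k (m + i) => y c.1) ⟨_, hc⟩ le_top
    have h6 := fMem_smul g' h5
    rwa [smul_inv_smul] at h6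

theorem orb (h : Ctx Z p n₀ T₀ E₀) {q : Cd} (hq : q ≤ p) {z : Name Cd} (hz : HS FZ z)
    (hm : FMem z Z q) {n : ℕ} (hn : n₀ ≤ n) (hs : Sp n T₀ E₀ z) :
    ∃ L : Set (Name Cd), L.Finite ∧ ∀ π ∈ Hn n₀ T₀, ∃ c ∈ L, FEq (lift π • z) c (res q E₀) := by
  let ext' : (Fin n → Bool) → K := fun s i => if h : i < n then s ⟨i, h⟩ else false
  let code : Iso → (Fin n → Bool) → Fin n → Bool := fun β s i => β.1 (ext' s) i
  have hc : ∀ β β' : Iso, hat β ∈ Hn n₀ T₀ → hat β' ∈ Hn n₀ T₀ → code β = code β' →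
      (hat β')⁻¹ * hat β ∈ Hn n T₀ := by
    intro β β' h1 h2 e
    have h0 := mul_mem (inv_mem h2) h1
    rw [← hat_inv, ← hat_mul] at h0 ⊢
    refine hat_mem_Hn (fun q => ?_) fun k hk => (near_hat _).fix h0 hk
    refine (β'.2 _ _ _).mp ?_
    have h3 : Ag n q (ext' fun i => q i) := fun i hi => by simp [ext', hi]
    have h4 : Ag n (β.1 (ext' fun i => q i)) (β'.1 (ext' fun i => q i)) := fun i hi =>
      congrFun (congrFun e fun i => q i) ⟨i, hi⟩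
    simpa using ((β.2 _ _ _).mpr h3).trans (h4.trans ((β'.2 _ _ _).mpr h3).symm)
  have : ∀ c, ∃ β : Iso, (∃ β', hat β' ∈ Hn n₀ T₀ ∧ code β' = c) →
      hat β ∈ Hn n₀ T₀ ∧ code β = c := fun c => by
    by_cases h1 : ∃ β', hat β' ∈ Hn n₀ T₀ ∧ code β' = c
    · obtain ⟨β, h2⟩ := h1
      exact ⟨β, fun _ => h2⟩
    · exact ⟨1, fun h2 => absurd h2 h1⟩
  choose rep hrep using this
  refine ⟨Set.range fun c => lift (hat (rep c)) • z, Set.finite_range _, fun π hπ => ?_⟩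
  obtain ⟨β, hβ⟩ := hπ.1
  have h1 := hβ.hat_mem hπ
  obtain ⟨h2, h3⟩ := hrep (code β) ⟨β, h1, rfl⟩
  have hle : Hn n₀ T₀ ≤ Hn n₀ ∅ := Hn_mono le_rfl (Set.empty_subset _)
  refine ⟨_, ⟨code β, rfl⟩, (mem_St (hc := h.cov) (ht := on_res q E₀) (hle hπ) (hle h2)).1 ?_⟩
  have h4 : (hat β)⁻¹ * π ∈ St h.cov z (on_res q E₀) :=
    mem_of_swaps (n := n₀) (S := St h.cov z (on_res q E₀))
      (fun a b hab => ⟨swap_mem_Hn _ hab, stepB h hq hz hm hn hs hab⟩) _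
      (hβ.subset fun s hs e => hs (by rw [Equiv.Perm.mul_apply, e]; simp))
      (mul_mem (inv_mem h1) hπ).2.1
  have h5 := mul_mem (hs.mem_St (hc := h.cov) (ht := on_res q E₀) hn (hc β _ h1 h2 h3.symm)) h4
  rwa [mul_assoc, mul_inv_cancel_left] at h5

end Pool.Agent.P.MP_fb2f7f_lc.ZF
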