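import Pool.Agent.P.MP_fb2f7f_lc.ZF.C2

/-! Removing an end from the support of an element. -/

namespace Pool.Agent.P.MP_fb2f7f_lc.ZF

open Pool.Agent.Lib.PosetForcing Pool.Agent.SymExt Filter

variable {Z : Name Cd} {p : Cd} {n₀ : ℕ} {T₀ : Set K} {E₀ : Set B}

theorem cc_shift {d : ℕ} {k e : K} (h : Ag d e k) :
    ∃ u : Iso, u.1 k = e ∧ ∀ q, ¬ Ag d q k → u.1 q = q := by
  obtain ⟨u, h1, h2⟩ := exists_restr (m := d) (xorI fun i => xor (k i) (e i))
    (fun q i hi => by rw [xorI_apply, h i hi]; simp) k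
  refine ⟨u, ?_, h2⟩
  rw [h1 k (Ag.refl _ _)]
  funext i
  rw [xorI_apply]
  cases k i <;> cases e i <;> rfl

theorem cc_mem {m : ℕ} {T : Set K} {k : K} {π : Equiv.Perm Nd} {β : Iso}
    (h : π ∈ Hn m (T \ {k})) (hβ : Near π β) (e : β.1 k = k) : π ∈ Hn m T := by
  refine ⟨h.1, h.2.1, fun q hq => ?_⟩
  by_cases a : q = k
  · subst a
    simpa only [e] using hβ.eventually q
  · exact h.2.2 q ⟨hq, a⟩

theorem cc_inf (d : ℕ) (k : K) : {e : K | Ag d e k ∧ ¬ Ag (d + 1) e k}.Infinite := by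
  refine Set.infinite_of_injective_forall_mem
    (f := fun (t : ℕ) (i : ℕ) => xor (k i) (decide (i = d ∨ i = d + 1 + t))) (fun t t' h => ?_)
    fun t => ⟨fun i hi => ?_, fun h => ?_⟩
  · have := congrFun h (d + 1 + t)
    simp only [or_true, decide_true, Bool.xor_right_inj, true_eq_decide_iff] at this
    omega
  · have : ¬ (i = d ∨ i = d + 1 + t) := by omega
    simp [this]
  · simpa using h d (Nat.lt_succ_self d)

theorem stepC (h : Ctx Z p n₀ T₀ E₀) {q : Cd} (hq : q ≤ p) {z : Name Cd} (hz : HS FZ z)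
    (hm : FMem z Z q) {n : ℕ} {T : Set K} (hT : T.Finite) (hn : n₀ ≤ n) (hT₀ : T₀ ⊆ T)
    (hs : Sp n T E₀ z) {k : K} (hk : k ∈ T) (hk₀ : k ∉ T₀) :
    ∃ r ≤ q, ∃ n' z', n ≤ n' ∧ HS FZ z' ∧ Sp n' (T \ {k}) E₀ z' ∧ FEq z z' r := by
  obtain ⟨m, hsep, hnm⟩ := ((exists_sep k hT).and (eventually_ge_atTop n)).exists
  have hcov : Cov m E₀ := h.cov.mono (hn.trans hnm) subset_rfl
  have hT' : T₀ ⊆ T \ {k} := fun a ha => ⟨hT₀ ha, fun e => hk₀ (e ▸ ha)⟩
  have hsupp : ∀ (d : ℕ) (u : Iso), m ≤ d → (∀ a, ¬ Ag d a k → u.1 a = a) →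
      hat u ∈ Hn m (T \ {k}) := fun d u hd hu =>
    hat_mem_Hn (fun a => (ag_of_supp hu a).mono hd) fun a ha =>
      hu a fun e => hsep a ha.1 ha.2 (e.mono hd)
  have hU : ∀ e : K, ∃ u : Iso, hat u ∈ Hn m (T \ {k}) ∧ (Ag m e k → u.1 k = e) := by
    intro e
    by_cases a : Ag m e k
    · obtain ⟨u, h1, h2⟩ := cc_shift a
      exact ⟨u, hsupp m u le_rfl h2, fun _ => h1⟩
    · exact ⟨1, by rw [hat_one]; exact one_mem _, fun b => (a b).elim⟩
  choose U hU1 hU2 using hU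
  let y : K → Name Cd := fun e => lift (hat (U e)) • z
  have hL : ∀ e, lift (hat (U e)) ∈ HH m (T \ {k}) E₀ := fun e => lift_mem hcov (hU1 e)
  have yHS : ∀ e, HS FZ (y e) := fun e => hz.smul (HH_le_G (hL e))
  have yB : ∀ e, Based E₀ (y e) := fun e => hs.based.smul_HH (hL e)
  have yk : ∀ t, FEq (y k) z t :=
    hs _ (HH_mono hnm subset_rfl subset_rfl
      (lift_mem hcov (cc_mem (hU1 k) (near_hat _) (hU2 k (Ag.refl _ _)))))
  have act : ∀ (g : Equiv.Perm B) (π : Equiv.Perm Nd) (β : Iso), π ∈ Hn m (T \ {k}) → Ind g π →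
      (∀ b ∈ E₀, g b = b) → Near π β → ∀ e, Ag m e k → ∀ t, FEq (g • y e) (y (β.1 e)) t := by
    intro g π β h1 h2 h3 h4 e he t
    have he' : Ag m (β.1 e) k := (h4.ag h1 e).trans he
    have h5 : (hat (U (β.1 e)))⁻¹ * (π * hat (U e)) ∈ Hn m T := by
      refine cc_mem (mul_mem (inv_mem (hU1 _)) (mul_mem h1 (hU1 e)))
        ((near_hat _).inv.mul (h4.mul (near_hat _))) ?_
      change (U (β.1 e)).1⁻¹ (β.1 ((U e).1 k)) = k
      rw [Equiv.Perm.inv_eq_iff_eq, hU2 e he, hU2 _ he']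
    have h6 : (lift (hat (U (β.1 e))))⁻¹ * (g * lift (hat (U e))) ∈ HH m T E₀ :=
      ⟨⟨_, h5, (ind_lift _).inv.mul (h2.mul (ind_lift _))⟩,
        (mul_mem (inv_mem (hL _)) (mul_mem (show g ∈ HH m (T \ {k}) E₀ from ⟨⟨π, h1, h2⟩, h3⟩)
          (hL e))).2⟩
    have h7 := (hs _ (HH_mono hnm subset_rfl subset_rfl h6)).smul_eq t
    rwa [mul_smul] at h7
  have hq1 : res q E₀ ≤ p := h.on.res_le hq
  have yZ : ∀ e, FMem (y e) Z (res q E₀) := by
    intro e
    have h1 := fMem_smul (lift (hat (U e))) (fMem_res h.finE hs.based h.sp.based hm)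
    rw [(on_res q E₀).smul (hL e).2] at h1
    exact h1.congr_right (h.sp _ (HH_mono (hn.trans hnm) hT' subset_rfl (hL e)) _)
  by_cases hc : ∀ e e', Ag m e k → Ag m e' k → e ≠ e' → ∀ t ≤ res q E₀, ¬ FEq (y e) (y e') t
  · exfalso
    let ι : ℕ → Type := fun j => {e : K | Ag (m + j) e k ∧ ¬ Ag (m + j + 1) e k}
    have ag : ∀ j (e : ι j), Ag m e.1 k := fun j e => e.2.1.mono (Nat.le_add_right _ _)
    refine h.nc _ hq1 (cert_of_fix (HH_mem m hT h.finE)
      (fun j => .mk (ι j) (fun e => y e.1) fun _ => ⊤) (fun j e => yHS e.1) (fun j g hg => ?_)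
      (fun j => fMem_sub fun e r hr _ => fMem_mono (yZ e.1) hr) (fun j => ?_)
      fun i j hij => disj_mk fun e e' t ht _ _ => hc _ _ (ag i e) (ag j e') (fun a => ?_) t ht)
    · refine fix_mk (H := HH m T E₀) (fun g hg e => ?_) hg
      obtain ⟨⟨π, h1, h2⟩, h3⟩ := hg
      obtain ⟨β, hβ⟩ := h1.1
      have h4 : β.1 k = k := hβ.fix h1 hk
      refine ⟨⟨β.1 e.1, ?_, fun a => e.2.2 ((β.2 _ _ _).mp ?_)⟩, le_top,
        act g π β (Hn_mono le_rfl Set.sdiff_subset h1) h2 h3 hβ _ (ag j e) _⟩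
      · have := (β.2 _ _ _).mpr e.2.1
        rwa [h4] at this
      · rwa [h4]
    · have : Infinite (ι j) := (cc_inf (m + j) k).to_subtype
      refine unb_of_step (fun e : ι j => y e.1) (fun _ _ => True) (fun _ _ _ _ _ => trivial)
        (fun e s _ _ => ⟨yHS _, fMem_mk e le_top⟩)
        (fun e e' a s hs _ _ => hc _ _ (ag j e) (ag j e') (fun b => a (Subtype.ext b)) s hs)
        fun r _ J hJ => ?_
      obtain ⟨e, he⟩ := hJ.exists_notMem
      exact ⟨e, he, r, le_rfl, trivial⟩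
    · rcases lt_or_gt_of_ne hij with b | b
      · exact e.2.2 (a ▸ e'.2.1.mono (by omega))
      · exact e'.2.2 (a ▸ e.2.1.mono (by omega))
  · push Not at hc
    obtain ⟨e, e', he, he', hne, t, ht, hee⟩ := hc
    have hs1 : res t E₀ ≤ res q E₀ := (on_res q E₀).res_le ht
    have hon := on_res t E₀
    have h0 := fEq_res h.finE (yB e) (yB e') hee
    set s := res t E₀
    have inv : ∀ β : Iso, hat β ∈ Hn m (T \ {k}) → ∀ a b, Ag m a k → Ag m b k →
        FEq (y a) (y b) s → FEq (y (β.1 a)) (y (β.1 b)) s := by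
      intro β hβ a b ha hb hab
      have h1 := (lift_mem hcov hβ).2
      exact ((act _ _ β hβ (ind_lift _) h1 (near_hat β) a ha s).symm.trans
        (hon.fEq_smul h1 hab)).trans (act _ _ β hβ (ind_lift _) h1 (near_hat β) b hb s)
    have hi : hat (U e)⁻¹ ∈ Hn m (T \ {k}) := by rw [hat_inv]; exact inv_mem (hU1 e)
    have e1 : ((U e)⁻¹).1 e = k := by
      change (U e).1⁻¹ e = k
      rw [Equiv.Perm.inv_eq_iff_eq, hU2 e he]
    have h1 := inv _ hi e e' he he' h0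
    rw [e1] at h1
    have h2 : ((U e)⁻¹).1 e' ≠ k := fun a => hne (((U e)⁻¹).1.injective (e1.trans a.symm))
    have h3 : Ag m (((U e)⁻¹).1 e') k := ((near_hat _).ag hi e').trans he'
    generalize ((U e)⁻¹).1 e' = k₁ at h1 h2 h3
    obtain ⟨d, hd1, hd⟩ :=
      ((exists_sep k (Set.finite_singleton k₁)).and (eventually_ge_atTop m)).exists
    have h4 : ∀ a, Ag d a k → FEq (y a) z s := by
      intro a ha
      obtain ⟨u, u1, u2⟩ := cc_shift ha
      have h5 := inv u (hsupp d u hd u2) k k₁ (Ag.refl _ _) h3 h1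
      rw [u1, u2 k₁ (hd1 k₁ rfl h2)] at h5
      exact (h5.trans h1.symm).trans (yk s)
    obtain ⟨z', a1, a2, a3⟩ := exists_symm (HH_mem d (hT.subset Set.sdiff_subset) h.finE
      (T := T \ {k})) hz (s := s) fun g hg r hr _ => by
        obtain ⟨⟨π, g1, g2⟩, g3⟩ := hg
        obtain ⟨β, hβ⟩ := g1.1
        exact ((fEq_smul_all g yk r).symm.trans
          (act g π β (Hn_mono hd subset_rfl g1) g2 g3 hβ k (Ag.refl _ _) r)).trans
          ((h4 _ (hβ.ag g1 k)).mono hr)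
    obtain ⟨r, r1, r2⟩ := hon.exists_le hs1
    exact ⟨r, r1, d, z', hnm.trans hd, a1, a2, a3.mono r2⟩

end Pool.Agent.P.MP_fb2f7f_lc.ZF
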