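import Pool.Agent.P.MP_fb2f7f_lc.ZF.C2

/-! Removing a generic real from the support of an element. -/

namespace Pool.Agent.P.MP_fb2f7f_lc.ZF

open Pool.Agent.Lib.PosetForcing Pool.Agent.SymExt Filter

variable {Z : Name Cd} {p : Cd} {n₀ : ℕ} {T₀ : Set K} {E₀ : Set B}

theorem swap_key {z : Name Cd} {n : ℕ} {T : Set K} {E : Set B} (hc : Cov n E) (hs : Sp n T E z)
    {b : B} (hb : b ∈ E) {q : Cd} (hq : On E q) {g : Equiv.Perm B} (hg : g ∈ HH n T (E \ {b})) :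
    ((g b).1 = b.1 ∧ g b ∉ E \ {b}) ∧ (∀ t, FEq (g • z) (Equiv.swap b (g b) • z) t) ∧
      g • q = Equiv.swap b (g b) • q := by
  obtain ⟨⟨π, hπ, h1⟩, h2⟩ := hg
  have e1 : (g b).1 = b.1 := (h1 b).trans (Hn_fix hπ (hc b hb))
  have e2 : g b ∉ E \ {b} := fun h => h.2 (g.injective (h2 _ h))
  have hl : (Equiv.swap b (g b))⁻¹ * g ∈ HH n T E := by
    refine ⟨⟨π, hπ, by simpa using (ind_swap e1.symm).inv.mul h1⟩, fun x hx => ?_⟩
    by_cases e : x = b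
    · simp [e]
    · rw [Equiv.Perm.mul_apply, h2 x ⟨hx, e⟩, Equiv.swap_inv]
      exact Equiv.swap_apply_of_ne_of_ne e (by rintro rfl; exact e2 ⟨hx, e⟩)
  refine ⟨⟨e1, e2⟩, (hs _ hl).smul_eq, ?_⟩
  have := hq.smul hl.2
  rwa [mul_smul, inv_smul_eq_iff] at this

theorem swap_mem_HH {E : Set B} {b c : B} (n : ℕ) (T : Set K) (h : c.1 = b.1 ∧ c ∉ E \ {b}) :
    Equiv.swap b c ∈ HH n T (E \ {b}) := (kk_swap h.1.symm (by simp) h.2).mem n T

theorem cert_R (h : Ctx Z p n₀ T₀ E₀) {q : Cd} {z : Name Cd} (hz : HS FZ z)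
    (hm : FMem z Z q) {n : ℕ} {T : Set K} {E : Set B} (hT : T.Finite) (hE : E.Finite)
    (hc : Cov n E) (hE₀ : E₀ ⊆ E) (hs : Sp n T E z) {b : B} (hb : b ∈ E) (hb₀ : b ∉ E₀)
    (hq : On E q) (hi : ∀ c c', c.1 = b.1 ∧ c ∉ E \ {b} → c'.1 = b.1 ∧ c' ∉ E \ {b} → c ≠ c' →
      ∀ s ≤ Equiv.swap b c • q, s ≤ Equiv.swap b c' • q →
        ¬ FEq (Equiv.swap b c • z) (Equiv.swap b c' • z) s) : Cert FZ q Z := by
  have hmc : ∀ c, c.1 = b.1 ∧ c ∉ E \ {b} → FMem (Equiv.swap b c • z) Z (Equiv.swap b c • q) :=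
    fun c hc' => (fMem_smul _ hm).congr_right (h.sp.based _ (kk_swap hc'.1.symm hb₀ fun h1 =>
      hc'.2 ⟨hE₀ h1, by rintro rfl; exact hb₀ h1⟩) _)
  have hhs : ∀ c, c.1 = b.1 ∧ c ∉ E \ {b} → HS FZ (Equiv.swap b c • z) := fun c hc' =>
    hz.smul (HH_le_G (swap_mem_HH n T hc'))
  obtain ⟨m₀, hm₀⟩ : ∃ m₀, ∀ v, (b, m₀, v) ∉ q.s := by
    obtain ⟨m, hm⟩ := (q.fin.image fun x => x.2.1).exists_notMem
    exact ⟨m, fun v hv => hm ⟨_, hv, rfl⟩⟩
  let Y : ℕ → Name Cd := fun m => .mk {x : B × Cd // (x.1.1 = b.1 ∧ x.1 ∉ E \ {b}) ∧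
    x.2 ≤ Equiv.swap b x.1 • q ∧ (x.1, m₀, m) ∈ x.2.s} (fun x => Equiv.swap b x.1.1 • z)
    fun x => x.1.2
  refine cert_of_fix (HH_mem n hT hE) Y (fun m x => hhs _ x.2.1) (fun m g hg => ?_)
    (fun m => fMem_sub fun x r _ hr => fMem_mono (hmc _ x.2.1) (hr.trans x.2.2.1)) (fun m => ?_)
    fun m m' hmm => disj_mk fun x y t _ h1 h2 => ?_
  · refine fix_mk (H := HH n T E) (fun g hg x => ?_) hg
    obtain ⟨⟨c, r⟩, h1, h2, h3⟩ := x
    obtain ⟨k1, k2, k3⟩ := swap_key hc hs hb hq (mul_mem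
      (HH_mono le_rfl subset_rfl Set.sdiff_subset hg) (swap_mem_HH n T h1))
    simp only [Equiv.Perm.mul_apply, Equiv.swap_apply_left, mul_smul] at k1 k2 k3
    exact ⟨⟨(g c, g • r), k1, k3 ▸ smul_le g h2, smul_mem.2 h3⟩, le_rfl, k2 _⟩
  · refine unb_of_step (ι := {c : B // c.1 = b.1 ∧ c ∉ E \ {b}}) (fun c => Equiv.swap b c.1 • z)
      (fun c s => s ≤ Equiv.swap b c.1 • q ∧ (c.1, m₀, m) ∈ s.s)
      (fun c s t ht h1 => ⟨ht.trans h1.1, ht h1.2⟩)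
      (fun c s _ h1 => ⟨hhs _ c.2, fMem_mk (c := fun x : {x : B × Cd //
        (x.1.1 = b.1 ∧ x.1 ∉ E \ {b}) ∧ x.2 ≤ Equiv.swap b x.1 • q ∧ (x.1, m₀, m) ∈ x.2.s} =>
          x.1.2) ⟨(c.1, s), c.2, h1⟩ le_rfl⟩)
      (fun c c' hcc s _ h1 h2 => hi _ _ c.2 c'.2 (fun e => hcc (Subtype.ext e)) s h1.1 h2.1)
      fun r hr J hJ => ?_
    obtain ⟨c, c1, c2⟩ := exists_fresh b.1 (((finite_supp r).union hE).union (hJ.image Subtype.val))
    simp only [Set.mem_union, not_or] at c2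
    obtain ⟨t, t1, t2, t3⟩ := exists_le_two (p := r) (q := Equiv.swap b c • q)
      fun x i v v' h1 h2 => by
        rw [mem_smul, Equiv.swap_inv] at h2
        by_cases e : x = b
        · rw [e, Equiv.swap_apply_left] at h2
          exact (c2.1.2 (hq _ h2)).elim
        · rw [Equiv.swap_apply_of_ne_of_ne e (by rintro rfl; exact c2.1.1 ⟨_, h1, rfl⟩)] at h2
          exact r.fn x i v v' h1 (hr h2)
    obtain ⟨u, u1, u2, -⟩ := exists_le_two (p := t) (q := ⟨{(c, m₀, m)}, Set.finite_singleton _,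
      fun _ _ _ _ h1 h2 => by cases h1; cases h2; rfl⟩) fun x i v v' h1 h2 => by
        cases h2
        rw [t3] at h1
        rcases h1 with h1 | h1
        · exact (c2.1.1 ⟨_, h1, rfl⟩).elim
        · rw [mem_smul, Equiv.swap_inv, Equiv.swap_apply_right] at h1
          exact (hm₀ _ h1).elim
    exact ⟨⟨c, c1, fun h1 => c2.1.2 h1.1⟩, fun h1 => c2.2 ⟨_, h1, rfl⟩, u, u1.trans t1,
      u1.trans t2, u2 rfl⟩
  · by_cases e : x.1.1 = y.1.1
    · exact (hmm (t.fn _ _ _ _ (h1 x.2.2.2) (e ▸ h2 y.2.2.2))).elim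
    · exact hi _ _ x.2.1 y.2.1 e t (le_trans h1 x.2.2.1) (le_trans h2 y.2.2.1)

theorem ls_R {z : Name Cd} {n : ℕ} {T : Set K} {E : Set B} (hE : E.Finite) (hc : Cov n E)
    (hs : Sp n T E z) {b c : B} (hb : b ∈ E) (hcb : c.1 = b.1) (hcE : c ∉ E) {s : Cd}
    (h : FEq z (Equiv.swap b c • z) s) {g : Equiv.Perm B} (hg : g ∈ HH n T (E \ {b})) {r : Cd}
    (h1 : r ≤ res s E) (h2 : r ≤ g • res s E) : FEq (g • z) z r := by
  have hF : c.1 = b.1 ∧ c ∉ E \ {b} := ⟨hcb, fun h => hcE h.1⟩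
  have h3 : FEq z (Equiv.swap b c • z) (res s (insert c E)) :=
    fEq_res (hE.insert c) (hs.based.mono (Set.subset_insert _ _))
      (hs.based.smul (ind_swap hcb.symm) fun x hx => by
        by_cases e : x = b
        · simp [e]
        · rw [Equiv.swap_apply_of_ne_of_ne e (by rintro rfl; exact hcE hx)]
          exact Or.inr hx) h
  refine FEq.of_dn fun r1 hr1 => ?_
  obtain ⟨d, d1, d2⟩ := exists_fresh b.1 (((finite_supp r1).union hE).union (Set.toFinite {g b, c}))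
  simp only [Set.mem_union, Set.mem_insert_iff, Set.mem_singleton_iff, not_or] at d2
  have e1 : (g⁻¹ d).1 = b.1 := by
    obtain ⟨π, hπ, h4⟩ := (inv_mem hg).1
    rw [h4, d1, Hn_fix hπ (hc b hb)]
  have e2 : g⁻¹ d ∉ E := fun h4 => by
    by_cases e : g⁻¹ d = b
    · exact d2.2.1 (by rw [← e]; simp)
    · have := hg.2 _ ⟨h4, e⟩
      simp only [Equiv.Perm.coe_inv, Equiv.apply_symm_apply] at this
      exact d2.1.2 (this ▸ h4)
  have k1 : KK E (Equiv.swap c d) := kk_swap (hcb.trans d1.symm) hcE d2.1.2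
  have k2 : KK E (Equiv.swap c (g⁻¹ d)) := kk_swap (hcb.trans e1.symm) hcE e2
  have hle : HH n T E ≤ HH n T (E \ {b}) := HH_mono le_rfl subset_rfl Set.sdiff_subset
  have a1 := (swap_key hc hs hb (on_res s E)
    (mul_mem (hle (k1.mem n T)) (swap_mem_HH n T hF))).2.1
  have a2 := (swap_key hc hs hb (on_res s E)
    (mul_mem (mul_mem hg (hle (k2.mem n T))) (swap_mem_HH n T hF))).2.1
  simp only [Equiv.Perm.mul_apply, Equiv.swap_apply_left, Equiv.Perm.coe_inv,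
    Equiv.apply_symm_apply] at a1 a2
  have b1 : FEq z (Equiv.swap b d • z) (Equiv.swap c d • res s (insert c E)) :=
    ((hs.based _ k1 _).symm.trans (fEq_smul _ h3)).trans (by rw [← mul_smul]; exact a1 _)
  have b2 : FEq (g • z) (Equiv.swap b d • z)
      ((g * Equiv.swap c (g⁻¹ d)) • res s (insert c E)) := by
    refine (FEq.trans ?_ (fEq_smul _ h3)).trans (by rw [← mul_smul]; exact a2 _)
    rw [mul_smul g _ z]
    exact (fEq_smul_all g (hs.based _ k2) _).symm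
  obtain ⟨t, t1, t2, t3⟩ := exists_le_two (p := r1) (q := Equiv.swap c d • res s (insert c E))
    fun x i v v' h4 h5 => by
      rw [mem_smul, Equiv.swap_inv] at h5
      by_cases e : x = c
      · rw [e, Equiv.swap_apply_left] at h5
        rcases h5.2 with h6 | h6
        · exact (d2.2.2 h6).elim
        · exact (d2.1.2 h6).elim
      · rw [Equiv.swap_apply_of_ne_of_ne e (by rintro rfl; exact d2.1.1 ⟨_, h4, rfl⟩)] at h5
        exact r1.fn x i v v' h4 ((hr1.trans h1) ⟨h5.1, h5.2.resolve_left e⟩)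
  refine ⟨t, t1, (b2.mono ?_).trans (b1.mono t2).symm⟩
  rintro ⟨x, y⟩ hx
  obtain ⟨w, rfl⟩ := (g * Equiv.swap c (g⁻¹ d)).surjective x
  rw [smul_mem] at hx
  rcases hx.2 with h4 | h4
  · obtain rfl : w = c := h4
    have : (g * Equiv.swap w (g⁻¹ d)) w = Equiv.swap w d w := by simp
    rw [this]
    exact t2 (smul_mem.2 hx)
  · rw [Equiv.Perm.mul_apply, k2.2 w h4]
    exact (t1.trans (hr1.trans h2)) (smul_mem.2 ⟨hx.1, h4⟩)

theorem stepR (h : Ctx Z p n₀ T₀ E₀) {q : Cd} (hq : q ≤ p) {z : Name Cd} (hz : HS FZ z)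
    (hm : FMem z Z q) {n : ℕ} {T : Set K} {E : Set B} (hT : T.Finite) (hE : E.Finite)
    (hc : Cov n E) (hE₀ : E₀ ⊆ E) (hs : Sp n T E z) {b : B} (hb : b ∈ E) (hb₀ : b ∉ E₀) :
    ∃ r ≤ q, ∃ z', HS FZ z' ∧ Sp n T (E \ {b}) z' ∧ FEq z z' r := by
  have hi := fun hi => h.nc _ ((h.on.mono hE₀).res_le hq) (cert_R h hz
    (fMem_res hE hs.based (h.sp.based.mono hE₀) hm) hT hE hc hE₀ hs hb hb₀ (on_res q E) hi)
  have : ∃ c c', (c.1 = b.1 ∧ c ∉ E \ {b}) ∧ (c'.1 = b.1 ∧ c' ∉ E \ {b}) ∧ c ≠ c' ∧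
      ∃ s ≤ Equiv.swap b c • res q E, FEq (Equiv.swap b c • z) (Equiv.swap b c' • z) s := by
    by_contra hn
    exact hi fun c c' h1 h2 h3 s h4 _ h5 => hn ⟨c, c', h1, h2, h3, s, h4, h5⟩
  obtain ⟨c, c', h1, h2, h3, s, h4, h5⟩ := this
  obtain ⟨k1, k2, -⟩ := swap_key hc hs hb (on_res q E)
    (mul_mem (swap_mem_HH n T h1) (swap_mem_HH n T h2))
  simp only [Equiv.Perm.mul_apply, Equiv.swap_apply_left] at k1 k2
  have h6 : Equiv.swap b c c' ∉ E := fun h6 => k1.2 ⟨h6, fun e => h3 (by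
    have := congrArg (Equiv.swap b c) (show Equiv.swap b c c' = b from e)
    simpa using this.symm)⟩
  have h7 := fEq_smul (Equiv.swap b c) h5
  rw [← mul_smul, Equiv.swap_mul_self, one_smul, ← mul_smul] at h7
  have h8 : Equiv.swap b c • s ≤ res q E := by
    have := smul_le (Equiv.swap b c) h4
    rwa [← mul_smul, Equiv.swap_mul_self, one_smul] at this
  obtain ⟨z', g1, g2, g3⟩ := exists_symm (HH_mem n hT (hE.subset Set.sdiff_subset)) hz
    (s := res (Equiv.swap b c • s) E) fun g hg r r1 r2 =>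
      ls_R hE hc hs hb k1.1 h6 (h7.trans (k2 _)) hg r1 r2
  obtain ⟨r, r1, r2⟩ := (on_res (Equiv.swap b c • s) E).exists_le ((on_res q E).res_le h8)
  exact ⟨r, r1, z', g1, g2, g3.mono r2⟩

end Pool.Agent.P.MP_fb2f7f_lc.ZF
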