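import Pool.Agent.P.MP_fb2f7f_lc.ZF.CR
import Pool.Agent.P.MP_fb2f7f_lc.ZF.CC
import Pool.Agent.P.MP_fb2f7f_lc.ZF.CB

/-! Every unbounded symmetric name has a certificate. -/

namespace Pool.Agent.P.MP_fb2f7f_lc.ZF

open Pool.Agent.Lib.PosetForcing Pool.Agent.SymExt Filter

variable {Z : Name Cd} {p : Cd} {n₀ : ℕ} {T₀ : Set K} {E₀ : Set B}

theorem redE (h : Ctx Z p n₀ T₀ E₀) {n : ℕ} {T : Set K} (hT : T.Finite) {D : Set B}
    (hD : D.Finite) : ∀ q ≤ p, ∀ z, HS FZ z → FMem z Z q → Cov n (E₀ ∪ D) → Sp n T (E₀ ∪ D) z →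
      ∃ r ≤ q, ∃ z', HS FZ z' ∧ Sp n T E₀ z' ∧ FEq z z' r := by
  induction D, hD using Set.Finite.induction_on with
  | empty => exact fun q _ z hz _ _ hs => ⟨q, le_rfl, z, hz, by simpa using hs, FEq.refl _ _⟩
  | @insert b D hb hD ih =>
    intro q hq z hz hm hc hs
    have hc' : Cov n (E₀ ∪ D) :=
      hc.mono le_rfl (Set.union_subset_union_right _ (Set.subset_insert _ _))
    by_cases hb₀ : b ∈ E₀
    · refine ih q hq z hz hm hc' (hs.mono le_rfl subset_rfl ?_)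
      rintro x (hx | rfl | hx)
      exacts [Or.inl hx, Or.inl hb₀, Or.inr hx]
    · obtain ⟨r, hr, z', h1, h2, h3⟩ := stepR h hq hz hm hT (h.finE.union (hD.insert b)) hc
        Set.subset_union_left hs (Or.inr (Set.mem_insert _ _)) hb₀
      obtain ⟨s, hs', z'', h4, h5, h6⟩ := ih r (hr.trans hq) z' h1
        ((fMem_mono hm hr).congr_left h3) hc' (h2.mono le_rfl subset_rfl (by
          rintro x ⟨hx | rfl | hx, hx'⟩
          exacts [Or.inl hx, (hx' rfl).elim, Or.inr hx]))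
      exact ⟨s, hs'.trans hr, z'', h4, h5, (h3.mono hs').trans h6⟩

theorem redT (h : Ctx Z p n₀ T₀ E₀) {D : Set K} (hD : D.Finite) :
    ∀ q ≤ p, ∀ z n, n₀ ≤ n → HS FZ z → FMem z Z q → Sp n (T₀ ∪ D) E₀ z →
      ∃ r ≤ q, ∃ n' z', n₀ ≤ n' ∧ HS FZ z' ∧ Sp n' T₀ E₀ z' ∧ FEq z z' r := by
  induction D, hD using Set.Finite.induction_on with
  | empty =>
    exact fun q _ z n hn hz _ hs => ⟨q, le_rfl, n, z, hn, hz, by simpa using hs, FEq.refl _ _⟩
  | @insert b D hb hD ih =>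
    intro q hq z n hn hz hm hs
    by_cases hb₀ : b ∈ T₀
    · refine ih q hq z n hn hz hm (hs.mono le_rfl ?_ subset_rfl)
      rintro x (hx | rfl | hx)
      exacts [Or.inl hx, Or.inl hb₀, Or.inr hx]
    · obtain ⟨r, hr, n', z', h0, h1, h2, h3⟩ := stepC h hq hz hm (h.finT.union (hD.insert b)) hn
        Set.subset_union_left hs (Or.inr (Set.mem_insert _ _)) hb₀
      obtain ⟨s, hs', n'', z'', h7, h4, h5, h6⟩ := ih r (hr.trans hq) z' n' (hn.trans h0) h1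
        ((fMem_mono hm hr).congr_left h3) (h2.mono le_rfl (by
          rintro x ⟨hx | rfl | hx, hx'⟩
          exacts [Or.inl hx, (hx' rfl).elim, Or.inr hx]) subset_rfl)
      exact ⟨s, hs'.trans hr, n'', z'', h7, h4, h5, (h3.mono hs').trans h6⟩

theorem red (h : Ctx Z p n₀ T₀ E₀) {q : Cd} (hq : q ≤ p) {z : Name Cd} (hz : HS FZ z)
    (hm : FMem z Z q) : ∃ r ≤ q, ∃ n z', n₀ ≤ n ∧ HS FZ z' ∧ Sp n T₀ E₀ z' ∧ FEq z z' r := by
  obtain ⟨n, T, E, h1, h2, h3, h4, h5, h6, h7⟩ := exists_sp hz n₀ h.finT h.finE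
  obtain ⟨r, hr, z', g1, g2, g3⟩ := redE h h4 h5 q hq z hz hm
    (h6.mono le_rfl (Set.union_subset h3 subset_rfl))
    (h7.mono le_rfl subset_rfl Set.subset_union_right)
  obtain ⟨s, hs, n', z'', k1, k2, k3, k4⟩ := redT h h4 r (hr.trans hq) z' n h1 g1
    ((fMem_mono hm hr).congr_left g3) (g2.mono le_rfl Set.subset_union_right subset_rfl)
  exact ⟨s, hs.trans hr, n', z'', k1, k2, k3, (g3.mono hs).trans k4⟩

theorem not_ctx (h : Ctx Z p n₀ T₀ E₀) (hu : Unb FZ p fun x => FMem x Z) : False := by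
  classical
  have step : ∀ (L : {L : Set (Name Cd) // L.Finite}) (q : Cd), ∃ r z,
      ∃ L' : {L : Set (Name Cd) // L.Finite}, L.1 ⊆ L'.1 ∧ r ≤ p ∧ (q ≤ p → r ≤ q) ∧ HS FZ z ∧
        Based E₀ z ∧ FMem z Z (res r E₀) ∧ (∀ c ∈ L.1, FNe z c r) ∧
        ∀ π ∈ Hn n₀ T₀, ∃ c ∈ L'.1, FEq (lift π • z) c (res r E₀) := by
    intro L q
    have hq : (if q ≤ p then q else p) ≤ p := by split_ifs with h1; exacts [h1, le_rfl]
    obtain ⟨r, hr, z, h1, h2, h3⟩ := hu.exists_ne hq (fun _ _ _ ht h => fMem_mono h ht) L.2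
    obtain ⟨s, hs, n, z', g1, g2, g3, g4⟩ := red h (hr.trans hq) h1 h2
    have g5 : FMem z' Z s := (fMem_mono h2 hs).congr_left g4
    obtain ⟨L', k1, k2⟩ := orb h (hs.trans (hr.trans hq)) g2 g5 g1 g3
    refine ⟨s, z', ⟨L.1 ∪ L', L.2.union k1⟩, Set.subset_union_left, hs.trans (hr.trans hq),
      fun h4 => ?_, g2, g3.based, fMem_res h.finE g3.based h.sp.based g5,
      fun c hc t ht e => h3 c hc t (ht.trans hs) ((g4.mono ht).trans e), fun π hπ => ?_⟩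
    · rw [if_pos h4] at hr; exact hs.trans hr
    · obtain ⟨c, hc, e⟩ := k2 π hπ
      exact ⟨c, Or.inr hc, e⟩
  choose r z L' h1 h2 h3 h4 h5 h6 h7 h8 using step
  obtain ⟨e, he⟩ := exists_surjective_nat Cd
  let q : ℕ → Cd := fun j => e j.unpair.2.unpair.1
  let L : ℕ → {L : Set (Name Cd) // L.Finite} := fun j =>
    Nat.rec ⟨∅, Set.finite_empty⟩ (fun j A => L' A (q j)) j
  have hL : Monotone fun j => (L j).1 := monotone_nat_of_le_succ fun j => h1 (L j) (q j)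
  let c : ℕ → Cd := fun j => res (r (L j) (q j)) E₀
  let y : ℕ → Name Cd := fun j => z (L j) (q j)
  have hl : ∀ π ∈ Hn n₀ T₀, lift π ∈ HH n₀ T₀ E₀ := fun π hπ => lift_mem h.cov hπ
  have key : ∀ j j', j < j' → ∀ π ∈ Hn n₀ T₀, ∀ π' ∈ Hn n₀ T₀, ∀ t ≤ c j, t ≤ c j' →
      ¬ FEq (lift π • y j) (lift π' • y j') t := by
    intro j j' hj π hπ π' hπ' t t1 t2 e1
    have e2 := (on_res t E₀).fEq_smul (inv_mem (hl π' hπ')).2 (fEq_res h.finE
      ((h5 _ _).smul_HH (hl π hπ)) ((h5 _ _).smul_HH (hl π' hπ')) e1)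
    rw [inv_smul_smul, ← mul_smul, ← map_inv, ← map_mul] at e2
    obtain ⟨d, hd, e3⟩ := h8 (L j) (q j) _ (mul_mem (inv_mem hπ') hπ)
    obtain ⟨u, u1, u2⟩ := (on_res t E₀).exists_le ((on_res _ E₀).res_le t2)
    exact h7 (L j') (q j') d (hL (Nat.succ_le_of_lt hj) hd) u u1
      ((e2.mono u2).symm.trans (e3.mono (u2.trans ((on_res _ E₀).res_le t1))))
  have key' : ∀ j j', j ≠ j' → ∀ π ∈ Hn n₀ T₀, ∀ π' ∈ Hn n₀ T₀, ∀ t ≤ c j, t ≤ c j' →
      ¬ FEq (lift π • y j) (lift π' • y j') t := by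
    intro j j' hj π hπ π' hπ' t t1 t2 e1
    rcases lt_or_gt_of_ne hj with h9 | h9
    · exact key j j' h9 π hπ π' hπ' t t1 t2 e1
    · exact key j' j h9 π' hπ' π hπ t t2 t1 e1.symm
  let Y : ℕ → Name Cd := fun i => .mk ({j : ℕ // j.unpair.1 = i} × Hn n₀ T₀)
    (fun x => lift x.2.1 • y x.1.1) fun x => c x.1.1
  refine h.nc p le_rfl (cert_of_fix (HH_mem n₀ h.finT h.finE) Y
    (fun i x => (h4 _ _).smul (HH_le_G (hl _ x.2.2))) (fun i g hg => ?_)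
    (fun i => fMem_sub fun x s _ hs => fMem_mono ?_ hs) (fun i => ?_)
    fun i i' hi => disj_mk fun x x' t _ t1 t2 => key' _ _ ?_ _ x.2.2 _ x'.2.2 t t1 t2)
  · refine fix_mk (H := HH n₀ T₀ E₀) (fun g hg x => ?_) hg
    obtain ⟨⟨π, hπ, g1⟩, g2⟩ := hg
    refine ⟨(x.1, ⟨π * x.2.1, mul_mem hπ x.2.2⟩), ((on_res _ E₀).smul g2).le, ?_⟩
    have := ((h5 (L x.1.1) (q x.1.1)).smul_HH (hl _ x.2.2)).eq_lift h.cov hπ g1 g2
    simpa only [map_mul, mul_smul] using this _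
  · have := (fMem_smul (lift x.2.1) (h6 (L x.1.1) (q x.1.1))).congr_right (h.sp _ (hl _ x.2.2) _)
    rwa [(on_res _ E₀).smul (hl _ x.2.2).2] at this
  · refine unb_of_step (ι := {j : ℕ // j.unpair.1 = i}) (fun j => lift 1 • y j.1)
      (fun j s => s ≤ c j.1) (fun j s t ht h9 => ht.trans h9)
      (fun j s _ h9 => ⟨(h4 _ _).smul (HH_le_G (hl _ (one_mem _))),
        fMem_mk (c := fun x : {j : ℕ // j.unpair.1 = i} × Hn n₀ T₀ => c x.1.1) (j, 1) h9⟩)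
      (fun j j' hj s _ s1 s2 => key' _ _ (fun e => hj (Subtype.ext e)) _ (one_mem _) _
        (one_mem _) s s1 s2) fun s hs J hJ => ?_
    obtain ⟨m, rfl⟩ := he s
    have hinj : Function.Injective fun t : ℕ =>
        (⟨Nat.pair i (Nat.pair m t), by simp⟩ : {j : ℕ // j.unpair.1 = i}) := fun t t' h9 => by
      simpa using h9
    obtain ⟨t, ht⟩ := (hJ.preimage hinj.injOn).exists_notMem
    refine ⟨_, ht, r (L (Nat.pair i (Nat.pair m t))) (q (Nat.pair i (Nat.pair m t))), ?_,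
      le_res _ _⟩
    have e1 : q (Nat.pair i (Nat.pair m t)) = e m := by simp [q]
    have := h3 (L (Nat.pair i (Nat.pair m t))) (q (Nat.pair i (Nat.pair m t))) (e1 ▸ hs)
    exact e1 ▸ this
  · exact fun e1 => hi (x.1.2.symm.trans (e1 ▸ x'.1.2))

theorem core {Z : Name Cd} (hZ : HS FZ Z) (p : Cd) (hu : Unb FZ p fun x => FMem x Z) :
    ∃ q ≤ p, Cert FZ q Z := by
  by_contra hn
  obtain ⟨n, T, E, -, -, h3, h4, h5, h6, h7⟩ := exists_sp hZ 0 Set.finite_empty (finite_supp p)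
  exact not_ctx ⟨h4, h5, h6, h7, (on_supp p).mono h3, fun q hq h => hn ⟨q, hq, h⟩⟩ hu

end Pool.Agent.P.MP_fb2f7f_lc.ZF
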