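import Pool.Agent.Lib.PosetForcing.Tools
import Pool.Agent.Lib.PermModel.Model

/-! Symmetric extensions, part 1: a group acting on names, hereditarily symmetric names and the
class of their values. -/

set_option linter.unusedSectionVars false

namespace Pool.Agent.SymExt

open Pool.Agent.Lib.PosetForcing Pool.Agent.Lib.PermModel

/-- The action is monotone. -/
class Mono (Γ P : Type) [Preorder P] [SMul Γ P] : Prop where
  mono : ∀ (g : Γ) (p q : P), p ≤ q → g • p ≤ g • q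

section act
variable {P Γ : Type} [Group Γ] [MulAction Γ P]

/-- The action on names. -/
def act (g : Γ) : Name P → Name P
  | .mk ι A c => .mk ι (fun i => act g (A i)) (fun i => g • c i)

theorem act_one (a : Name P) : act (1 : Γ) a = a := by
  induction a with
  | mk ι A c ih => simp only [act, ih, one_smul]

theorem act_mul (g h : Γ) (a : Name P) : act (g * h) a = act g (act h a) := by
  induction a with
  | mk ι A c ih => simp only [act, ih, mul_smul]

instance : MulAction Γ (Name P) where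
  smul := act
  one_smul := act_one
  mul_smul := act_mul

theorem smul_mk (g : Γ) (ι : Type) (A : ι → Name P) (c : ι → P) :
    g • Name.mk ι A c = .mk ι (fun i => g • A i) (fun i => g • c i) := rfl

variable [Preorder P] [Mono Γ P]

theorem smul_le (g : Γ) {p q : P} (h : p ≤ q) : g • p ≤ g • q := Mono.mono g p q h

theorem smul_le_iff (g : Γ) {p q : P} : g • p ≤ g • q ↔ p ≤ q :=
  ⟨fun h => by simpa using smul_le g⁻¹ h, smul_le g⟩

theorem le_smul_iff (g : Γ) {p q : P} : p ≤ g • q ↔ g⁻¹ • p ≤ q := by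
  rw [← smul_le_iff g⁻¹, inv_smul_smul]

theorem smul_le_of (g : Γ) {p q : P} (h : p ≤ g⁻¹ • q) : g • p ≤ q := by
  simpa using smul_le g h

theorem fEq_smul (g : Γ) {a b : Name P} {p : P} (h : FEq a b p) : FEq (g • a) (g • b) (g • p) := by
  induction a generalizing b p with
  | mk ι A c ih =>
    cases b with
    | mk κ B d =>
      refine ⟨fun i q hq hc => ?_, fun j q hq hc => ?_⟩
      · obtain ⟨r, hr, j, h1, h2⟩ := h.1 i (g⁻¹ • q) ((le_smul_iff g).1 hq) ((le_smul_iff g).1 hc)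
        exact ⟨g • r, smul_le_of g hr, j, smul_le g h1, ih i h2⟩
      · obtain ⟨r, hr, i, h1, h2⟩ := h.2 j (g⁻¹ • q) ((le_smul_iff g).1 hq) ((le_smul_iff g).1 hc)
        exact ⟨g • r, smul_le_of g hr, i, smul_le g h1, ih i h2⟩

theorem fEq_smul_iff (g : Γ) {a b : Name P} {p : P} : FEq (g • a) (g • b) (g • p) ↔ FEq a b p :=
  ⟨fun h => by simpa using fEq_smul g⁻¹ h, fEq_smul g⟩

theorem fMem_smul (g : Γ) {a b : Name P} {p : P} (h : FMem a b p) :
    FMem (g • a) (g • b) (g • p) := by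
  cases b with
  | mk κ B d =>
    intro q hq
    obtain ⟨r, hr, j, h1, h2⟩ := h (g⁻¹ • q) ((le_smul_iff g).1 hq)
    exact ⟨g • r, smul_le_of g hr, j, smul_le g h1, fEq_smul g h2⟩

theorem fMem_smul_iff (g : Γ) {a b : Name P} {p : P} :
    FMem (g • a) (g • b) (g • p) ↔ FMem a b p :=
  ⟨fun h => by simpa using fMem_smul g⁻¹ h, fMem_smul g⟩

/-- The action on ultrafilters. -/
def gact (g : Γ) (U : Gen P) : Gen P :=
  ⟨U.ult.map (g • ·), fun D h1 h2 => U.dense_mem ((g • ·) ⁻¹' D)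
    (fun _ _ hab ha => h1 (smul_le g hab) ha) fun p => by
      obtain ⟨q, hq, h⟩ := h2 (g • p)
      exact ⟨g⁻¹ • q, (le_smul_iff g).1 hq, by simpa using h⟩⟩

theorem mem_gact (g : Γ) (U : Gen P) (S : Set P) :
    S ∈ (gact g U).ult ↔ {p | g • p ∈ S} ∈ U.ult := Iff.rfl

theorem gact_surj (g : Γ) (U : Gen P) : ∃ V, gact g V = U := by
  refine ⟨gact g⁻¹ U, ?_⟩
  obtain ⟨u, hu⟩ := U
  simp only [gact, Gen.mk.injEq]
  ext S
  simp [Ultrafilter.mem_map, Set.preimage]

theorem iic_gact (g : Γ) (U : Gen P) (p : P) :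
    Set.Iic (g • p) ∈ (gact g U).ult ↔ Set.Iic p ∈ U.ult := by
  rw [mem_gact]
  simp only [Set.mem_Iic, smul_le_iff]
  rfl

theorem val_eq_gact (g : Γ) (U : Gen P) (a b : Name P) :
    (g • a).val (gact g U) = (g • b).val (gact g U) ↔ a.val U = b.val U := by
  rw [val_eq_iff, val_eq_iff, mem_gact]
  simp only [Set.mem_ofPred_eq, fEq_smul_iff]

theorem val_mem_gact (g : Γ) (U : Gen P) (a b : Name P) :
    Mod.mem ((g • a).val (gact g U)) ((g • b).val (gact g U)) ↔ Mod.mem (a.val U) (b.val U) := by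
  rw [val_mem_iff, val_mem_iff, mem_gact]
  simp only [Set.mem_ofPred_eq, fMem_smul_iff]

theorem forces_smul (g : Γ) {p : P} {Φ Ψ : Gen P → Prop} (h : Forces p Φ)
    (e : ∀ U, Φ U → Ψ (gact g U)) : Forces (g • p) Ψ := by
  intro U hU
  obtain ⟨V, rfl⟩ := gact_surj g U
  exact e V (h V ((iic_gact g V p).1 hU))

/-- `g` is forced to fix the name `a`. -/
def Fix (g : Γ) (a : Name P) : Prop := ∀ p : P, FEq (g • a) a p

omit [Mono Γ P] in
theorem Fix.val {g : Γ} {a : Name P} (h : Fix g a) (U : Gen P) : (g • a).val U = a.val U :=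
  val_eq_iff.2 (Filter.univ_mem' h)

omit [Mono Γ P] in
theorem fix_of_val {g : Γ} {a : Name P} (h : ∀ U : Gen P, (g • a).val U = a.val U) : Fix g a :=
  fun p => forces_eq_iff.1 (Forces.of_forall h p)

theorem fEq_smul_all (g : Γ) {a b : Name P} (h : ∀ p, FEq a b p) (p : P) :
    FEq (g • a) (g • b) p := by
  simpa using fEq_smul g (h (g⁻¹ • p))

theorem Fix.conj {g l : Γ} {a : Name P} (h : Fix (g⁻¹ * l * g) a) : Fix l (g • a) := by
  intro p
  have := fEq_smul_all g h p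
  rwa [mul_smul, mul_smul, smul_inv_smul] at this

theorem Fix.mul {g l : Γ} {a : Name P} (h : Fix g a) (h' : Fix l a) : Fix (g * l) a := by
  intro p
  rw [mul_smul]
  exact (fEq_smul_all g h' p).trans (h p)

theorem Fix.inv {g : Γ} {a : Name P} (h : Fix g a) : Fix g⁻¹ a := by
  intro p
  have := fEq_smul_all g⁻¹ h p
  rw [inv_smul_smul] at this
  exact this.symm

omit [Mono Γ P] in
theorem fix_one (a : Name P) : Fix (1 : Γ) a := fun p => by rw [one_smul]; exact FEq.refl _ _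

/-- A name whose extension is an invariant property is fixed. -/
theorem fix_of_inv {g : Γ} {t : Name P} {Φ : ∀ U : Gen P, Mod U → Prop}
    (ht : ∀ U x, Mod.mem x (t.val U) ↔ Φ U x)
    (h : ∀ (a : Name P) U, Φ (gact g U) ((g • a).val (gact g U)) ↔ Φ U (a.val U)) : Fix g t := by
  refine fix_of_val fun U => ?_
  obtain ⟨V, rfl⟩ := gact_surj g U
  refine Mod.ext _ _ fun z => ?_
  obtain ⟨a, rfl⟩ := z.exists_name
  obtain ⟨b, rfl⟩ : ∃ b : Name P, a = g • b := ⟨g⁻¹ • a, by simp⟩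
  rw [val_mem_gact, ht, ht, h]

end act

/-- A base of a normal filter of subgroups. -/
structure NFil (Γ : Type) [Group Γ] where
  G : Subgroup Γ
  B : Set (Subgroup Γ)
  le : ∀ H ∈ B, H ≤ G
  ne : B.Nonempty
  inter : ∀ H ∈ B, ∀ K ∈ B, ∃ L ∈ B, L ≤ H ∧ L ≤ K
  conj : ∀ g ∈ G, ∀ H ∈ B, ∃ L ∈ B, ∀ l ∈ L, g⁻¹ * l * g ∈ H

variable {P Γ : Type} [Group Γ] [MulAction Γ P] [Preorder P] [Mono Γ P] (F : NFil Γ)

/-- Symmetric names. -/
def Sym (a : Name P) : Prop := ∃ H ∈ F.B, ∀ g ∈ H, Fix g a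

/-- Hereditarily symmetric names. -/
def HS : Name P → Prop
  | .mk ι A c => Sym F (.mk ι A c) ∧ ∀ i, HS (A i)

/-- Names that are locally equal to hereditarily symmetric names. -/
def LHS (a : Name P) : Prop := ∀ p, ∃ q ≤ p, ∃ s, HS F s ∧ FEq a s q

variable {F}

theorem hs_iff (a : Name P) : HS F a ↔ Sym F a ∧ ∀ i, HS F (a.el i) := by cases a; rfl

theorem HS.sym {a : Name P} (h : HS F a) : Sym F a := ((hs_iff a).1 h).1

theorem HS.el {a : Name P} (h : HS F a) (i : a.idx) : HS F (a.el i) := ((hs_iff a).1 h).2 i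

theorem Sym.smul {a : Name P} (h : Sym F a) {g : Γ} (hg : g ∈ F.G) : Sym F (g • a) := by
  obtain ⟨H, hH, h⟩ := h
  obtain ⟨L, hL, hl⟩ := F.conj g hg H hH
  exact ⟨L, hL, fun l hl' => (h _ (hl l hl')).conj⟩

theorem HS.smul {a : Name P} (h : HS F a) {g : Γ} (hg : g ∈ F.G) : HS F (g • a) := by
  induction a with
  | mk ι A c ih => exact ⟨h.1.smul hg, fun i => ih i (h.2 i)⟩

theorem HS.lhs {a : Name P} (h : HS F a) : LHS F a := fun p => ⟨p, le_rfl, a, h, FEq.refl _ _⟩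

theorem LHS.smul {a : Name P} (h : LHS F a) {g : Γ} (hg : g ∈ F.G) : LHS F (g • a) := by
  intro p
  obtain ⟨q, hq, s, h1, h2⟩ := h (g⁻¹ • p)
  exact ⟨g • q, smul_le_of g hq, g • s, h1.smul hg, fEq_smul g h2⟩

/-- The empty name. -/
def emp : Name P := .mk PEmpty PEmpty.elim PEmpty.elim

omit [Preorder P] [Mono Γ P] in
theorem smul_emp (g : Γ) : g • (emp : Name P) = emp := by
  rw [emp, smul_mk]
  congr 1 <;> funext i <;> exact i.elim

theorem hs_emp : HS F (emp : Name P) := by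
  obtain ⟨H, hH⟩ := F.ne
  exact ⟨⟨H, hH, fun g _ p => by
    rw [show g • Name.mk _ _ _ = emp from smul_emp g]; exact FEq.refl _ _⟩,
    fun i => i.elim⟩

omit [Mono Γ P] in
theorem lhs_mix {S : Set P} (hS : ∀ p ∈ S, ∀ q ∈ S, ∀ r, r ≤ p → r ≤ q → p = q) (b : P → Name P)
    (h0 : HS F (emp : Name P)) (hb : ∀ p ∈ S, ∀ q ≤ p, ∃ r ≤ q, ∃ s, HS F s ∧ FEq (b p) s r) :
    LHS F (mix S b) := by
  intro q
  by_cases h : ∃ p ∈ S, ∃ r, r ≤ p ∧ r ≤ q
  · obtain ⟨p, hp, r, h1, h2⟩ := h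
    obtain ⟨t, ht, s, h3, h4⟩ := hb p hp r h1
    exact ⟨t, ht.trans h2, s, h3, ((mix_eq hS b hp).mono (ht.trans h1)).trans h4⟩
  · refine ⟨q, le_rfl, emp, h0, (fEq_iff _ _ _).2 ⟨?_, fun j => j.elim⟩⟩
    rintro ⟨⟨p, hp⟩, i, r, h1, h2⟩ t ht hc
    exact absurd ⟨p, hp, t, le_trans hc h1, ht⟩ h

variable (F)

/-- The names used for the symmetric model. -/
def SN (P : Type) [MulAction Γ P] [Preorder P] : Type 1 := {a : Name P // LHS F a}

/-- Membership in the symmetric model. -/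
def InN (U : Gen P) (x : Mod U) : Prop := ∃ a : SN F P, a.1.val U = x

/-- The symmetric model. -/
def NM (U : Gen P) : Type 1 := {x : Mod U // InN F U x}

/-- The symmetric model as a structure without atoms. -/
def str (U : Gen P) : Str (NM F U) := ⟨fun x y => Mod.mem x.1 y.1, fun _ => False⟩

variable {F}

/-- The value of a name in the symmetric model. -/
def SN.v (a : SN F P) (U : Gen P) : NM F U := ⟨a.1.val U, a, rfl⟩

/-- A hereditarily symmetric name as a name for the symmetric model. -/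
def HS.sn {a : Name P} (h : HS F a) : SN F P := ⟨a, fun p => ⟨p, le_rfl, a, h, FEq.refl _ _⟩⟩

/-- The action on names for the symmetric model. -/
def SN.sm {g : Γ} (hg : g ∈ F.G) (a : SN F P) : SN F P := ⟨g • a.1, a.2.smul hg⟩

omit [Mono Γ P] in
theorem NM.exists_name {U : Gen P} (x : NM F U) : ∃ a : SN F P, a.v U = x := by
  obtain ⟨x, a, rfl⟩ := x
  exact ⟨a, rfl⟩

omit [Mono Γ P] in
theorem v_eq_iff {U : Gen P} {a b : SN F P} : a.v U = b.v U ↔ a.1.val U = b.1.val U :=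
  Subtype.ext_iff

omit [Mono Γ P] in
theorem v_mem_iff {U : Gen P} {a b : SN F P} :
    (str F U).mem (a.v U) (b.v U) ↔ Mod.mem (a.1.val U) (b.1.val U) := Iff.rfl

theorem inN_iff (U : Gen P) (b : Name P) :
    InN F U (b.val U) ↔ {p | ∃ s, HS F s ∧ FEq b s p} ∈ U.ult := by
  constructor
  · rintro ⟨a, ha⟩
    have h1 : {p | ∃ s, HS F s ∧ FEq a.1 s p} ∈ U.ult :=
      U.dense_mem _ (fun _ _ hab ⟨s, h1, h2⟩ => ⟨s, h1, h2.mono hab⟩) a.2
    filter_upwards [h1, val_eq_iff.1 ha] with p ⟨s, h2, h3⟩ h4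
    exact ⟨s, h2, h4.symm.trans h3⟩
  · intro h
    obtain ⟨S, hSD, hS, hmax⟩ := exists_max_antichain {p | ∃ s, HS F s ∧ FEq b s p}
    refine ⟨⟨mix S fun _ => b, lhs_mix hS _ hs_emp fun p hp q hq => ?_⟩, val_eq_iff.2 ?_⟩
    · obtain ⟨s, h1, h2⟩ := hSD hp
      exact ⟨q, le_rfl, s, h1, h2.mono hq⟩
    · filter_upwards [h] with p ⟨s, h1, h2⟩
      refine FEq.of_dn fun q hq => ?_
      obtain ⟨p', hp', r, h3, h4⟩ := hmax q ⟨s, h1, h2.mono hq⟩
      exact ⟨r, h4, (mix_eq hS (fun _ => b) hp').mono h3⟩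

instance clopen_inN (b : Name P) : Clopen fun U : Gen P => InN F U (b.val U) :=
  .of_iff (fun _ _ hq ⟨s, h1, h2⟩ => ⟨s, h1, h2.mono hq⟩) fun U => inN_iff U b

theorem InN.trans {U : Gen P} {x y : Mod U} (hy : InN F U y) (h : Mod.mem x y) : InN F U x := by
  obtain ⟨a, rfl⟩ := hy
  refine of_forces_all (Φ := fun U => ∀ x, Mod.mem x (a.1.val U) → InN F U x) (fun p => ?_) U x h
  obtain ⟨q, hq, s, h1, h2⟩ := a.2 p
  refine ⟨q, hq, (forces_eq_iff.2 h2).imp fun U h => ?_⟩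
  rw [h]
  exact forall_mem (Φ := fun U x => InN F U x)
    (fun i r _ => ⟨r, le_rfl, Forces.of_forall (fun U => ⟨(h1.el i).sn, rfl⟩) r⟩) U

instance clopen_veq (a b : SN F P) : Clopen fun U : Gen P => a.v U = b.v U :=
  Clopen.congr (Φ := fun U => a.1.val U = b.1.val U) fun _ => v_eq_iff

instance clopen_vne (a b : SN F P) : Clopen fun U : Gen P => a.v U ≠ b.v U := clopen_not _

instance clopen_vmem (a b : SN F P) : Clopen fun U : Gen P => (str F U).mem (a.v U) (b.v U) :=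
  clopen_mem a.1 b.1

instance clopen_vatm (a : SN F P) : Clopen fun U : Gen P => (str F U).atm (a.v U) :=
  clopen_const False

instance clopen_veq' (a : SN F P) (b : Name P) :
    Clopen fun U : Gen P => (a.v U).1 = b.val U := clopen_eq a.1 b

instance clopen_vmem' (a : SN F P) (b : Name P) :
    Clopen fun U : Gen P => Mod.mem (a.v U).1 (b.val U) := clopen_mem a.1 b

/-- The maximum principle for the symmetric model. -/
theorem max_principleN (Φ : ∀ U : Gen P, NM F U → Prop)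
    [∀ a : SN F P, Clopen fun U => Φ U (a.v U)] :
    ∃ a : SN F P, ∀ U, (∃ x, Φ U x) → Φ U (a.v U) := by
  classical
  obtain ⟨S, hSD, hS, hmax⟩ := exists_max_antichain
    {p | ∃ b : SN F P, Forces p fun U => Φ U (b.v U)}
  have : ∀ p : P, ∃ b : SN F P, p ∈ S → Forces p fun U => Φ U (b.v U) := by
    intro p
    by_cases hp : p ∈ S
    · obtain ⟨b, hb⟩ := hSD hp
      exact ⟨b, fun _ => hb⟩
    · exact ⟨hs_emp.sn, fun h => absurd h hp⟩
  choose b hb using this
  let m : SN F P := ⟨mix S fun p => (b p).1, lhs_mix hS _ hs_emp fun p _ q _ => (b p).2 q⟩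
  refine ⟨m, ?_⟩
  rintro U ⟨x, hx⟩
  obtain ⟨c, rfl⟩ := x.exists_name
  refine of_truth (Φ := fun U => Φ U (m.v U))
    (Filter.mem_of_superset (truth (Φ := fun U => Φ U (c.v U)) hx) fun p hp => ?_)
  refine Forces.of_dn fun q hq => ?_
  obtain ⟨p', hp', r, h1, h2⟩ := hmax q ⟨c, Forces.mono hp hq⟩
  refine ⟨r, h2, (((hb p' hp').and
    (forces_eq_iff.2 (mix_eq hS (fun p => (b p).1) hp'))).mono h1).imp ?_⟩
  rintro U ⟨h3, h4⟩
  rwa [show m.v U = (b p').v U from v_eq_iff.2 h4]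

instance clopen_existsN (Φ : ∀ U : Gen P, NM F U → Prop)
    [∀ a : SN F P, Clopen fun U => Φ U (a.v U)] : Clopen fun U => ∃ x, Φ U x := by
  obtain ⟨a, ha⟩ := max_principleN Φ
  exact Clopen.congr (Φ := fun U => Φ U (a.v U)) fun U => ⟨ha U, fun h => ⟨_, h⟩⟩

instance clopen_forallN (Φ : ∀ U : Gen P, NM F U → Prop)
    [∀ a : SN F P, Clopen fun U => Φ U (a.v U)] : Clopen fun U => ∀ x, Φ U x :=
  Clopen.congr (Φ := fun U => ¬ ∃ x, ¬ Φ U x) fun _ => by simp

instance clopen_existsUniqueN (Φ : ∀ U : Gen P, NM F U → Prop)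
    [∀ a : SN F P, Clopen fun U => Φ U (a.v U)] : Clopen fun U => ∃! x, Φ U x := by
  unfold ExistsUnique
  infer_instance

/-- A forced existential statement has a hereditarily symmetric witness below. -/
theorem exists_hs {Φ : ∀ U : Gen P, NM F U → Prop}
    [∀ a : SN F P, Clopen fun U => Φ U (a.v U)] {p : P} (h : Forces p fun U => ∃ x, Φ U x) :
    ∃ q ≤ p, ∃ s, ∃ hs : HS F s, Forces q fun U => Φ U (hs.sn.v U) := by
  obtain ⟨a, ha⟩ := max_principleN Φ
  obtain ⟨q, hq, s, h1, h2⟩ := a.2 p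
  refine ⟨q, hq, s, h1, (((h.imp ha).mono hq).and (forces_eq_iff.2 h2)).imp fun U h => ?_⟩
  rw [← show a.v U = h1.sn.v U from v_eq_iff.2 h.2]
  exact h.1

/-- A universal statement is forced as soon as its symmetric instances are forced densely. -/
theorem forces_forallN {Φ : ∀ U : Gen P, NM F U → Prop}
    [∀ a : SN F P, Clopen fun U => Φ U (a.v U)] {p : P}
    (h : ∀ s (hs : HS F s), ∀ q ≤ p, ∃ r ≤ q, Forces r fun U => Φ U (hs.sn.v U)) :
    Forces p fun U => ∀ x, Φ U x := by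
  intro U hU x
  obtain ⟨a, rfl⟩ := x.exists_name
  refine Forces.of_dn (Φ := fun U => Φ U (a.v U)) (fun q hq => ?_) U hU
  obtain ⟨r, hr, s, h1, h2⟩ := a.2 q
  obtain ⟨t, ht, h3⟩ := h s h1 r (hr.trans hq)
  refine ⟨t, ht.trans hr, (h3.and ((forces_eq_iff.2 h2).mono ht)).imp fun U h => ?_⟩
  rw [show a.v U = h1.sn.v U from v_eq_iff.2 h.2]
  exact h.1

theorem forallN {Φ : ∀ U : Gen P, NM F U → Prop}
    [∀ a : SN F P, Clopen fun U => Φ U (a.v U)]
    (h : ∀ s (hs : HS F s) U, Φ U (hs.sn.v U)) (U : Gen P) (x : NM F U) : Φ U x :=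
  of_forces_all (Φ := fun U => ∀ x, Φ U x) (fun p => ⟨p, le_rfl, forces_forallN
    fun s hs q _ => ⟨q, le_rfl, Forces.of_forall (h s hs) q⟩⟩) U x

/-- The isomorphism between the symmetric models of `U` and of its translate. -/
theorem exists_iso {g : Γ} (hg : g ∈ F.G) (U : Gen P) : ∃ e : NM F U ≃ NM F (gact g U),
    (∀ a : SN F P, e (a.v U) = (a.sm hg).v (gact g U)) ∧
      ∀ x y, (str F (gact g U)).mem (e x) (e y) ↔ (str F U).mem x y := by
  choose n hn using fun x : NM F U => x.exists_name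
  have h1 : ∀ a : SN F P, ((n (a.v U)).sm hg).v (gact g U) = (a.sm hg).v (gact g U) := fun a =>
    v_eq_iff.2 ((val_eq_gact g U _ _).2 (v_eq_iff.1 (hn _)))
  refine ⟨Equiv.ofBijective (fun x => ((n x).sm hg).v (gact g U)) ⟨fun x y h => ?_, fun y => ?_⟩,
    h1, fun x y => ?_⟩
  · rw [← hn x, ← hn y]
    exact v_eq_iff.2 ((val_eq_gact g U _ _).1 (v_eq_iff.1 h))
  · obtain ⟨a, rfl⟩ := y.exists_name
    refine ⟨(a.sm (F.G.inv_mem hg)).v U, (h1 _).trans (v_eq_iff.2 ?_)⟩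
    change (g • g⁻¹ • a.1).val _ = _
    rw [smul_inv_smul]
  · conv_rhs => rw [← hn x, ← hn y]
    exact val_mem_gact g U _ _

end Pool.Agent.SymExt
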