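import Pool.Agent.P.MP_fb2f7f_lc.ZF.S1

/-! Symmetric extensions, part 2: comprehension and the axioms of ZF. -/

set_option linter.unusedSectionVars false

namespace Pool.Agent.SymExt

open Pool.Agent.Lib.PosetForcing Pool.Agent.Lib.PermModel

variable {P Γ : Type} [Group Γ] [MulAction Γ P] [Preorder P] [Mono Γ P] {F : NFil Γ}

/-- `e` is the isomorphism induced by `g`. -/
structure IsoN (g : Γ) (U : Gen P) (e : NM F U ≃ NM F (gact g U)) : Prop where
  val : ∀ a : SN F P, (e (a.v U)).1 = (g • a.1).val (gact g U)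
  mem : ∀ x y, (str F (gact g U)).mem (e x) (e y) ↔ (str F U).mem x y

theorem exists_isoN {g : Γ} (hg : g ∈ F.G) (U : Gen P) : ∃ e, IsoN (F := F) g U e := by
  obtain ⟨e, h1, h2⟩ := exists_iso (F := F) hg U
  exact ⟨e, fun a => congrArg Subtype.val (h1 a), h2⟩

theorem IsoN.fix {g : Γ} {U : Gen P} {e : NM F U ≃ NM F (gact g U)} (h : IsoN g U e)
    {a : SN F P} (ha : Fix g a.1) : e (a.v U) = a.v (gact g U) :=
  Subtype.ext ((h.val a).trans (ha.val _))

theorem IsoN.atm {g : Γ} {U : Gen P} {e : NM F U ≃ NM F (gact g U)} (_ : IsoN g U e) (x : NM F U) :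
    (str F (gact g U)).atm (e x) ↔ (str F U).atm x := Iff.rfl

theorem gact_inv (g : Γ) (U : Gen P) : gact g⁻¹ (gact g U) = U := by
  obtain ⟨u, hu⟩ := U
  simp only [gact, Gen.mk.injEq]
  ext S
  simp [Ultrafilter.mem_map, Set.preimage]

instance clopen_iic (p : P) : Clopen fun U : Gen P => Set.Iic p ∈ U.ult :=
  .of_iff (R := fun q => q ≤ p) (fun _ _ h h' => h.trans h') fun _ => Iff.rfl

theorem forces_iic (p : P) : Forces p fun U : Gen P => Set.Iic p ∈ U.ult := fun _ h => h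

theorem extN {U : Gen P} {x y : NM F U} (h : ∀ z, (str F U).mem z x ↔ (str F U).mem z y) :
    x = y :=
  Subtype.ext (Mod.ext _ _ fun z =>
    ⟨fun hz => (h ⟨z, x.2.trans hz⟩).1 hz, fun hz => (h ⟨z, y.2.trans hz⟩).2 hz⟩)

/-- The comprehension name. -/
def cname (b : Name P) (Φ : ∀ U : Gen P, NM F U → Prop) : Name P :=
  sepName b fun U x => ∃ y : NM F U, y.1 = x ∧ Φ U y

/-- Invariance of a property under a subgroup. -/
def Inv (H : Subgroup Γ) (Φ : ∀ U : Gen P, NM F U → Prop) : Prop :=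
  ∀ g ∈ H, ∀ U e, IsoN g U e → ∀ x, Φ U x → Φ (gact g U) (e x)

section comp
variable {Φ : ∀ U : Gen P, NM F U → Prop} [∀ a : SN F P, Clopen fun U => Φ U (a.v U)]
  {b : Name P} {H : Subgroup Γ}

theorem mem_cname (hbd : ∀ U x, Φ U x → Mod.mem x.1 (b.val U)) (U : Gen P) (x : Mod U) :
    Mod.mem x ((cname b Φ).val U) ↔ ∃ y : NM F U, y.1 = x ∧ Φ U y := by
  rw [cname, mem_sepName]
  exact ⟨fun h => h.2, fun ⟨y, h1, h2⟩ => ⟨h1 ▸ hbd U y h2, y, h1, h2⟩⟩

theorem fix_cname (hH : H ∈ F.B) (hbd : ∀ U x, Φ U x → Mod.mem x.1 (b.val U)) (hinv : Inv H Φ)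
    {g : Γ} (hg : g ∈ H) : Fix g (cname b Φ) := by
  have key : ∀ g ∈ H, ∀ (a : Name P) U, (∃ y : NM F U, y.1 = a.val U ∧ Φ U y) →
      ∃ y : NM F (gact g U), y.1 = (g • a).val (gact g U) ∧ Φ _ y := by
    rintro g hg a U ⟨y, h1, h2⟩
    obtain ⟨c, rfl⟩ := y.exists_name
    obtain ⟨e, he⟩ := exists_isoN (F.le H hH hg) U
    exact ⟨e (c.v U), (he.val c).trans ((val_eq_gact g U _ _).2 h1), hinv g hg U e he _ h2⟩
  refine fix_of_inv (mem_cname hbd) fun a U => ⟨fun h => ?_, key g hg a U⟩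
  have h1 := key g⁻¹ (H.inv_mem hg) _ _ h
  rw [inv_smul_smul] at h1
  have h2 : ∀ V, V = U → (∃ y : NM F V, y.1 = a.val V ∧ Φ V y) →
      ∃ y : NM F U, y.1 = a.val U ∧ Φ U y := by rintro _ rfl; exact id
  exact h2 _ (gact_inv g U) h1

theorem hs_cname (hb : ∀ i, HS F (b.el i)) (hH : H ∈ F.B)
    (hbd : ∀ U x, Φ U x → Mod.mem x.1 (b.val U)) (hinv : Inv H Φ) : HS F (cname b Φ) :=
  (hs_iff _).2 ⟨⟨H, hH, fun _ hg => fix_cname hH hbd hinv hg⟩, fun i => hb i.1.1⟩

/-- Bounded invariant properties define sets of the symmetric model. -/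
theorem comp (b : Name P) (hb : ∀ i, HS F (b.el i)) (hH : H ∈ F.B)
    (hbd : ∀ U x, Φ U x → Mod.mem x.1 (b.val U)) (hinv : Inv H Φ) :
    ∃ t, ∃ ht : HS F t, (∀ g ∈ H, Fix g t) ∧ ∀ U, (str F U).IsSetOf (ht.sn.v U) (Φ U) := by
  refine ⟨cname b Φ, hs_cname hb hH hbd hinv, fun g hg => fix_cname hH hbd hinv hg,
    fun U => ⟨id, fun z => (mem_cname hbd U z.1).trans ⟨?_, fun h => ⟨z, rfl, h⟩⟩⟩⟩
  rintro ⟨y, h1, h2⟩
  rwa [← Subtype.ext h1]

theorem forces_forall_memN {s : Name P} (hs : HS F s) {p : P}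
    (h : ∀ i, ∀ q ≤ p, q ≤ s.cond i → ∃ r ≤ q, Forces r fun U => Φ U ((hs.el i).sn.v U)) :
    Forces p fun U => ∀ x, (str F U).mem x (hs.sn.v U) → Φ U x := by
  refine forces_forallN fun t ht q hq => ⟨q, le_rfl, forces_imp fun r hr h1 => ?_⟩
  obtain ⟨r', hr', i, h2, h3⟩ := Forces.exists_el (a := t) (b := s) h1
  obtain ⟨r'', hr'', h4⟩ := h i r' (hr'.trans (hr.trans hq)) h2
  refine ⟨r'', hr''.trans hr', ((h3.mono hr'').and h4).imp fun U h => ?_⟩
  rw [show ht.sn.v U = (hs.el i).sn.v U from v_eq_iff.2 h.1]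
  exact h.2

instance clopen_isSetOf (a : SN F P) :
    Clopen fun U : Gen P => (str F U).IsSetOf (a.v U) (Φ U) := by
  unfold Str.IsSetOf; infer_instance

end comp

theorem fix_mk {ι : Type} {A : ι → Name P} {c : ι → P} {H : Subgroup Γ}
    (h : ∀ g ∈ H, ∀ i, ∃ j, g • c i ≤ c j ∧ FEq (g • A i) (A j) (g • c i)) {g : Γ} (hg : g ∈ H) :
    Fix g (.mk ι A c) := by
  refine fun p => ⟨fun i q _ hc => ?_, fun j q _ hc => ?_⟩
  · obtain ⟨j, h1, h2⟩ := h g hg i
    exact ⟨q, le_rfl, j, le_trans hc h1, h2.mono hc⟩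
  · obtain ⟨i, h1, h2⟩ := h g⁻¹ (H.inv_mem hg) j
    refine ⟨q, le_rfl, i, le_trans hc ((le_smul_iff g).2 h1), ?_⟩
    have := fEq_smul g h2
    rw [smul_inv_smul, smul_inv_smul] at this
    exact this.symm.mono hc

theorem fix_of_perm {a : Name P} {H : Subgroup Γ}
    (h : ∀ g ∈ H, ∀ i, ∃ j, g • a.cond i ≤ a.cond j ∧ ∀ p, FEq (g • a.el i) (a.el j) p) {g : Γ}
    (hg : g ∈ H) : Fix g a := by
  cases a
  exact fix_mk (fun g hg i => (h g hg i).imp fun _ h => ⟨h.1, h.2 _⟩) hg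

theorem collection (R : ∀ U : Gen P, NM F U → NM F U → Prop)
    [∀ a b : SN F P, Clopen fun U => R U (a.v U) (b.v U)] [OrderTop P] {s : Name P}
    (hs : HS F s) : ∃ b : Name P, (∀ i, HS F (b.el i)) ∧ ∀ U x, (str F U).mem x (hs.sn.v U) →
      (∃ y, R U x y) → ∃ y : NM F U, Mod.mem y.1 (b.val U) ∧ R U x y := by
  have : ∀ x : s.idx × P, ∃ t, HS F t ∧ ((∃ t, ∃ ht : HS F t, Forces x.2 fun U =>
      R U ((hs.el x.1).sn.v U) (ht.sn.v U)) → ∃ ht : HS F t, Forces x.2 fun U =>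
      R U ((hs.el x.1).sn.v U) (ht.sn.v U)) := by
    intro x
    by_cases h : ∃ t, ∃ ht : HS F t, Forces x.2 fun U => R U ((hs.el x.1).sn.v U) (ht.sn.v U)
    · obtain ⟨t, ht, h⟩ := h
      exact ⟨t, ht, fun _ => ⟨ht, h⟩⟩
    · exact ⟨emp, hs_emp, fun h' => absurd h' h⟩
  choose B hB hB' using this
  refine ⟨fam B, hB, of_forces_all (Φ := fun U => ∀ x, (str F U).mem x (hs.sn.v U) →
    (∃ y, R U x y) → ∃ y : NM F U, Mod.mem y.1 ((fam B).val U) ∧ R U x y) fun p =>
    ⟨p, le_rfl, forces_forall_memN hs fun i q _ _ => ⟨q, le_rfl, forces_imp fun r _ h => ?_⟩⟩⟩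
  obtain ⟨r', hr', t, ht, h1⟩ := exists_hs (Φ := fun U y => R U ((hs.el i).sn.v U) y) h
  obtain ⟨h2, h3⟩ := hB' (i, r') ⟨t, ht, h1⟩
  exact ⟨r', hr', h3.imp fun U h => ⟨_, mem_fam B (i, r') U, h⟩⟩

theorem v_update (w : ℕ → SN F P) (i : ℕ) (a : SN F P) (U : Gen P) :
    Function.update (fun n => (w n).v U) i (a.v U) = fun n => (Function.update w i a n).v U := by
  funext n
  by_cases h : n = i
  · subst h; simp
  · simp [h]

theorem clopen_satN (φ : Fm) (w : ℕ → SN F P) :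
    Clopen fun U : Gen P => (str F U).Sat φ fun n => (w n).v U := by
  induction φ generalizing w with
  | mem i j => exact clopen_vmem _ _
  | eq i j => exact clopen_veq _ _
  | atm i => exact clopen_vatm _
  | neg φ ih => exact @clopen_not _ _ _ (ih w)
  | conj φ ψ ih ih' => exact @clopen_and _ _ _ _ (ih w) (ih' w)
  | all i φ ih =>
    exact @clopen_forallN _ _ _ _ _ _ _
      (fun U x => (str F U).Sat φ (Function.update (fun n => (w n).v U) i x))
      fun a => by simpa only [v_update] using ih _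

theorem iso_sat {M M' : Type 1} {S : Str M} {S' : Str M'} (e : M ≃ M')
    (hm : ∀ x y, S'.mem (e x) (e y) ↔ S.mem x y) (ha : ∀ x, S'.atm (e x) ↔ S.atm x) (φ : Fm)
    (v : ℕ → M) : S'.Sat φ (fun i => e (v i)) ↔ S.Sat φ v := by
  induction φ generalizing v with
  | mem i j => exact hm _ _
  | eq i j => exact e.apply_eq_iff_eq
  | atm i => exact ha _
  | neg φ ih => exact not_congr (ih v)
  | conj φ ψ ih1 ih2 => exact and_congr (ih1 v) (ih2 v)
  | all i φ ih =>
    have h : ∀ x, Function.update (fun i => e (v i)) i (e x) =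
        fun j => e (Function.update v i x j) := by
      intro x; funext j
      by_cases h : j = i
      · subst h; simp
      · simp [h]
    simp only [Str.Sat]
    rw [e.surjective.forall]
    exact forall_congr' fun x => by rw [h, ih]

theorem exists_params (s : Finset ℕ) (w : ℕ → SN F P) (p : P) :
    ∃ q ≤ p, ∃ w' : ℕ → SN F P, ∃ H ∈ F.B, (∀ g ∈ H, ∀ n ∈ s, Fix g (w' n).1) ∧
      Forces q fun U => ∀ n ∈ s, (w' n).v U = (w n).v U := by
  induction s using Finset.induction_on with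
  | empty =>
    obtain ⟨H, hH⟩ := F.ne
    exact ⟨p, le_rfl, w, H, hH, by simp, Forces.of_forall (by simp) p⟩
  | insert m s _ ih =>
    obtain ⟨q, hq, w', H, hH, h1, h2⟩ := ih
    obtain ⟨r, hr, t, ht, h3⟩ := (w m).2 q
    obtain ⟨K, hK, h4⟩ := ht.sym
    obtain ⟨L, hL, h5, h6⟩ := F.inter H hH K hK
    refine ⟨r, hr.trans hq, Function.update w' m ht.sn, L, hL, fun g hg n hn => ?_,
      ((h2.mono hr).and (forces_eq_iff.2 h3)).imp fun U h n hn => ?_⟩
    · by_cases e : n = m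
      · subst e
        rw [Function.update_self]
        exact h4 g (h6 hg)
      · rw [Function.update_of_ne e]
        exact h1 g (h5 hg) n ((Finset.mem_insert.1 hn).resolve_left e)
    · by_cases e : n = m
      · subst e
        rw [Function.update_self]
        exact v_eq_iff.2 h.2.symm
      · rw [Function.update_of_ne e]
        exact h.1 n ((Finset.mem_insert.1 hn).resolve_left e)

theorem with_params (s : Finset ℕ) (Ψ : ∀ U : Gen P, (ℕ → NM F U) → Prop)
    (hc : ∀ w : ℕ → SN F P, Clopen fun U => Ψ U fun n => (w n).v U)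
    (hs : ∀ U v v', (∀ n ∈ s, v n = v' n) → Ψ U v → Ψ U v')
    (h : ∀ (w : ℕ → SN F P), ∀ H ∈ F.B, (∀ g ∈ H, ∀ n ∈ s, Fix g (w n).1) →
      ∀ U, Ψ U fun n => (w n).v U) (U : Gen P) (v : ℕ → NM F U) : Ψ U v := by
  choose w hw using fun n => (v n).exists_name
  obtain rfl : v = fun n => (w n).v U := funext fun n => (hw n).symm
  refine of_forces_all (Φ := fun U => Ψ U fun n => (w n).v U) (fun p => ?_) U
  obtain ⟨q, hq, w', H, hH, h1, h2⟩ := exists_params s w p
  exact ⟨q, hq, h2.imp fun U e => hs U _ _ e (h w' H hH h1 U)⟩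

variable [OrderTop P]

theorem fix_fam {ι : Type} {A : ι → Name P} {H : Subgroup Γ}
    (h : ∀ g ∈ H, ∀ i, ∃ j, ∀ p, FEq (g • A i) (A j) p) {g : Γ} (hg : g ∈ H) :
    Fix g (fam A) :=
  fix_mk (fun g hg i => (h g hg i).imp fun _ h => ⟨le_top, h _⟩) hg

theorem hs_fam {ι : Type} {A : ι → Name P} (hA : ∀ i, HS F (A i)) {H : Subgroup Γ} (hH : H ∈ F.B)
    (h : ∀ g ∈ H, ∀ i, ∃ j, ∀ p, FEq (g • A i) (A j) p) : HS F (fam A) :=
  ⟨⟨H, hH, fun _ hg => fix_fam h hg⟩, hA⟩

theorem fix_natName (n : ℕ) (g : Γ) : Fix g (natName n : Name P) := by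
  induction n using Nat.strong_induction_on generalizing g with
  | _ n ih =>
    rw [natName.eq_1]
    exact fix_fam (H := ⊤) (fun g _ i => ⟨i, ih _ i.down.2 g⟩) trivial

theorem hs_natName (n : ℕ) : HS F (natName n : Name P) := by
  obtain ⟨H, hH⟩ := F.ne
  induction n using Nat.strong_induction_on with
  | _ n ih =>
    rw [natName.eq_1]
    exact hs_fam (fun i => ih _ i.down.2) hH fun g _ i => ⟨i, fix_natName _ g⟩

theorem fix_omega (g : Γ) : Fix g (omegaName : Name P) :=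
  fix_fam (H := ⊤) (fun g _ i => ⟨i, fix_natName _ g⟩) trivial

theorem hs_omega : HS F (omegaName : Name P) := by
  obtain ⟨H, hH⟩ := F.ne
  exact hs_fam (fun i => hs_natName _) hH fun g _ i => ⟨i, fix_natName _ g⟩

theorem fix_upair {a b : Name P} {g : Γ} (ha : Fix g a) (hb : Fix g b) :
    Fix g (upairName a b) := by
  refine fun p => ⟨fun i q _ _ => ⟨q, le_rfl, i, le_top, ?_⟩,
    fun i q _ _ => ⟨q, le_rfl, i, (le_smul_iff g).2 le_top, ?_⟩⟩ <;>
  · rcases i with ⟨_ | _⟩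
    exacts [hb q, ha q]

theorem hs_upair {a b : Name P} (ha : HS F a) (hb : HS F b) : HS F (upairName a b) := by
  obtain ⟨H, hH, h1⟩ := ha.sym
  obtain ⟨K, hK, h2⟩ := hb.sym
  obtain ⟨L, hL, h3, h4⟩ := F.inter H hH K hK
  exact ⟨⟨L, hL, fun g hg => fix_upair (h1 g (h3 hg)) (h2 g (h4 hg))⟩,
    by rintro ⟨_ | _⟩; exacts [hb, ha]⟩

theorem fix_pair {a b : Name P} {g : Γ} (ha : Fix g a) (hb : Fix g b) : Fix g (pairName a b) :=
  fix_upair (fix_upair ha ha) (fix_upair ha hb)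

theorem hs_pair {a b : Name P} (ha : HS F a) (hb : HS F b) : HS F (pairName a b) :=
  hs_upair (hs_upair ha ha) (hs_upair ha hb)

theorem ind_iff {U : Gen P} (I : NM F U) : (str F U).Ind I ↔ IsInductive Mod.mem I.1 := by
  constructor
  · rintro ⟨⟨e, h1, h2⟩, h3⟩
    refine ⟨⟨e.1, h2, fun x hx => (h1.2 ⟨x, e.2.trans hx⟩).1 hx⟩, fun x hx => ?_⟩
    obtain ⟨y, h4, h5⟩ := h3 ⟨x, I.2.trans hx⟩ hx
    refine ⟨y.1, h5, fun z => ⟨fun hz => ?_, fun hz => ?_⟩⟩
    · exact ((h4.2 ⟨z, y.2.trans hz⟩).1 hz).imp id (congrArg Subtype.val)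
    · rcases hz with hz | rfl
      · exact (h4.2 ⟨z, (I.2.trans hx).trans hz⟩).2 (Or.inl hz)
      · exact (h4.2 ⟨z, I.2.trans hx⟩).2 (Or.inr rfl)
  · rintro ⟨⟨e, h1, h2⟩, h3⟩
    refine ⟨⟨⟨e, I.2.trans h1⟩, ⟨id, fun z => ⟨h2 z.1, False.elim⟩⟩, h1⟩, fun x hx => ?_⟩
    obtain ⟨y, h4, h5⟩ := h3 x.1 hx
    exact ⟨⟨y, I.2.trans h4⟩, ⟨id, fun z => (h5 z.1).trans (or_congr Iff.rfl
      Subtype.ext_iff.symm)⟩, h4⟩

theorem isNat_iff {U : Gen P} (x : NM F U) :
    (str F U).IsNat x ↔ Mod.mem x.1 (omegaName.val U) :=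
  ⟨fun h => h (hs_omega.sn.v U) ((ind_iff _).2 (omega_inductive U)),
    fun h I hI => (isOmega_omega U).2 I.1 ((ind_iff I).1 hI) x.1 h⟩

theorem pairN (U : Gen P) (x y : NM F U) :
    ∃ d, (str F U).IsSetOf d fun z => z = x ∨ z = y := by
  refine forallN (Φ := fun U x => ∀ y, ∃ d, (str F U).IsSetOf d fun z => z = x ∨ z = y)
    (fun s hs U y => forallN (Φ := fun U y =>
      ∃ d, (str F U).IsSetOf d fun z => z = hs.sn.v U ∨ z = y) (fun t ht U => ?_) U y) U x y
  obtain ⟨H, hH, h1⟩ := hs.sym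
  obtain ⟨K, hK, h2⟩ := ht.sym
  obtain ⟨L, hL, h3, h4⟩ := F.inter H hH K hK
  obtain ⟨d, hd, -, h⟩ := comp (Φ := fun U z => z = hs.sn.v U ∨ z = ht.sn.v U) (upairName s t)
    (by rintro ⟨_ | _⟩; exacts [ht, hs]) hL
    (fun U x hx => (mem_upairName s t U _).2 (hx.imp (congrArg Subtype.val)
      (congrArg Subtype.val))) (by
      rintro g hg U e he x (rfl | rfl)
      · exact Or.inl (he.fix (h1 g (h3 hg)))
      · exact Or.inr (he.fix (h2 g (h4 hg))))
  exact ⟨_, h U⟩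

theorem unionN (U : Gen P) (x : NM F U) :
    ∃ d, (str F U).IsSetOf d fun z => ∃ y, (str F U).mem y x ∧ (str F U).mem z y := by
  refine forallN (Φ := fun U x =>
    ∃ d, (str F U).IsSetOf d fun z => ∃ y, (str F U).mem y x ∧ (str F U).mem z y)
    (fun s hs U => ?_) U x
  obtain ⟨H, hH, h1⟩ := hs.sym
  obtain ⟨d, hd, -, h⟩ := comp
    (Φ := fun U z => ∃ y, (str F U).mem y (hs.sn.v U) ∧ (str F U).mem z y) (unionName s)
    (fun i => (hs.el i.1).el i.2.1) hH
    (fun U x ⟨y, h1, h2⟩ => (mem_unionName s U _).2 ⟨y.1, h1, h2⟩) (by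
      rintro g hg U e he x ⟨y, h2, h3⟩
      exact ⟨e y, by rw [← he.fix (h1 g hg), he.mem]; exact h2, (he.mem _ _).2 h3⟩)
  exact ⟨_, h U⟩

/-- A family of symmetric names that covers all subsets of a set. -/
theorem exists_pow_bound {s : Name P} (hs : HS F s) : ∃ b : Name P, (∀ i, HS F (b.el i)) ∧
    ∀ U (x : NM F U), (∀ w, (str F U).mem w x → (str F U).mem w (hs.sn.v U)) →
      Mod.mem x.1 (b.val U) := by
  let A : Set (s.idx × P) → Name P := fun S => .mk S (fun x => s.el x.1.1) (fun x => x.1.2)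
  refine ⟨fam fun S : {S // HS F (A S)} => A S.1, fun S => S.2, forallN (Φ := fun U x =>
    (∀ w, (str F U).mem w x → (str F U).mem w (hs.sn.v U)) →
      Mod.mem x.1 ((fam fun S : {S // HS F (A S)} => A S.1).val U)) fun t ht U h => ?_⟩
  obtain ⟨H, hH, h1⟩ := hs.sym
  obtain ⟨K, hK, h2⟩ := ht.sym
  obtain ⟨L, hL, h3, h4⟩ := F.inter H hH K hK
  let Φ : ∀ U : Gen P, NM F U → Prop := fun U z =>
    (str F U).mem z (ht.sn.v U) ∧ (str F U).mem z (hs.sn.v U)
  have hbd : ∀ U x, Φ U x → Mod.mem x.1 (s.val U) := fun U x hx => hx.2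
  have hc : HS F (cname s Φ) := hs_cname hs.el hL hbd (by
    rintro g hg U e he x ⟨h5, h6⟩
    exact ⟨by rw [← he.fix (h2 g (h4 hg)), he.mem]; exact h5,
      by rw [← he.fix (h1 g (h3 hg)), he.mem]; exact h6⟩)
  have e : ht.sn.v U = hc.sn.v U := extN fun z => by
    refine Iff.trans ?_ (mem_cname hbd U z.1).symm
    exact ⟨fun hz => ⟨z, rfl, hz, h z hz⟩, fun ⟨y, h5, h6⟩ => Subtype.ext h5 ▸ h6.1⟩
  rw [e]
  exact mem_fam (fun S : {S // HS F (A S)} => A S.1) ⟨_, hc⟩ U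

theorem powN (U : Gen P) (x : NM F U) : ∃ d, (str F U).IsSetOf d fun z =>
    ¬ (str F U).atm z ∧ ∀ w, (str F U).mem w z → (str F U).mem w x := by
  refine forallN (Φ := fun U x => ∃ d, (str F U).IsSetOf d fun z =>
    ¬ (str F U).atm z ∧ ∀ w, (str F U).mem w z → (str F U).mem w x) (fun s hs U => ?_) U x
  obtain ⟨H, hH, h1⟩ := hs.sym
  obtain ⟨b, hb, hbd⟩ := exists_pow_bound hs
  obtain ⟨d, hd, -, h⟩ := comp (Φ := fun U z =>
    ¬ (str F U).atm z ∧ ∀ w, (str F U).mem w z → (str F U).mem w (hs.sn.v U)) b hb hH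
    (fun U x hx => hbd U x hx.2) (by
      rintro g hg U e he x ⟨-, h3⟩
      refine ⟨id, fun w hw => ?_⟩
      obtain ⟨w, rfl⟩ := e.surjective w
      rw [← he.fix (h1 g hg), he.mem]
      exact h3 w ((he.mem _ _).1 hw))
  exact ⟨_, h U⟩

theorem sepN (φ : Fm) (U : Gen P) (v : ℕ → NM F U) (a : NM F U) : ∃ d, (str F U).IsSetOf d
    fun z => (str F U).mem z a ∧ (str F U).Sat φ (Function.update v 0 z) := by
  have hc : ∀ (w : ℕ → SN F P) (c : SN F P), Clopen fun U =>
      (str F U).Sat φ (Function.update (fun n => (w n).v U) 0 (c.v U)) := fun w c => by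
    simpa only [v_update] using clopen_satN _ _
  refine with_params φ.vars (fun U v => ∀ a, ∃ d, (str F U).IsSetOf d
    fun z => (str F U).mem z a ∧ (str F U).Sat φ (Function.update v 0 z))
    (fun w => inferInstance) (fun U v v' e h a => ?_) (fun w H hH h1 U a => ?_) U v a
  · obtain ⟨d, hd⟩ := h a
    refine ⟨d, id, fun z => (hd.2 z).trans (and_congr_right fun _ =>
      NF.sat_congr _ φ fun i hi => ?_)⟩
    by_cases h0 : i = 0
    · subst h0; simp
    · simp only [Function.update_of_ne h0, e i hi]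
  · refine forallN (Φ := fun U a => ∃ d, (str F U).IsSetOf d fun z => (str F U).mem z a ∧
      (str F U).Sat φ (Function.update (fun n => (w n).v U) 0 z)) (fun s hs U => ?_) U a
    obtain ⟨K, hK, h2⟩ := hs.sym
    obtain ⟨L, hL, h3, h4⟩ := F.inter H hH K hK
    obtain ⟨d, hd, -, h⟩ := comp (Φ := fun U z => (str F U).mem z (hs.sn.v U) ∧
      (str F U).Sat φ (Function.update (fun n => (w n).v U) 0 z)) s hs.el hL
      (fun U x hx => hx.1) (by
        rintro g hg U e he x ⟨h5, h6⟩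
        refine ⟨by rw [← he.fix (h2 g (h4 hg)), he.mem]; exact h5, ?_⟩
        rw [← iso_sat e he.mem he.atm] at h6
        refine (NF.sat_congr _ φ fun i hi => ?_).1 h6
        by_cases h0 : i = 0
        · subst h0; simp
        · simp only [Function.update_of_ne h0]
          exact he.fix (h1 g (h3 hg) i hi))
    exact ⟨_, h U⟩

theorem replN (φ : Fm) (U : Gen P) (v : ℕ → NM F U) (a : NM F U)
    (hu : ∀ x, (str F U).mem x a →
      ∃! y, (str F U).Sat φ (Function.update (Function.update v 0 x) 1 y)) :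
    ∃ d, (str F U).IsSetOf d fun y => ∃ x, (str F U).mem x a ∧
      (str F U).Sat φ (Function.update (Function.update v 0 x) 1 y) := by
  have hc : ∀ (w : ℕ → SN F P) (c c' : SN F P), Clopen fun U => (str F U).Sat φ
      (Function.update (Function.update (fun n => (w n).v U) 0 (c.v U)) 1 (c'.v U)) :=
    fun w c c' => by simpa only [v_update] using clopen_satN _ _
  refine with_params φ.vars (fun U v => ∀ a, (∀ x, (str F U).mem x a →
      ∃! y, (str F U).Sat φ (Function.update (Function.update v 0 x) 1 y)) →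
    ∃ d, (str F U).IsSetOf d fun y => ∃ x, (str F U).mem x a ∧
      (str F U).Sat φ (Function.update (Function.update v 0 x) 1 y))
    (fun w => inferInstance) (fun U v v' e h a hu => ?_) (fun w H hH h1 U a => ?_) U v a hu
  · have e' : ∀ x y, (str F U).Sat φ (Function.update (Function.update v 0 x) 1 y) ↔
        (str F U).Sat φ (Function.update (Function.update v' 0 x) 1 y) := by
      refine fun x y => NF.sat_congr _ φ fun i hi => ?_
      by_cases h1 : i = 1
      · subst h1; simp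
      · by_cases h0 : i = 0
        · subst h0; simp
        · simp only [Function.update_of_ne h0, Function.update_of_ne h1, e i hi]
    simp only [← e'] at hu ⊢
    exact h a hu
  · let R : ∀ U : Gen P, NM F U → NM F U → Prop := fun U x y =>
      (str F U).Sat φ (Function.update (Function.update (fun n => (w n).v U) 0 x) 1 y)
    refine forallN (Φ := fun U a => (∀ x, (str F U).mem x a → ∃! y, R U x y) →
      ∃ d, (str F U).IsSetOf d fun y => ∃ x, (str F U).mem x a ∧ R U x y) (fun s hs U hu => ?_) U a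
    obtain ⟨K, hK, h2⟩ := hs.sym
    obtain ⟨L, hL, h3, h4⟩ := F.inter H hH K hK
    obtain ⟨b, hb, hbd⟩ := collection R hs
    obtain ⟨d, hd, -, h⟩ := comp (Φ := fun U y =>
      (∀ x, (str F U).mem x (hs.sn.v U) → ∃! y, R U x y) ∧
        ∃ x, (str F U).mem x (hs.sn.v U) ∧ R U x y) b hb hL (by
        rintro U y ⟨h5, x, h6, h7⟩
        obtain ⟨y', h8, h9⟩ := hbd U x h6 ⟨y, h7⟩
        rwa [(h5 x h6).unique h7 h9]) (by
        rintro g hg U e he y ⟨h5, x, h6, h7⟩
        have hR : ∀ x y, R (gact g U) (e x) (e y) ↔ R U x y := by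
          intro x y
          refine Iff.trans (NF.sat_congr _ φ fun i hi => ?_) (iso_sat e he.mem he.atm φ _)
          by_cases h1' : i = 1
          · subst h1'; simp
          · by_cases h0 : i = 0
            · subst h0; simp
            · simp only [Function.update_of_ne h0, Function.update_of_ne h1']
              exact (he.fix (h1 g (h3 hg) i hi)).symm
        rw [← he.fix (h2 g (h4 hg))]
        refine ⟨fun x hx => ?_, e x, (he.mem _ _).2 h6, (hR _ _).2 h7⟩
        obtain ⟨x, rfl⟩ := e.surjective x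
        obtain ⟨y, h8, h9⟩ := h5 x ((he.mem _ _).1 hx)
        refine ⟨e y, (hR _ _).2 h8, fun y' hy' => ?_⟩
        obtain ⟨y', rfl⟩ := e.surjective y'
        rw [h9 y' ((hR _ _).1 hy')])
    exact ⟨_, id, fun y => ((h U).2 y).trans ⟨fun h => h.2, fun h => ⟨hu, h⟩⟩⟩

/-- The symmetric model satisfies the axioms; it has no atoms. -/
theorem isZFA (U : Gen P) : (str F U).IsZFA where
  atom_empty := fun _ _ h => h.elim
  ext := fun _ _ _ _ h => extN h
  atoms := ⟨hs_emp.sn.v U, id, fun z => ⟨fun h => by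
    obtain ⟨a, rfl⟩ := z.exists_name
    obtain ⟨p, hp⟩ := Ultrafilter.nonempty_of_mem (val_mem_iff.1 h)
    obtain ⟨_, _, j, _⟩ := hp p le_rfl
    exact j.elim, False.elim⟩⟩
  pairing := pairN U
  union := unionN U
  power := powN U
  infinity := ⟨hs_omega.sn.v U, (ind_iff _).2 (omega_inductive U)⟩
  foundation := fun x y h => by
    obtain ⟨m, h1, h2⟩ := Mod.found x.1 ⟨y.1, h⟩
    exact ⟨⟨m, x.2.trans h1⟩, h1, fun z => h2 z.1⟩
  separation := fun φ v a => sepN φ U v a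
  replacement := fun φ v a => replN φ U v a

end Pool.Agent.SymExt
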